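import Mathlib
import Pool.Agent.Jac70.Key

/-!
# Diagrams described by positions of the half-edges are isomorphic
-/

set_option autoImplicit false

namespace Pool.Agent.SWT85

open Pool.Agent.Jac70

variable {H : Type} [DecidableEq H]

theorem vt_symm {D : JD H} {a b : H} (h : D.vt a b) : D.vt b a := by
  rcases h with h | h | h
  · exact Or.inl h.symm
  · right; right
    rw [h, D.r3]
  · right; left
    rw [h, D.r3]

theorem vt_trans {D : JD H} {a b c : H} (h : D.vt a b) (h' : D.vt b c) : D.vt a c := by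
  rcases h' with rfl | rfl | rfl
  · exact h
  · exact D.vt_r.2 h
  · exact D.vt_r.2 (D.vt_r.2 h)

theorem onC_iff (D : JD H) (h : H) : D.onC h ↔ ∃ u ∈ D.K, h = u ∨ h = D.r u := by
  constructor
  · rintro (h1 | h1)
    · exact ⟨h, h1, Or.inl rfl⟩
    · obtain ⟨u, hu, h2⟩ := D.surj h1
      exact ⟨u, hu, Or.inr h2.symm⟩
  · rintro ⟨u, hu, rfl | rfl⟩
    · exact Or.inl hu
    · exact Or.inr (D.out u hu)

/-- The half-edges of a vertex. -/
def rp (D : JD H) (j : Fin 3) (h : H) : H := ![h, D.r h, D.r (D.r h)] j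

theorem rp_zero (D : JD H) (h : H) : rp D 0 h = h := rfl

theorem rp_one (D : JD H) (h : H) : rp D 1 h = D.r h := rfl

theorem rp_two (D : JD H) (h : H) : rp D 2 h = D.r (D.r h) := rfl

theorem r_rp (D : JD H) (j : Fin 3) (h : H) : D.r (rp D j h) = rp D (j + 1) h := by
  fin_cases j
  · rfl
  · rfl
  · exact D.r3 h

theorem vt_rp (D : JD H) (j : Fin 3) (h : H) : D.vt h (rp D j h) := by
  fin_cases j
  · exact Or.inl rfl
  · exact Or.inr (Or.inl rfl)
  · exact Or.inr (Or.inr rfl)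

theorem rp_inj (D : JD H) {j j' : Fin 3} {h : H} (hh : rp D j h = rp D j' h) : j = j' := by
  have h1 := D.r1 h
  have h2 := D.r2 h
  have h3 := D.rr_ne_r h
  fin_cases j <;> fin_cases j' <;>
    simp only [rp, Matrix.cons_val, Fin.zero_eta, Fin.mk_one, Fin.reduceFinMk] at hh ⊢
  · exact absurd hh.symm h1
  · exact absurd hh.symm h2
  · exact absurd hh h1
  · exact absurd hh.symm h3
  · exact absurd hh h2
  · exact absurd hh h3

/-- The description of a diagram by its vertices `v 0, …, v (n - 1)`; the first `k` ones are on the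
circle. -/
structure Ps (D : JD H) {n : ℕ} (v : Fin n → H) (k : ℕ) (s : Fin n → Fin n)
    (lab : Fin n × Fin 3 → ℕ) : Prop where
  bij : Function.Bijective fun p : Fin n × Fin 3 => rp D p.2 (v p.1)
  hK : ∀ h, h ∈ D.K ↔ ∃ i : Fin n, i.val < k ∧ h = v i
  arc : ∀ i : Fin n, i.val < k → D.e (D.r (v i)) = v (s i)
  lb : ∀ p q : Fin n × Fin 3, ¬ D.onC (rp D p.2 (v p.1)) → ¬ D.onC (rp D q.2 (v q.1)) →
    (lab p = lab q ↔ rp D q.2 (v q.1) = rp D p.2 (v p.1) ∨
      rp D q.2 (v q.1) = D.e (rp D p.2 (v p.1)))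

theorem Ps.onC_iff {D : JD H} {n : ℕ} {v : Fin n → H} {k : ℕ} {s : Fin n → Fin n}
    {lab : Fin n × Fin 3 → ℕ} (R : Ps D v k s lab) (p : Fin n × Fin 3) :
    D.onC (rp D p.2 (v p.1)) ↔ p.1.val < k ∧ p.2 ≠ 2 := by
  rw [SWT85.onC_iff]
  constructor
  · rintro ⟨u, hu, h⟩
    obtain ⟨i, hi, rfl⟩ := (R.hK u).1 hu
    rcases h with h | h
    · have h1 : p = (i, 0) := R.bij.1 (by simpa [rp] using h)
      subst h1
      exact ⟨hi, (by decide : (0 : Fin 3) ≠ 2)⟩
    · have h1 : p = (i, 1) := R.bij.1 (by simpa [rp] using h)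
      subst h1
      exact ⟨hi, (by decide : (1 : Fin 3) ≠ 2)⟩
  · rintro ⟨h1, h2⟩
    refine ⟨v p.1, (R.hK _).2 ⟨p.1, h1, rfl⟩, ?_⟩
    obtain ⟨i, j⟩ := p
    fin_cases j
    · exact Or.inl rfl
    · exact Or.inr rfl
    · exact absurd rfl h2

theorem Ps.iso {D D' : JD H} {n : ℕ} {v v' : Fin n → H} {k : ℕ} {s : Fin n → Fin n}
    {lab : Fin n × Fin 3 → ℕ} (R : Ps D v k s lab) (R' : Ps D' v' k s lab) : Iso D D' := by
  let f := Equiv.ofBijective _ R.bij
  let f' := Equiv.ofBijective _ R'.bij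
  have hf : ∀ p, f p = rp D p.2 (v p.1) := fun p => rfl
  have hf' : ∀ p, f' p = rp D' p.2 (v' p.1) := fun p => rfl
  have hg : ∀ p, (f.symm.trans f') (f p) = f' p := fun p => by simp
  have hg' : ∀ p, f (f.symm p) = p := fun p => by simp
  have hgr : ∀ p : Fin n × Fin 3, D.r (f p) = f (p.1, p.2 + 1) := fun p => by
    rw [hf, hf, r_rp]
  have hgr' : ∀ p : Fin n × Fin 3, D'.r (f' p) = f' (p.1, p.2 + 1) := fun p => by
    rw [hf', hf', r_rp]
  have arc : ∀ i : Fin n, i.val < k → D.e (f (i, 1)) = f (s i, 0) := fun i hi => R.arc i hi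
  have arc' : ∀ i : Fin n, i.val < k → D'.e (f' (i, 1)) = f' (s i, 0) := fun i hi => R'.arc i hi
  have hK : ∀ p : Fin n × Fin 3, f p ∈ D.K ↔ p.1.val < k ∧ p.2 = 0 := by
    intro p
    rw [R.hK]
    constructor
    · rintro ⟨i, hi, h⟩
      have h1 : p = (i, 0) := f.injective (by rw [hf, hf]; exact h)
      subst h1
      exact ⟨hi, rfl⟩
    · rintro ⟨h1, h2⟩
      refine ⟨p.1, h1, ?_⟩
      rw [hf, h2]
      rfl
  have hK' : ∀ p : Fin n × Fin 3, f' p ∈ D'.K ↔ p.1.val < k ∧ p.2 = 0 := by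
    intro p
    rw [R'.hK]
    constructor
    · rintro ⟨i, hi, h⟩
      have h1 : p = (i, 0) := f'.injective (by rw [hf', hf']; exact h)
      subst h1
      exact ⟨hi, rfl⟩
    · rintro ⟨h1, h2⟩
      refine ⟨p.1, h1, ?_⟩
      rw [hf', h2]
      rfl
  refine ⟨f.symm.trans f', ?_, ?_, ?_⟩
  · intro h
    obtain ⟨p, rfl⟩ := f.surjective h
    rw [hg]
    by_cases hc : D.onC (f p)
    · have hc1 := (R.onC_iff p).1 hc
      obtain ⟨i, j⟩ := p
      obtain ⟨hi, hj⟩ := hc1
      simp only at hi hj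
      fin_cases j
      · -- an incoming half-arc
        have h1 : f (i, 0) ∈ D.K := (hK _).2 ⟨hi, rfl⟩
        have h2 : D.e (D.e (f (i, 0))) ∈ D.K := by rw [D.e2]; exact h1
        obtain ⟨u, hu, h3⟩ := D.surj h2
        obtain ⟨i', hi', rfl⟩ := (R.hK u).1 hu
        have h4 : D.e (f (i, 0)) = f (i', 1) := h3.symm
        have h5 : f (s i', 0) = f (i, 0) := by
          rw [← arc i' hi', ← h4, D.e2]
        have h6 : s i' = i := (Prod.ext_iff.1 (f.injective h5)).1
        show D'.e (f' (i, 0)) = (f.symm.trans f') (D.e (f (i, 0)))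
        rw [h4, hg, ← h6, ← arc' i' hi', D'.e2]
      · show D'.e (f' (i, 1)) = (f.symm.trans f') (D.e (f (i, 1)))
        rw [arc i hi, arc' i hi, hg]
      · exact absurd rfl hj
    · have hc2 : ¬ D.onC (D.e (f p)) := by
        intro h1
        apply hc
        rcases h1 with h1 | h1
        · exact Or.inr h1
        · rw [D.e2] at h1
          exact Or.inl h1
      obtain ⟨q, hq⟩ := f.surjective (D.e (f p))
      rw [← hq] at hc2 ⊢
      rw [hg]
      have h1 : lab p = lab q := (R.lb p q hc hc2).2 (Or.inr hq)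
      have hc' : ¬ D'.onC (f' p) := fun h => hc ((R.onC_iff p).2 ((R'.onC_iff p).1 h))
      have hc2' : ¬ D'.onC (f' q) := fun h => hc2 ((R.onC_iff q).2 ((R'.onC_iff q).1 h))
      rcases (R'.lb p q hc' hc2').1 h1 with h2 | h2
      · have h3 : q = p := f'.injective h2
        rw [h3] at hq
        exact absurd hq.symm (D.e1 _)
      · exact h2.symm
  · intro h
    obtain ⟨p, rfl⟩ := f.surjective h
    rw [hg, hgr, hgr', hg]
  · intro h
    obtain ⟨p, rfl⟩ := f.surjective h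
    rw [hg, hK, hK']

end Pool.Agent.SWT85
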