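import Mathlib
import Pool.Agent.SWT85.Iso

/-!
# Diagrams described by edge labels

A diagram is described by the list `ls` of the labels of its legs, in the order of the circle, and
by the list `vs` of its vertices outside the circle, each one a triple of labels in cyclic order.
Every label occurs twice.
-/

set_option autoImplicit false

namespace Pool.Agent.SWT85

open Pool.Agent.Jac70

variable {H : Type} [DecidableEq H]

/-- Three labels. -/
abbrev Tri : Type := ℕ × ℕ × ℕ

/-- The labels at the vertex of `w`. -/
def tr (D : JD H) (lam : H → ℕ) (w : H) : Tri := (lam w, lam (D.r w), lam (D.r (D.r w)))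

/-- `D` is described by `ls`, `vs`. -/
structure Rz (D : JD H) (lam : H → ℕ) (cs ws : List H) (ls : List ℕ) (vs : List Tri) : Prop where
  hl : cs.map (fun c => lam (D.r (D.r c))) = ls
  hv : ws.map (tr D lam) = vs
  hK : ∀ h, h ∈ D.K ↔ h ∈ cs
  cy : cs.map (fun c => D.e (D.r c)) = cs.rotate 1
  cov : ∀ h, ∃ v ∈ cs ++ ws, D.vt v h
  nd : (cs ++ ws).Pairwise fun v w => ¬ D.vt v w
  lb : ∀ h h', ¬ D.onC h → ¬ D.onC h' → (lam h = lam h' ↔ h' = h ∨ h' = D.e h)

/-- The component of a triple. -/
def cp (j : Fin 3) (t : Tri) : ℕ := ![t.1, t.2.1, t.2.2] j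

theorem cp_tr (D : JD H) (lam : H → ℕ) (w : H) (j : Fin 3) :
    cp j (tr D lam w) = lam (rp D j w) := by
  fin_cases j <;> rfl

section

variable {D : JD H} {lam : H → ℕ} {cs ws : List H} {ls : List ℕ} {vs : List Tri}

theorem Rz.len (R : Rz D lam cs ws ls vs) : (cs ++ ws).length = ls.length + vs.length := by
  rw [← R.hl, ← R.hv, List.length_append, List.length_map, List.length_map]

theorem Rz.lenc (R : Rz D lam cs ws ls vs) : cs.length = ls.length := by
  rw [← R.hl, List.length_map]

/-- The vertices. -/
def Rz.v (R : Rz D lam cs ws ls vs) (i : Fin (ls.length + vs.length)) : H :=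
  (cs ++ ws)[i.val]'(by rw [R.len]; exact i.2)

/-- The successor on the circle. -/
def suc (ls : List ℕ) (vs : List Tri) (i : Fin (ls.length + vs.length)) :
    Fin (ls.length + vs.length) :=
  if h : 0 < ls.length then ⟨(i.val + 1) % ls.length,
    (Nat.mod_lt _ h).trans_le (Nat.le_add_right _ _)⟩ else i

/-- The labels of the positions. -/
def lab (ls : List ℕ) (vs : List Tri) (p : Fin (ls.length + vs.length) × Fin 3) : ℕ :=
  cp p.2 ((ls.map (fun l => ((l, l, l) : Tri)) ++ vs)[p.1.val]'(by
    rw [List.length_append, List.length_map]; exact p.1.2))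

theorem Rz.ps (R : Rz D lam cs ws ls vs) : Ps D R.v ls.length (suc ls vs) (lab ls vs) := by
  have hvt : ∀ i j : Fin (ls.length + vs.length), D.vt (R.v i) (R.v j) → i = j := by
    intro i j h
    by_contra hne
    have hp := List.pairwise_iff_getElem.1 R.nd
    rcases lt_or_gt_of_ne hne with h1 | h1
    · exact hp i.val j.val _ _ h1 h
    · exact hp j.val i.val _ _ h1 (vt_symm h)
  have bij : Function.Bijective fun p : Fin (ls.length + vs.length) × Fin 3 =>
      rp D p.2 (R.v p.1) := by
    constructor
    · rintro ⟨i, j⟩ ⟨i', j'⟩ h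
      simp only at h
      have h1 : D.vt (R.v i) (R.v i') := by
        have h2 := vt_rp D j (R.v i)
        have h3 := vt_symm (vt_rp D j' (R.v i'))
        rw [h] at h2
        exact vt_trans h2 h3
      have h2 := hvt _ _ h1
      subst h2
      rw [rp_inj D h]
    · intro h
      obtain ⟨v, hv, hvt⟩ := R.cov h
      obtain ⟨i, hi, rfl⟩ := List.getElem_of_mem hv
      rw [R.len] at hi
      rcases hvt with h1 | h1 | h1
      · exact ⟨(⟨i, hi⟩, 0), h1.symm⟩
      · exact ⟨(⟨i, hi⟩, 1), h1.symm⟩
      · exact ⟨(⟨i, hi⟩, 2), h1.symm⟩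
  have hK : ∀ h, h ∈ D.K ↔ ∃ i : Fin (ls.length + vs.length), i.val < ls.length ∧ h = R.v i := by
    intro h
    rw [R.hK]
    constructor
    · intro hh
      obtain ⟨i, hi, rfl⟩ := List.getElem_of_mem hh
      have hi' : i < ls.length := by rw [← R.lenc]; exact hi
      refine ⟨⟨i, by omega⟩, hi', ?_⟩
      unfold Rz.v
      rw [List.getElem_append_left hi]
    · rintro ⟨i, hi, rfl⟩
      unfold Rz.v
      rw [List.getElem_append_left (by rw [R.lenc]; exact hi)]
      exact List.getElem_mem _
  have arc : ∀ i : Fin (ls.length + vs.length), i.val < ls.length →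
      D.e (D.r (R.v i)) = R.v (suc ls vs i) := by
    intro i hi
    have h0 : 0 < ls.length := by omega
    have hc : i.val < cs.length := by rw [R.lenc]; exact hi
    have h1 : (cs.map (fun c => D.e (D.r c)))[i.val]'(by rw [List.length_map]; exact hc) =
        (cs.rotate 1)[i.val]'(by rw [List.length_rotate]; exact hc) := by
      simp only [R.cy]
    rw [List.getElem_map, List.getElem_rotate] at h1
    unfold suc Rz.v
    rw [dif_pos h0]
    have hm : (i.val + 1) % ls.length < cs.length := by rw [R.lenc]; exact Nat.mod_lt _ h0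
    simp only [List.getElem_append_left hc, List.getElem_append_left hm]
    rw [h1]
    congr 1
    rw [R.lenc]
  refine ⟨bij, hK, arc, ?_⟩
  have hon : ∀ p : Fin (ls.length + vs.length) × Fin 3, p.1.val < ls.length → p.2 ≠ 2 →
      D.onC (rp D p.2 (R.v p.1)) := by
    rintro ⟨i, j⟩ h1 h2
    rw [SWT85.onC_iff]
    refine ⟨R.v i, (hK _).2 ⟨i, h1, rfl⟩, ?_⟩
    fin_cases j
    · exact Or.inl rfl
    · exact Or.inr rfl
    · exact absurd rfl h2
  have hlab : ∀ p : Fin (ls.length + vs.length) × Fin 3, ¬ D.onC (rp D p.2 (R.v p.1)) →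
      lab ls vs p = lam (rp D p.2 (R.v p.1)) := by
    rintro ⟨i, j⟩ h
    by_cases hi : i.val < ls.length
    · have hj : j = 2 := by
        by_contra hj
        exact h (hon (i, j) hi hj)
      subst hj
      have hc : i.val < cs.length := by rw [R.lenc]; exact hi
      unfold lab Rz.v
      simp only [List.getElem_append_left hc]
      rw [List.getElem_append_left (by rw [List.length_map]; exact hi), List.getElem_map]
      show ls[i.val] = lam (D.r (D.r cs[i.val]))
      simp only [← R.hl, List.getElem_map]
    · have hc : cs.length ≤ i.val := by rw [R.lenc]; omega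
      unfold lab Rz.v
      simp only [List.getElem_append_right hc]
      rw [List.getElem_append_right (by rw [List.length_map]; omega), ← cp_tr D lam]
      simp only [← R.hv, List.getElem_map, List.length_map, R.lenc]
  intro p q hp hq
  rw [hlab p hp, hlab q hq]
  exact R.lb _ _ hp hq

theorem Rz.iso {D' : JD H} {lam' : H → ℕ} {cs' ws' : List H} (R : Rz D lam cs ws ls vs)
    (R' : Rz D' lam' cs' ws' ls vs) : Iso D D' := R.ps.iso R'.ps

end

/-- A code which describes a diagram. -/
def Good (H : Type) [DecidableEq H] (ls : List ℕ) (vs : List Tri) : Prop :=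
  ∃ (D : JD H) (lam : H → ℕ) (cs ws : List H), Rz D lam cs ws ls vs

open Classical in
/-- The class of the diagram described by a code, `0` if there is no such diagram. -/
noncomputable def cls (H : Type) [DecidableEq H] (ls : List ℕ) (vs : List Tri) : A H :=
  if h : Good H ls vs then h.choose.cl else 0

section

variable {D : JD H} {lam : H → ℕ} {cs ws : List H} {ls : List ℕ} {vs : List Tri}

theorem Rz.good (R : Rz D lam cs ws ls vs) : Good H ls vs := ⟨D, lam, cs, ws, R⟩

theorem Rz.cls (R : Rz D lam cs ws ls vs) : cls H ls vs = D.cl := by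
  unfold SWT85.cls
  have h : Good H ls vs := R.good
  rw [dif_pos h]
  obtain ⟨lam', cs', ws', R'⟩ := h.choose_spec
  exact JD.cl_iso (R.iso R')

theorem cls_bad (h : ¬ Good H ls vs) : cls H ls vs = 0 := dif_neg h

end

end Pool.Agent.SWT85
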