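import Mathlib
import Pool.Agent.SWT85.Code

/-!
# Elementary identities between codes
-/

set_option autoImplicit false

namespace Pool.Agent.SWT85

open Pool.Agent.Jac70

variable {H : Type} [DecidableEq H]

theorem exists_perm_map {α β : Type} [DecidableEq α] (f : α → β) : ∀ (vs' : List β) (ws : List α),
    (ws.map f).Perm vs' → ∃ ws', ws.Perm ws' ∧ ws'.map f = vs' := by
  intro vs'
  induction vs' with
  | nil =>
    intro ws h
    have h1 := h.eq_nil
    exact ⟨[], by rw [List.map_eq_nil_iff.1 h1], rfl⟩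
  | cons t vs ih =>
    intro ws h
    have h1 : t ∈ ws.map f := h.mem_iff.2 List.mem_cons_self
    obtain ⟨w, hw, rfl⟩ := List.mem_map.1 h1
    have h2 := List.perm_cons_erase hw
    have h3 : (f w :: (ws.erase w).map f).Perm (f w :: vs) := ((h2.map f).symm).trans h
    obtain ⟨ws'', h4, h5⟩ := ih _ (List.perm_cons _ |>.1 h3)
    exact ⟨w :: ws'', h2.trans (h4.cons w), by rw [List.map_cons, h5]⟩

section

variable {D : JD H} {lam : H → ℕ} {cs ws : List H} {ls : List ℕ} {vs : List Tri}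

theorem nvt_symm {v w : H} (h : ¬ D.vt v w) : ¬ D.vt w v := fun h' => h (vt_symm h')

theorem Rz.perm (R : Rz D lam cs ws ls vs) {vs' : List Tri} (h : vs.Perm vs') :
    ∃ ws', Rz D lam cs ws' ls vs' := by
  have h1 := R.hv ▸ h
  obtain ⟨ws', h2, h3⟩ := exists_perm_map _ _ _ h1
  have h4 : (cs ++ ws).Perm (cs ++ ws') := h2.append_left cs
  refine ⟨ws', ⟨R.hl, h3, R.hK, R.cy, ?_, ?_, R.lb⟩⟩
  · intro x
    obtain ⟨v, hv, hx⟩ := R.cov x
    exact ⟨v, h4.mem_iff.1 hv, hx⟩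
  · exact (h4.pairwise_iff fun h => nvt_symm h).1 R.nd

theorem good_perm {vs' : List Tri} (h : vs.Perm vs') : Good H ls vs ↔ Good H ls vs' := by
  constructor
  · rintro ⟨D, lam, cs, ws, R⟩
    obtain ⟨ws', R'⟩ := R.perm h
    exact R'.good
  · rintro ⟨D, lam, cs, ws, R⟩
    obtain ⟨ws', R'⟩ := R.perm h.symm
    exact R'.good

theorem cls_perm {vs' : List Tri} (h : vs.Perm vs') : cls H ls vs = cls H ls vs' := by
  by_cases hg : Good H ls vs
  · obtain ⟨D, lam, cs, ws, R⟩ := hg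
    obtain ⟨ws', R'⟩ := R.perm h
    rw [R.cls, R'.cls]
  · rw [cls_bad hg, cls_bad fun h' => hg ((good_perm h).2 h')]

theorem tr_r (w : H) : tr D lam (D.r w) = (lam (D.r w), lam (D.r (D.r w)), lam w) := by
  unfold tr
  rw [D.r3]

/-- The rotation of the first triple. -/
theorem Rz.rot {x a b : ℕ} (R : Rz D lam cs ws ls ((x, a, b) :: vs)) :
    ∃ ws', Rz D lam cs ws' ls ((a, b, x) :: vs) := by
  obtain ⟨w, ws1, rfl, hw, h1⟩ := List.map_eq_cons_iff.1 R.hv
  have hw' : tr D lam (D.r w) = (a, b, x) := by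
    rw [tr_r]
    unfold tr at hw
    simp only [Prod.mk.injEq] at hw ⊢
    exact ⟨hw.2.1, hw.2.2, hw.1⟩
  refine ⟨D.r w :: ws1, ⟨R.hl, by rw [List.map_cons, hw', h1], R.hK, R.cy, ?_, ?_, R.lb⟩⟩
  · intro h
    obtain ⟨v, hv, hx⟩ := R.cov h
    rcases List.mem_append.1 hv with hv | hv
    · exact ⟨v, List.mem_append_left _ hv, hx⟩
    · rcases List.mem_cons.1 hv with rfl | hv
      · refine ⟨D.r v, List.mem_append_right _ List.mem_cons_self, ?_⟩
        exact vt_symm (D.vt_r.2 (vt_symm hx))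
      · exact ⟨v, List.mem_append_right _ (List.mem_cons_of_mem _ hv), hx⟩
  · have h2 := R.nd
    rw [List.pairwise_append, List.pairwise_cons] at h2 ⊢
    refine ⟨h2.1, ⟨?_, h2.2.1.2⟩, ?_⟩
    · intro a' ha' h'
      exact h2.2.1.1 a' ha' (vt_symm (D.vt_r.1 (vt_symm h')))
    · intro u hu v hv h'
      rcases List.mem_cons.1 hv with rfl | hv
      · exact h2.2.2 u hu w List.mem_cons_self (D.vt_r.1 h')
      · exact h2.2.2 u hu v (List.mem_cons_of_mem _ hv) h'

theorem good_rot {x a b : ℕ} : Good H ls ((x, a, b) :: vs) ↔ Good H ls ((a, b, x) :: vs) := by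
  constructor
  · rintro ⟨D, lam, cs, ws, R⟩
    obtain ⟨ws', R'⟩ := R.rot
    exact R'.good
  · rintro ⟨D, lam, cs, ws, R⟩
    obtain ⟨ws', R'⟩ := R.rot
    obtain ⟨ws'', R''⟩ := R'.rot
    exact R''.good

theorem cls_rot {x a b : ℕ} : cls H ls ((x, a, b) :: vs) = cls H ls ((a, b, x) :: vs) := by
  by_cases hg : Good H ls ((x, a, b) :: vs)
  · obtain ⟨D, lam, cs, ws, R⟩ := hg
    obtain ⟨ws', R'⟩ := R.rot
    rw [R.cls, R'.cls]
  · rw [cls_bad hg, cls_bad fun h' => hg (good_rot.2 h')]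

theorem Rz.notC (R : Rz D lam cs ws ls vs) {v : H} (hv : v ∈ ws) : D.inner v := by
  by_contra hi
  obtain ⟨u, hu, h⟩ := D.not_inner_iff.1 hi
  have h1 := (List.pairwise_append.1 R.nd).2.2 u ((R.hK u).1 hu) v hv
  exact h1 h

theorem flip_vt {w : H} (hw : D.inner w) (v h : H) : (D.flip w hw).vt v h ↔ D.vt v h := by
  have h1 : ∀ z, (D.flip w hw).r z = if D.vt w z then D.r (D.r z) else D.r z :=
    D.flip_r w hw
  by_cases hv : D.vt w v
  · have e1 : (D.flip w hw).r v = D.r (D.r v) := by rw [h1, if_pos hv]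
    have e2 : (D.flip w hw).r (D.r (D.r v)) = D.r v := by
      rw [h1, if_pos (D.vt_r.2 (D.vt_r.2 hv)), D.r3]
    unfold JD.vt
    rw [e1, e2]
    tauto
  · have e1 : (D.flip w hw).r v = D.r v := by rw [h1, if_neg hv]
    have e2 : (D.flip w hw).r (D.r v) = D.r (D.r v) := by
      rw [h1, if_neg fun h => hv (D.vt_r.1 h)]
    unfold JD.vt
    rw [e1, e2]

/-- The reversal of the first triple. -/
theorem Rz.rev {x a b : ℕ} (R : Rz D lam cs ws ls ((x, a, b) :: vs)) :
    ∃ D' : JD H, ∃ ws', Rz D' lam cs ws' ls ((x, b, a) :: vs) ∧ D'.cl = - D.cl := by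
  obtain ⟨w, ws1, rfl, hw, h1⟩ := List.map_eq_cons_iff.1 R.hv
  have hi := R.notC (List.mem_cons_self (a := w) (l := ws1))
  have hnd := R.nd
  rw [List.pairwise_append, List.pairwise_cons] at hnd
  have hr : ∀ z, ¬ D.vt w z → (D.flip w hi).r z = D.r z := fun z hz => by
    rw [D.flip_r, if_neg hz]
  have v0 : D.vt w w := Or.inl rfl
  have v2 : D.vt w (D.r (D.r w)) := Or.inr (Or.inr rfl)
  have e1 : (D.flip w hi).r w = D.r (D.r w) := by
    rw [D.flip_r, if_pos v0]
  have e2 : (D.flip w hi).r (D.r (D.r w)) = D.r w := by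
    rw [D.flip_r, if_pos v2, D.r3]
  have htr : ∀ z, ¬ D.vt w z → tr (D.flip w hi) lam z = tr D lam z := fun z hz => by
    unfold tr
    rw [hr z hz, hr _ fun h => hz (D.vt_r.1 h)]
  have hcs : ∀ c ∈ cs, ¬ D.vt w c := fun c hc h =>
    hnd.2.2 c hc w List.mem_cons_self (vt_symm h)
  refine ⟨D.flip w hi, w :: ws1, ⟨?_, ?_, R.hK, ?_, ?_, ?_, R.lb⟩, D.cl_flip w hi⟩
  · rw [← R.hl]
    refine List.map_congr_left fun c hc => ?_
    rw [hr c (hcs c hc), hr _ fun h => hcs c hc (D.vt_r.1 h)]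
  · rw [List.map_cons]
    congr 1
    · unfold tr at hw ⊢
      simp only [Prod.mk.injEq] at hw
      rw [e1, e2, hw.1, hw.2.1, hw.2.2]
    · rw [← h1]
      exact List.map_congr_left fun z hz => htr z (hnd.2.1.1 z hz)
  · rw [← R.cy]
    refine List.map_congr_left fun c hc => ?_
    rw [hr c (hcs c hc)]
    rfl
  · intro h
    obtain ⟨v, hv, hx⟩ := R.cov h
    exact ⟨v, hv, (flip_vt hi v h).2 hx⟩
  · exact R.nd.imp fun {a b} h h' => h ((flip_vt hi a b).1 h')

theorem good_rev {x a b : ℕ} : Good H ls ((x, a, b) :: vs) ↔ Good H ls ((x, b, a) :: vs) := by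
  constructor
  · rintro ⟨D, lam, cs, ws, R⟩
    obtain ⟨D', ws', R', -⟩ := R.rev
    exact R'.good
  · rintro ⟨D, lam, cs, ws, R⟩
    obtain ⟨D', ws', R', -⟩ := R.rev
    exact R'.good

theorem cls_rev {x a b : ℕ} : cls H ls ((x, b, a) :: vs) = - cls H ls ((x, a, b) :: vs) := by
  by_cases hg : Good H ls ((x, a, b) :: vs)
  · obtain ⟨D, lam, cs, ws, R⟩ := hg
    obtain ⟨D', ws', R', h⟩ := R.rev
    rw [R.cls, R'.cls, h]
  · rw [cls_bad hg, cls_bad fun h' => hg (good_rev.2 h'), neg_zero]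

/-- The rotation of the circle. -/
theorem Rz.rol (R : Rz D lam cs ws ls vs) : Rz D lam (cs.rotate 1) ws (ls.rotate 1) vs := by
  have hp : (cs ++ ws).Perm (cs.rotate 1 ++ ws) := ((List.rotate_perm cs 1).symm).append_right ws
  refine ⟨?_, R.hv, ?_, ?_, ?_, ?_, R.lb⟩
  · rw [List.map_rotate, R.hl]
  · intro h
    rw [R.hK, List.mem_rotate]
  · rw [List.map_rotate, R.cy]
  · intro h
    obtain ⟨v, hv, hx⟩ := R.cov h
    exact ⟨v, hp.mem_iff.1 hv, hx⟩
  · exact (hp.pairwise_iff fun h => nvt_symm h).1 R.nd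

theorem Rz.roll (R : Rz D lam cs ws ls vs) (n : ℕ) :
    Rz D lam (cs.rotate n) ws (ls.rotate n) vs := by
  induction n with
  | zero => simpa using R
  | succ n ih =>
    have h := ih.rol
    rwa [List.rotate_rotate, List.rotate_rotate] at h

theorem good_rol (n : ℕ) : Good H ls vs ↔ Good H (ls.rotate n) vs := by
  constructor
  · rintro ⟨D, lam, cs, ws, R⟩
    exact (R.roll n).good
  · rintro ⟨D, lam, cs, ws, R⟩
    have h := R.roll ((ls.rotate n).length - n % (ls.rotate n).length)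
    obtain ⟨m, hm⟩ : ∃ m, (ls.rotate n).rotate m = ls := by
      exact (List.IsRotated.symm ⟨n, rfl⟩ : List.IsRotated _ _)
    have h := R.roll m
    rw [hm] at h
    exact h.good

theorem cls_rol (n : ℕ) : cls H (ls.rotate n) vs = cls H ls vs := by
  by_cases hg : Good H ls vs
  · obtain ⟨D, lam, cs, ws, R⟩ := hg
    rw [R.cls, (R.roll n).cls]
  · rw [cls_bad hg, cls_bad fun h' => hg ((good_rol n).2 h')]

theorem cls_rot_append (l₁ l₂ : List ℕ) : cls H (l₁ ++ l₂) vs = cls H (l₂ ++ l₁) vs := by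
  rw [← cls_rol (H := H) (ls := l₁ ++ l₂) l₁.length, List.rotate_append_length_eq]

/-- The labels of the code. -/
def lbs (ls : List ℕ) (vs : List Tri) : List ℕ :=
  ls ++ vs.flatMap fun t => [t.1, t.2.1, t.2.2]

theorem Rz.mem_lbs (R : Rz D lam cs ws ls vs) {h : H} (hh : ¬ D.onC h) : lam h ∈ lbs ls vs := by
  obtain ⟨v, hv, hx⟩ := R.cov h
  unfold lbs
  rcases List.mem_append.1 hv with hv | hv
  · refine List.mem_append_left _ ?_
    rw [← R.hl]
    have hK := (R.hK v).2 hv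
    rcases hx with rfl | rfl | rfl
    · exact absurd (Or.inl hK) hh
    · exact absurd ((onC_iff D _).2 ⟨v, hK, Or.inr rfl⟩) hh
    · exact List.mem_map.2 ⟨v, hv, rfl⟩
  · refine List.mem_append_right _ ?_
    refine List.mem_flatMap.2 ⟨tr D lam v, ?_, ?_⟩
    · rw [← R.hv]
      exact List.mem_map.2 ⟨v, hv, rfl⟩
    · unfold tr
      rcases hx with rfl | rfl | rfl <;> simp

/-- The renaming of the labels. -/
def mp (f : ℕ → ℕ) (t : Tri) : Tri := (f t.1, f t.2.1, f t.2.2)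

theorem Rz.relabel (R : Rz D lam cs ws ls vs) (f : ℕ → ℕ)
    (hf : ∀ x ∈ lbs ls vs, ∀ y ∈ lbs ls vs, f x = f y → x = y) :
    Rz D (fun h => f (lam h)) cs ws (ls.map f) (vs.map (mp f)) := by
  refine ⟨?_, ?_, R.hK, R.cy, R.cov, R.nd, ?_⟩
  · rw [← R.hl, List.map_map]
    rfl
  · rw [← R.hv, List.map_map]
    rfl
  · intro h h' hh hh'
    rw [← R.lb h h' hh hh']
    exact ⟨hf _ (R.mem_lbs hh) _ (R.mem_lbs hh'), fun h => by rw [h]⟩

theorem map_map_lbs {f g : ℕ → ℕ} (h : ∀ x ∈ lbs ls vs, g (f x) = x) :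
    (ls.map f).map g = ls ∧ (vs.map (mp f)).map (mp g) = vs := by
  constructor
  · rw [List.map_map]
    exact (List.map_congr_left fun x hx => h x (List.mem_append_left _ hx)).trans
      (List.map_id _)
  · rw [List.map_map]
    refine (List.map_congr_left fun t ht => ?_).trans (List.map_id _)
    have h1 : ∀ x ∈ [t.1, t.2.1, t.2.2], g (f x) = x := fun x hx =>
      h x (List.mem_append_right _ (List.mem_flatMap.2 ⟨t, ht, hx⟩))
    unfold mp
    simp only [Function.comp]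
    rw [h1 t.1 (by simp), h1 t.2.1 (by simp), h1 t.2.2 (by simp)]
    rfl

theorem lbs_map (f : ℕ → ℕ) : lbs (ls.map f) (vs.map (mp f)) = (lbs ls vs).map f := by
  unfold lbs
  rw [List.map_append, List.map_flatMap, List.flatMap_map]
  rfl

theorem good_relabel (f : ℕ → ℕ)
    (hf : ∀ x ∈ lbs ls vs, ∀ y ∈ lbs ls vs, f x = f y → x = y) :
    Good H ls vs ↔ Good H (ls.map f) (vs.map (mp f)) := by
  constructor
  · rintro ⟨D, lam, cs, ws, R⟩
    exact (R.relabel f hf).good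
  · intro hg
    let g := Function.invFunOn f {x | x ∈ lbs ls vs}
    have hgf : ∀ x ∈ lbs ls vs, g (f x) = x := by
      intro x hx
      have h1 : ∃ y ∈ {x | x ∈ lbs ls vs}, f y = f x := ⟨x, hx, rfl⟩
      exact hf _ (Function.invFunOn_mem h1) _ hx (Function.invFunOn_eq h1)
    obtain ⟨D, lam, cs, ws, R⟩ := hg
    have h2 := R.relabel g (by
      rw [lbs_map]
      intro x hx y hy hxy
      obtain ⟨x', hx', rfl⟩ := List.mem_map.1 hx
      obtain ⟨y', hy', rfl⟩ := List.mem_map.1 hy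
      rw [hgf x' hx', hgf y' hy'] at hxy
      rw [hxy])
    rw [(map_map_lbs hgf).1, (map_map_lbs hgf).2] at h2
    exact h2.good

theorem cls_relabel (f : ℕ → ℕ)
    (hf : ∀ x ∈ lbs ls vs, ∀ y ∈ lbs ls vs, f x = f y → x = y) :
    cls H (ls.map f) (vs.map (mp f)) = cls H ls vs := by
  by_cases hg : Good H ls vs
  · obtain ⟨D, lam, cs, ws, R⟩ := hg
    rw [R.cls, (R.relabel f hf).cls]
  · rw [cls_bad hg, cls_bad fun h' => hg ((good_relabel f hf).2 h')]

end

end Pool.Agent.SWT85
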