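import Mathlib
import Pool.Agent.SWT85.Ele

/-!
# IHX and STU for codes
-/

set_option autoImplicit false

namespace Pool.Agent.SWT85

open Pool.Agent.Jac70

variable {H : Type} [DecidableEq H]

section

variable {D : JD H} {lam : H → ℕ} {cs ws : List H} {ls : List ℕ} {vs : List Tri}

theorem vt_rr {c h : H} : D.vt (D.r (D.r c)) h ↔ D.vt c h := by
  constructor
  · intro h1
    exact vt_symm (D.vt_r.1 (D.vt_r.1 (vt_symm h1)))
  · intro h1
    exact vt_symm (D.vt_r.2 (D.vt_r.2 (vt_symm h1)))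

theorem Rz.chg {w₁ w₂ : H} (R : Rz D lam cs (w₁ :: w₂ :: ws) ls vs) {D' : JD H}
    (he : D'.e = D.e) (hK : D'.K = D.K)
    (ho : ∀ h, ¬ (D.vt w₁ h ∨ D.vt w₂ h) → D'.r h = D.r h)
    (hs : ∀ h, (D'.vt w₁ h ∨ D'.vt w₂ h) ↔ (D.vt w₁ h ∨ D.vt w₂ h)) (hn : ¬ D'.vt w₁ w₂) :
    Rz D' lam cs (w₁ :: w₂ :: ws) ls (tr D' lam w₁ :: tr D' lam w₂ :: ws.map (tr D lam)) := by
  have hnd := R.nd
  rw [List.pairwise_append, List.pairwise_cons, List.pairwise_cons] at hnd
  obtain ⟨n1, ⟨n2, n3, n4⟩, n5⟩ := hnd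
  have six_r : ∀ h, ¬ (D.vt w₁ h ∨ D.vt w₂ h) → ¬ (D.vt w₁ (D.r h) ∨ D.vt w₂ (D.r h)) := by
    intro h h1
    rw [D.vt_r, D.vt_r]
    exact h1
  have vt' : ∀ v, ¬ (D.vt w₁ v ∨ D.vt w₂ v) → ∀ h, (D'.vt v h ↔ D.vt v h) := by
    intro v hv h
    unfold JD.vt
    rw [ho v hv, ho _ (six_r v hv)]
  have hc6 : ∀ c ∈ cs, ¬ (D.vt w₁ c ∨ D.vt w₂ c) := by
    intro c hc h
    rcases h with h | h
    · exact n5 c hc w₁ (by simp) (vt_symm h)
    · exact n5 c hc w₂ (by simp) (vt_symm h)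
  have hw6 : ∀ w ∈ ws, ¬ (D.vt w₁ w ∨ D.vt w₂ w) := by
    intro w hw h
    rcases h with h | h
    · exact n2 w (List.mem_cons_of_mem _ hw) h
    · exact n3 w hw h
  have hC : ∀ h, D'.onC h ↔ D.onC h := by
    intro h
    unfold JD.onC
    rw [he, hK]
  refine ⟨?_, ?_, ?_, ?_, ?_, ?_, ?_⟩
  · rw [← R.hl]
    refine List.map_congr_left fun c hc => ?_
    rw [ho c (hc6 c hc), ho _ (six_r _ (hc6 c hc))]
  · rw [List.map_cons, List.map_cons]
    congr 2
    refine List.map_congr_left fun w hw => ?_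
    unfold tr
    rw [ho w (hw6 w hw), ho _ (six_r _ (hw6 w hw))]
  · intro h
    rw [hK]
    exact R.hK h
  · rw [← R.cy]
    refine List.map_congr_left fun c hc => ?_
    rw [ho c (hc6 c hc), he]
  · intro h
    by_cases h6 : D.vt w₁ h ∨ D.vt w₂ h
    · rcases (hs h).2 h6 with h1 | h1
      · exact ⟨w₁, by simp, h1⟩
      · exact ⟨w₂, by simp, h1⟩
    · obtain ⟨v, hv, hx⟩ := R.cov h
      refine ⟨v, hv, (vt' v ?_ h).2 hx⟩
      rintro (h1 | h1)
      · exact h6 (Or.inl (vt_trans h1 hx))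
      · exact h6 (Or.inr (vt_trans h1 hx))
  · rw [List.pairwise_append, List.pairwise_cons, List.pairwise_cons]
    refine ⟨?_, ⟨?_, ?_, ?_⟩, ?_⟩
    · refine List.Pairwise.imp_of_mem ?_ n1
      intro a b ha _ h h'
      exact h ((vt' a (hc6 a ha) b).1 h')
    · intro v hv h
      rcases List.mem_cons.1 hv with rfl | hv
      · exact hn h
      · exact hw6 v hv ((hs v).1 (Or.inl h))
    · intro v hv h
      exact hw6 v hv ((hs v).1 (Or.inr h))
    · refine List.Pairwise.imp_of_mem ?_ n4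
      intro a b ha _ h h'
      exact h ((vt' a (hw6 a ha) b).1 h')
    · intro a ha b hb h'
      exact n5 a ha b hb ((vt' a (hc6 a ha) b).1 h')
  · intro h h' h1 h2
    rw [he]
    exact R.lb h h' (fun h3 => h1 ((hC h).2 h3)) (fun h3 => h2 ((hC h').2 h3))

/-- The edge of the first two vertices. -/
theorem Rz.edge {x a b c d : ℕ} {w₁ w₂ : H}
    (R : Rz D lam cs (w₁ :: w₂ :: ws) ls ((x, a, b) :: (x, c, d) :: vs)) :
    D.e w₁ = w₂ ∧ ∃ k : Ok D w₁, D.hK w₁ = D.K := by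
  have hnd := R.nd
  rw [List.pairwise_append, List.pairwise_cons, List.pairwise_cons] at hnd
  obtain ⟨n1, ⟨n2, n3, n4⟩, n5⟩ := hnd
  have hv := R.hv
  rw [List.map_cons, List.map_cons, List.cons.injEq, List.cons.injEq] at hv
  obtain ⟨h1, h2, -⟩ := hv
  have l1 : lam w₁ = x := congrArg Prod.fst h1
  have l2 : lam w₂ = x := congrArg Prod.fst h2
  have i1 := R.notC (v := w₁) (by simp)
  have i2 := R.notC (v := w₂) (by simp)
  have h12 : ¬ D.vt w₁ w₂ := n2 w₂ (by simp)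
  have he : D.e w₁ = w₂ := by
    rcases (R.lb w₁ w₂ i1.1 i2.1).1 (l1.trans l2.symm) with h | h
    · exact absurd (Or.inl h) h12
    · exact h.symm
  refine ⟨he, ⟨i1, ?_, ?_⟩, ?_⟩
  · rw [he]
    exact fun h => h12 (Or.inr (Or.inl h))
  · rw [he]
    exact fun h => h12 (Or.inr (Or.inr h))
  · unfold JD.hK
    rw [he]
    exact if_neg fun h => i2.2.1 (Or.inl h)

theorem Rz.ihxJ {x a b c d : ℕ} {w₁ w₂ : H}
    (R : Rz D lam cs (w₁ :: w₂ :: ws) ls ((x, a, b) :: (x, c, d) :: vs)) (k : Ok D w₁) :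
    Rz (D.mv w₁ k) lam cs (w₁ :: w₂ :: ws) ls ((x, b, c) :: (x, d, a) :: vs) := by
  obtain ⟨he, -, hK⟩ := R.edge
  have hv := R.hv
  rw [List.map_cons, List.map_cons, List.cons.injEq, List.cons.injEq] at hv
  obtain ⟨h1, h2, h3⟩ := hv
  unfold tr at h1 h2
  simp only [Prod.mk.injEq] at h1 h2
  have t := D.dst k
  rw [he] at t
  have s1 : (D.mv w₁ k).r w₁ = D.r (D.r w₁) := JD.hf_x k
  have s2 : (D.mv w₁ k).r (D.r (D.r w₁)) = D.r w₂ := by
    rw [← he]; exact JD.hf_b k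
  have s3 : (D.mv w₁ k).r w₂ = D.r (D.r w₂) := by
    rw [← he]; exact JD.hf_y k
  have s4 : (D.mv w₁ k).r (D.r (D.r w₂)) = D.r w₁ := by
    rw [← he]; exact JD.hf_d k
  have so : ∀ h, ¬ (D.vt w₁ h ∨ D.vt w₂ h) → (D.mv w₁ k).r h = D.r h := by
    intro h hh
    apply JD.hf_o k
    unfold JD.six
    rw [he]
    exact hh
  have hR := R.chg (D' := D.mv w₁ k) rfl hK so (by
    intro h
    unfold JD.vt
    rw [s1, s2, s3, s4]
    tauto) (by
    unfold JD.vt
    rw [s1, s2]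
    rintro (h | h | h)
    · exact t.yx h
    · exact t.yb h
    · exact t.yc h)
  unfold tr at hR
  rw [s1, s2, s3, s4, h1.1, h1.2.1, h1.2.2, h2.1, h2.2.1, h2.2.2] at hR
  rw [← h3]
  exact hR

theorem Rz.ihxX {x a b c d : ℕ} {w₁ w₂ : H}
    (R : Rz D lam cs (w₁ :: w₂ :: ws) ls ((x, a, b) :: (x, c, d) :: vs)) (k : Ok D w₁) :
    Rz (D.mx w₁ k) lam cs (w₁ :: w₂ :: ws) ls ((x, a, c) :: (x, d, b) :: vs) := by
  obtain ⟨he, -, hK⟩ := R.edge
  have hv := R.hv
  rw [List.map_cons, List.map_cons, List.cons.injEq, List.cons.injEq] at hv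
  obtain ⟨h1, h2, h3⟩ := hv
  unfold tr at h1 h2
  simp only [Prod.mk.injEq] at h1 h2
  have t := D.dst k
  rw [he] at t
  obtain ⟨s1, s2, -, s3, s4, -, s7, s8, s9⟩ := JD.mx_spec k
  rw [he] at s2 s3 s4
  have so : ∀ h, ¬ (D.vt w₁ h ∨ D.vt w₂ h) → (D.mx w₁ k).r h = D.r h := by
    intro h hh
    apply s7
    unfold JD.six
    rw [he]
    exact hh
  have hR := R.chg (D' := D.mx w₁ k) s9 (s8.trans hK) so (by
    intro h
    unfold JD.vt
    rw [s1, s2, s3, s4]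
    tauto) (by
    unfold JD.vt
    rw [s1, s2]
    rintro (h | h | h)
    · exact t.yx h
    · exact t.ya h
    · exact t.yc h)
  unfold tr at hR
  rw [s1, s2, s3, s4, h1.1, h1.2.1, h1.2.2, h2.1, h2.2.1, h2.2.2] at hR
  rw [← h3]
  exact hR

theorem good_J {x a b c d : ℕ} (h : Good H ls ((x, a, b) :: (x, c, d) :: vs)) :
    Good H ls ((x, b, c) :: (x, d, a) :: vs) := by
  obtain ⟨D, lam, cs, ws, R⟩ := h
  obtain ⟨w₁, ws1, rfl, -, h1⟩ := List.map_eq_cons_iff.1 R.hv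
  obtain ⟨w₂, ws, rfl, -, -⟩ := List.map_eq_cons_iff.1 h1
  obtain ⟨-, k, -⟩ := R.edge
  exact (R.ihxJ k).good

theorem good_J_iff {x a b c d : ℕ} : Good H ls ((x, a, b) :: (x, c, d) :: vs) ↔
    Good H ls ((x, b, c) :: (x, d, a) :: vs) := by
  refine ⟨good_J, fun h => ?_⟩
  exact (good_perm (List.Perm.swap _ _ _)).1 (good_J h)

theorem good_X_iff {x a b c d : ℕ} : Good H ls ((x, a, b) :: (x, c, d) :: vs) ↔
    Good H ls ((x, a, c) :: (x, d, b) :: vs) := by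
  have h1 : Good H ls ((x, a, b) :: (x, c, d) :: vs) ↔
      Good H ls ((x, b, a) :: (x, c, d) :: vs) := good_rev
  rw [h1, good_J_iff]

/-- IHX. -/
theorem cls_ihx (x a b c d : ℕ) : cls H ls ((x, a, b) :: (x, c, d) :: vs) =
    cls H ls ((x, b, c) :: (x, d, a) :: vs) - cls H ls ((x, a, c) :: (x, d, b) :: vs) := by
  by_cases hg : Good H ls ((x, a, b) :: (x, c, d) :: vs)
  · obtain ⟨D, lam, cs, ws, R⟩ := hg
    obtain ⟨w₁, ws1, rfl, -, h1⟩ := List.map_eq_cons_iff.1 R.hv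
    obtain ⟨w₂, ws, rfl, -, -⟩ := List.map_eq_cons_iff.1 h1
    obtain ⟨-, k, -⟩ := R.edge
    rw [R.cls, (R.ihxJ k).cls, (R.ihxX k).cls]
    exact JD.rel_mv k
  · rw [cls_bad hg, cls_bad fun h => hg (good_J_iff.2 h), cls_bad fun h => hg (good_X_iff.2 h),
      sub_zero]

theorem Rz.chs {w c : H} (R : Rz D lam (c :: cs) (w :: ws) ls vs) {D' : JD H}
    (hy : D.e w = D.r (D.r c)) (he : D'.e = D.e) (hK : D'.K = insert (D.e w) D.K)
    (ho : ∀ h, ¬ (D.vt w h ∨ D.vt c h) → D'.r h = D.r h)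
    (hs : ∀ h, (D'.vt c h ∨ D'.vt (D.e w) h) ↔ (D.vt w h ∨ D.vt c h))
    (hn : ¬ D'.vt c (D.e w)) (h1 : D'.r c = w) (h2 : D'.r (D.e w) = D.r c) :
    Rz D' lam (c :: D.e w :: cs) ws
      (lam (D'.r w) :: lam (D'.r (D.r c)) :: ls.tail) vs.tail := by
  have hnd := R.nd
  rw [List.pairwise_append, List.pairwise_cons, List.pairwise_cons] at hnd
  obtain ⟨⟨n1, n2⟩, ⟨n3, n4⟩, n5⟩ := hnd
  have six_r : ∀ h, ¬ (D.vt w h ∨ D.vt c h) → ¬ (D.vt w (D.r h) ∨ D.vt c (D.r h)) := by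
    intro h h1
    rw [D.vt_r, D.vt_r]
    exact h1
  have vt' : ∀ v, ¬ (D.vt w v ∨ D.vt c v) → ∀ h, (D'.vt v h ↔ D.vt v h) := by
    intro v hv h
    unfold JD.vt
    rw [ho v hv, ho _ (six_r v hv)]
  have hc6 : ∀ u ∈ cs, ¬ (D.vt w u ∨ D.vt c u) := by
    intro u hu h
    rcases h with h | h
    · exact n5 u (List.mem_cons_of_mem _ hu) w (by simp) (vt_symm h)
    · exact n1 u hu h
  have hw6 : ∀ u ∈ ws, ¬ (D.vt w u ∨ D.vt c u) := by
    intro u hu h
    rcases h with h | h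
    · exact n3 u hu h
    · exact n5 c (by simp) u (List.mem_cons_of_mem _ hu) h
  have hC : ∀ h, D.onC h → D'.onC h := by
    intro h
    unfold JD.onC
    rw [he, hK]
    rintro (h3 | h3)
    · exact Or.inl (Finset.mem_insert_of_mem h3)
    · exact Or.inr (Finset.mem_insert_of_mem h3)
  have hl := R.hl
  have hv := R.hv
  rw [List.map_cons] at hl hv
  refine ⟨?_, ?_, ?_, ?_, ?_, ?_, ?_⟩
  · rw [List.map_cons, List.map_cons, h1, h2, ← hl, List.tail_cons]
    congr 2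
    refine List.map_congr_left fun u hu => ?_
    rw [ho u (hc6 u hu), ho _ (six_r _ (hc6 u hu))]
  · rw [← hv, List.tail_cons]
    refine List.map_congr_left fun u hu => ?_
    unfold tr
    rw [ho u (hw6 u hu), ho _ (six_r _ (hw6 u hu))]
  · intro h
    rw [hK, Finset.mem_insert, R.hK, List.mem_cons, List.mem_cons, List.mem_cons]
    tauto
  · have h3 := R.cy
    rw [List.map_cons, List.rotate_cons_succ, List.rotate_zero] at h3
    rw [List.map_cons, List.map_cons, List.rotate_cons_succ, List.rotate_zero, List.cons_append,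
      ← h3, h1, h2, he]
    congr 2
    refine List.map_congr_left fun u hu => ?_
    rw [ho u (hc6 u hu)]
  · intro h
    by_cases h6 : D.vt w h ∨ D.vt c h
    · rcases (hs h).2 h6 with h3 | h3
      · exact ⟨c, by simp, h3⟩
      · exact ⟨D.e w, by simp, h3⟩
    · obtain ⟨v, hv, hx⟩ := R.cov h
      have hv6 : ¬ (D.vt w v ∨ D.vt c v) := by
        rintro (h3 | h3)
        · exact h6 (Or.inl (vt_trans h3 hx))
        · exact h6 (Or.inr (vt_trans h3 hx))
      refine ⟨v, ?_, (vt' v hv6 h).2 hx⟩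
      have hvw : v ≠ w := fun h' => hv6 (Or.inl (h' ▸ Or.inl rfl))
      simp only [List.cons_append, List.mem_cons, List.mem_append] at hv ⊢
      tauto
  · have hsc : ∀ u, ¬ (D.vt w u ∨ D.vt c u) → ¬ D'.vt c u ∧ ¬ D'.vt (D.e w) u := fun u hu =>
      ⟨fun h => hu ((hs u).1 (Or.inl h)), fun h => hu ((hs u).1 (Or.inr h))⟩
    rw [List.pairwise_append, List.pairwise_cons, List.pairwise_cons]
    refine ⟨⟨?_, ?_, ?_⟩, ?_, ?_⟩
    · intro u hu
      rcases List.mem_cons.1 hu with rfl | hu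
      · exact hn
      · exact (hsc u (hc6 u hu)).1
    · intro u hu
      exact (hsc u (hc6 u hu)).2
    · refine List.Pairwise.imp_of_mem ?_ n2
      intro a b ha _ h h'
      exact h ((vt' a (hc6 a ha) b).1 h')
    · refine List.Pairwise.imp_of_mem ?_ n4
      intro a b ha _ h h'
      exact h ((vt' a (hw6 a ha) b).1 h')
    · intro a ha b hb h'
      rcases List.mem_cons.1 ha with rfl | ha
      · exact (hsc b (hw6 b hb)).1 h'
      rcases List.mem_cons.1 ha with rfl | ha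
      · exact (hsc b (hw6 b hb)).2 h'
      · exact n5 a (List.mem_cons_of_mem _ ha) b (List.mem_cons_of_mem _ hb)
          ((vt' a (hc6 a ha) b).1 h')
  · intro h h' h1 h2
    rw [he]
    exact R.lb h h' (fun h3 => h1 (hC h h3)) (fun h3 => h2 (hC h' h3))

/-- The leg at the first vertex. -/
theorem Rz.edgeS {x a b : ℕ} {w c : H}
    (R : Rz D lam (c :: cs) (w :: ws) (x :: ls) ((x, a, b) :: vs)) :
    D.e w = D.r (D.r c) ∧ ∃ k : Ok D w, D.hK w = insert (D.e w) D.K := by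
  have hnd := R.nd
  rw [List.pairwise_append, List.pairwise_cons, List.pairwise_cons] at hnd
  obtain ⟨⟨n1, n2⟩, ⟨n3, n4⟩, n5⟩ := hnd
  have hv := R.hv
  have hl := R.hl
  rw [List.map_cons, List.cons.injEq] at hv hl
  have l1 : lam w = x := congrArg Prod.fst hv.1
  have l2 : lam (D.r (D.r c)) = x := hl.1
  have i1 := R.notC (v := w) (by simp)
  have hcK : c ∈ D.K := (R.hK c).2 (by simp)
  have hcC : ¬ D.onC (D.r (D.r c)) := fun h => by
    rcases h with h | h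
    · exact (D.leg c hcK).1 h
    · exact (D.leg c hcK).2 h
  have h12 : ¬ D.vt c w := n5 c (by simp) w (by simp)
  have he : D.e w = D.r (D.r c) := by
    rcases (R.lb w (D.r (D.r c)) i1.1 hcC).1 (l1.trans l2.symm) with h | h
    · exact absurd (Or.inr (Or.inr h.symm)) h12
    · exact h.symm
  have h13 : ¬ D.vt w (D.r (D.r c)) := fun h => h12 (vt_symm (D.vt_r.1 (D.vt_r.1 h)))
  refine ⟨he, ⟨i1, ?_, ?_⟩, ?_⟩
  · rw [he]
    exact fun h => h13 (Or.inr (Or.inl h))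
  · rw [he]
    exact fun h => h13 (Or.inr (Or.inr h))
  · unfold JD.hK
    rw [he, D.r3]
    exact if_pos hcK

theorem Rz.stuT {x a b : ℕ} {w c : H}
    (R : Rz D lam (c :: cs) (w :: ws) (x :: ls) ((x, a, b) :: vs)) (k : Ok D w) :
    Rz (D.mv w k) lam (c :: D.e w :: cs) ws (b :: a :: ls) vs := by
  obtain ⟨he, -, hK⟩ := R.edgeS
  have hv := R.hv
  rw [List.map_cons, List.cons.injEq] at hv
  obtain ⟨h1, h3⟩ := hv
  unfold tr at h1
  simp only [Prod.mk.injEq] at h1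
  have t := D.dst k
  have hc : D.r (D.e w) = c := by rw [he, D.r3]
  have hc2 : D.r (D.r (D.e w)) = D.r c := by rw [hc]
  rw [hc2, hc] at t
  have s1 : (D.mv w k).r w = D.r (D.r w) := JD.hf_x k
  have s3 : (D.mv w k).r c = w := by
    have := JD.hf_c k
    rwa [hc] at this
  have s4 : (D.mv w k).r (D.e w) = D.r c := by
    have := JD.hf_y k
    rwa [hc2] at this
  have s5 : (D.mv w k).r (D.r c) = D.r w := by
    have := JD.hf_d k
    rwa [hc2] at this
  have so : ∀ h, ¬ (D.vt w h ∨ D.vt c h) → (D.mv w k).r h = D.r h := by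
    intro h hh
    apply JD.hf_o k
    unfold JD.six
    rw [he, vt_rr]
    exact hh
  have hR := R.chs (D' := D.mv w k) he rfl hK so (by
    intro h
    unfold JD.vt
    rw [s3, s1, s4, s5, he]
    tauto) (by
    unfold JD.vt
    rw [s3, s1]
    rintro (h | h | h)
    · exact t.yc h
    · exact t.yx h
    · exact t.yb h) s3 s4
  rw [s1, s5, h1.2.1, h1.2.2] at hR
  exact hR

theorem Rz.stuU {x a b : ℕ} {w c : H}
    (R : Rz D lam (c :: cs) (w :: ws) (x :: ls) ((x, a, b) :: vs)) (k : Ok D w) :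
    Rz (D.mx w k) lam (c :: D.e w :: cs) ws (a :: b :: ls) vs := by
  obtain ⟨he, -, hK⟩ := R.edgeS
  have hv := R.hv
  rw [List.map_cons, List.cons.injEq] at hv
  obtain ⟨h1, h3⟩ := hv
  unfold tr at h1
  simp only [Prod.mk.injEq] at h1
  have t := D.dst k
  have hc : D.r (D.e w) = c := by rw [he, D.r3]
  have hc2 : D.r (D.r (D.e w)) = D.r c := by rw [hc]
  rw [hc2, hc] at t
  obtain ⟨s1, -, s3, s4, s5, -, s7, s8, s9⟩ := JD.mx_spec k
  rw [hc] at s3
  rw [hc2] at s4 s5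
  have so : ∀ h, ¬ (D.vt w h ∨ D.vt c h) → (D.mx w k).r h = D.r h := by
    intro h hh
    apply s7
    unfold JD.six
    rw [he, vt_rr]
    exact hh
  have hR := R.chs (D' := D.mx w k) he s9 (s8.trans hK) so (by
    intro h
    unfold JD.vt
    rw [s3, s1, s4, s5, he]
    tauto) (by
    unfold JD.vt
    rw [s3, s1]
    rintro (h | h | h)
    · exact t.yc h
    · exact t.yx h
    · exact t.ya h) s3 s4
  rw [s1, s5, h1.2.1, h1.2.2] at hR
  exact hR

/-- STU, if the first diagram exists. -/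
theorem cls_stu_good {x a b : ℕ} (hg : Good H (x :: ls) ((x, a, b) :: vs)) :
    cls H (x :: ls) ((x, a, b) :: vs) = cls H (b :: a :: ls) vs - cls H (a :: b :: ls) vs := by
  obtain ⟨D, lam, cs, ws, R⟩ := hg
  obtain ⟨c, cs, rfl, -, -⟩ := List.map_eq_cons_iff.1 R.hl
  obtain ⟨w, ws, rfl, -, -⟩ := List.map_eq_cons_iff.1 R.hv
  obtain ⟨-, k, -⟩ := R.edgeS
  rw [R.cls, (R.stuT k).cls, (R.stuU k).cls]
  exact JD.rel_mv k

theorem good_T {x a b : ℕ} (hg : Good H (x :: ls) ((x, a, b) :: vs)) :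
    Good H (b :: a :: ls) vs := by
  obtain ⟨D, lam, cs, ws, R⟩ := hg
  obtain ⟨c, cs, rfl, -, -⟩ := List.map_eq_cons_iff.1 R.hl
  obtain ⟨w, ws, rfl, -, -⟩ := List.map_eq_cons_iff.1 R.hv
  obtain ⟨-, k, -⟩ := R.edgeS
  exact (R.stuT k).good

theorem good_U {x a b : ℕ} (hg : Good H (x :: ls) ((x, a, b) :: vs)) :
    Good H (a :: b :: ls) vs := by
  obtain ⟨D, lam, cs, ws, R⟩ := hg
  obtain ⟨c, cs, rfl, -, -⟩ := List.map_eq_cons_iff.1 R.hl
  obtain ⟨w, ws, rfl, -, -⟩ := List.map_eq_cons_iff.1 R.hv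
  obtain ⟨-, k, -⟩ := R.edgeS
  exact (R.stuU k).good

end

end Pool.Agent.SWT85
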