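import Mathlib
import Pool.Agent.SWT85.Rel

/-!
# Two neighbouring legs are joined at a vertex
-/

set_option autoImplicit false

namespace Pool.Agent.SWT85

open Pool.Agent.Jac70

variable {H : Type} [DecidableEq H]

/-- There is a second vertex on the circle. -/
structure Mk (D : JD H) (c : H) : Prop where
  mem : c ∈ D.K
  ne : D.e (D.r c) ≠ c

section

variable {D : JD H} {c : H}

theorem Mk.y (m : Mk D c) : D.e (D.r c) ∈ D.K := D.out c m.mem

theorem Mk.nvt (m : Mk D c) : ¬ D.vt c (D.e (D.r c)) := by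
  rintro (h | h | h)
  · exact m.ne h
  · exact D.e1 _ h
  · exact (D.leg c m.mem).1 (h ▸ m.y)

theorem Mk.dst (m : Mk D c) : Dst (D.r c) (D.r (D.r (D.e (D.r c)))) (D.r (D.r c))
    (D.e (D.r c)) c (D.r (D.e (D.r c))) := by
  have h0 := m.nvt
  have h1 : ¬ D.vt c (D.r (D.e (D.r c))) := fun h => h0 (D.vt_r.1 h)
  have h2 : ¬ D.vt c (D.r (D.r (D.e (D.r c)))) := fun h => h1 (D.vt_r.1 h)
  exact {
    xa := fun h => h2 (Or.inr (Or.inl h.symm))
    xb := (D.r1 _).symm
    ab := fun h => h2 (Or.inr (Or.inr h))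
    yx := fun h => h0 (Or.inr (Or.inl h))
    ya := (D.r2 _).symm
    yb := fun h => h0 (Or.inr (Or.inr h))
    yc := m.ne
    yd := (D.r1 _).symm
    cd := fun h => h1 (Or.inl h.symm)
    cx := (D.r1 _).symm
    ca := fun h => h2 (Or.inl h.symm)
    cb := (D.r2 _).symm
    dx := fun h => h1 (Or.inr (Or.inl h))
    da := (D.r1 _).symm
    db := fun h => h1 (Or.inr (Or.inr h)) }

/-- The new cyclic orders. -/
def gf (D : JD H) (c h : H) : H :=
  if h = D.r c then D.r (D.r (D.e (D.r c))) else if h = D.r (D.r (D.e (D.r c))) then D.r (D.r c) else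
  if h = D.r (D.r c) then D.r c else if h = D.e (D.r c) then c else
  if h = c then D.r (D.e (D.r c)) else if h = D.r (D.e (D.r c)) then D.e (D.r c) else D.r h

theorem gf_x (D : JD H) (c : H) : gf D c (D.r c) = D.r (D.r (D.e (D.r c))) := if_pos rfl

theorem gf_a (m : Mk D c) : gf D c (D.r (D.r (D.e (D.r c)))) = D.r (D.r c) := by
  have t := m.dst
  unfold gf
  rw [if_neg t.xa.symm, if_pos rfl]

theorem gf_b (m : Mk D c) : gf D c (D.r (D.r c)) = D.r c := by
  have t := m.dst
  unfold gf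
  rw [if_neg t.xb.symm, if_neg t.ab.symm, if_pos rfl]

theorem gf_y (m : Mk D c) : gf D c (D.e (D.r c)) = c := by
  have t := m.dst
  unfold gf
  rw [if_neg t.yx, if_neg t.ya, if_neg t.yb, if_pos rfl]

theorem gf_c (m : Mk D c) : gf D c c = D.r (D.e (D.r c)) := by
  have t := m.dst
  unfold gf
  rw [if_neg t.cx, if_neg t.ca, if_neg t.cb, if_neg t.yc.symm, if_pos rfl]

theorem gf_d (m : Mk D c) : gf D c (D.r (D.e (D.r c))) = D.e (D.r c) := by
  have t := m.dst
  unfold gf
  rw [if_neg t.dx, if_neg t.da, if_neg t.db, if_neg t.yd.symm, if_neg t.cd.symm, if_pos rfl]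

theorem gf_o {h : H} (hh : ¬ (D.vt c h ∨ D.vt (D.e (D.r c)) h)) : gf D c h = D.r h := by
  unfold gf
  rw [if_neg fun h' => hh (Or.inl (Or.inr (Or.inl h'))),
    if_neg fun h' => hh (Or.inr (Or.inr (Or.inr h'))),
    if_neg fun h' => hh (Or.inl (Or.inr (Or.inr h'))),
    if_neg fun h' => hh (Or.inr (Or.inl h')), if_neg fun h' => hh (Or.inl (Or.inl h')),
    if_neg fun h' => hh (Or.inr (Or.inr (Or.inl h')))]

theorem gf3 (m : Mk D c) (h : H) : gf D c (gf D c (gf D c h)) = h := by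
  by_cases h6 : D.vt c h ∨ D.vt (D.e (D.r c)) h
  · rcases h6 with (rfl | rfl | rfl) | (rfl | rfl | rfl)
    · rw [gf_c m, gf_d m, gf_y m]
    · rw [gf_x, gf_a m, gf_b m]
    · rw [gf_b m, gf_x, gf_a m]
    · rw [gf_y m, gf_c m, gf_d m]
    · rw [gf_d m, gf_y m, gf_c m]
    · rw [gf_a m, gf_b m, gf_x]
  · have h1 : ¬ (D.vt c (D.r h) ∨ D.vt (D.e (D.r c)) (D.r h)) := by
      rw [D.vt_r, D.vt_r]; exact h6
    have h2 : ¬ (D.vt c (D.r (D.r h)) ∨ D.vt (D.e (D.r c)) (D.r (D.r h))) :=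
      fun h' => h1 (h'.imp D.vt_r.1 D.vt_r.1)
    rw [gf_o h6, gf_o h1, gf_o h2, D.r3]

theorem gf1 (m : Mk D c) (h : H) : gf D c h ≠ h := by
  have t := m.dst
  by_cases h6 : D.vt c h ∨ D.vt (D.e (D.r c)) h
  · rcases h6 with (rfl | rfl | rfl) | (rfl | rfl | rfl)
    · rw [gf_c m]; exact t.cd.symm
    · rw [gf_x]; exact t.xa.symm
    · rw [gf_b m]; exact t.xb
    · rw [gf_y m]; exact t.yc.symm
    · rw [gf_d m]; exact t.yd
    · rw [gf_a m]; exact t.ab.symm
  · rw [gf_o h6]
    exact D.r1 h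

theorem six_K (m : Mk D c) {u : H} (hu : u ∈ D.K) (h1 : u ≠ c) (h2 : u ≠ D.e (D.r c)) :
    ¬ (D.vt c u ∨ D.vt (D.e (D.r c)) u) := by
  rintro ((h | h | h) | (h | h | h))
  · exact h1 h
  · exact D.out_notMem m.mem (h ▸ hu)
  · exact (D.leg c m.mem).1 (h ▸ hu)
  · exact h2 h
  · exact D.out_notMem m.y (h ▸ hu)
  · exact (D.leg _ m.y).1 (h ▸ hu)

/-- The two legs at `c` and the next vertex are joined. -/
def mg (D : JD H) (c : H) (m : Mk D c) : JD H where
  e := D.e
  r := JD.perm3 (gf D c) (gf3 m)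
  K := D.K.erase (D.e (D.r c))
  e2 := D.e2
  e1 := D.e1
  r3 := gf3 m
  r1 := gf1 m
  out h hh := by
    show D.e (gf D c h) ∈ D.K.erase (D.e (D.r c))
    obtain ⟨h1, h2⟩ := Finset.mem_erase.1 hh
    by_cases hc : h = c
    · subst hc
      rw [gf_c m]
      refine Finset.mem_erase.2 ⟨fun h3 => ?_, D.out _ m.y⟩
      exact m.dst.yc (D.r_inj (D.e_inj h3))
    · rw [gf_o (six_K m h2 hc h1)]
      refine Finset.mem_erase.2 ⟨fun h3 => ?_, D.out _ h2⟩
      exact hc (D.r_inj (D.e_inj h3))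
  ke h hh h' := D.ke h (Finset.mem_of_mem_erase hh) (Finset.mem_of_mem_erase h')
  leg h hh := by
    show gf D c (gf D c h) ∉ _ ∧ D.e (gf D c (gf D c h)) ∉ _
    obtain ⟨h1, h2⟩ := Finset.mem_erase.1 hh
    by_cases hc : h = c
    · subst hc
      rw [gf_c m, gf_d m, D.e2]
      exact ⟨Finset.notMem_erase _ _, fun h3 =>
        D.out_notMem m.mem (Finset.mem_of_mem_erase h3)⟩
    · have h3 := six_K m h2 hc h1
      rw [gf_o h3, gf_o (by rw [D.vt_r, D.vt_r]; exact h3)]
      exact ⟨fun h4 => (D.leg h h2).1 (Finset.mem_of_mem_erase h4),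
        fun h4 => (D.leg h h2).2 (Finset.mem_of_mem_erase h4)⟩
  cyc S h1 h2 := by
    have h2' : ∀ h ∈ D.K.erase (D.e (D.r c)), h ∈ S → D.e (gf D c h) ∈ S := h2
    have hcK : c ∈ D.K.erase (D.e (D.r c)) := Finset.mem_erase.2 ⟨m.dst.yc.symm, m.mem⟩
    have key := D.cyc {h | (h ≠ D.e (D.r c) ∧ h ∈ S) ∨ (h = D.e (D.r c) ∧ c ∈ S)} (by
      obtain ⟨h, hh, hs⟩ := h1
      obtain ⟨h3, h4⟩ := Finset.mem_erase.1 hh
      exact ⟨h, h4, Or.inl ⟨h3, hs⟩⟩) (by
      intro h hh hs
      rcases hs with ⟨h3, h4⟩ | ⟨rfl, h4⟩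
      · by_cases hc : h = c
        · subst hc
          exact Or.inr ⟨rfl, h4⟩
        · left
          refine ⟨fun h5 => hc (D.r_inj (D.e_inj h5)), ?_⟩
          have h5 := h2' h (Finset.mem_erase.2 ⟨h3, hh⟩) h4
          rwa [gf_o (six_K m hh hc h3)] at h5
      · left
        refine ⟨fun h5 => m.dst.yc (D.r_inj (D.e_inj h5)), ?_⟩
        have h5 := h2' c hcK h4
        rwa [gf_c m] at h5)
    intro h hh
    obtain ⟨h3, h4⟩ := Finset.mem_erase.1 hh
    rcases key h h4 with h5 | h5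
    · exact h5.2
    · exact absurd h5.1 h3
  conn S h1 h2 h3 := by
    have h3' : ∀ h ∈ S, gf D c h ∈ S := h3
    have k1 : ∀ z, z ∈ S → gf D c (gf D c z) ∈ S := fun z hz => h3' _ (h3' _ hz)
    have hxy : D.r c ∈ S → D.e (D.r c) ∈ S := h2 _
    have hyx : D.e (D.r c) ∈ S → D.r c ∈ S := fun h => by
      have := h2 _ h
      rwa [D.e2] at this
    have hx1 : D.r c ∈ S → D.r (D.r (D.e (D.r c))) ∈ S ∧ D.r (D.r c) ∈ S := fun h => by
      have g1 := h3' _ h
      rw [gf_x] at g1
      have g2 := h3' _ g1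
      rw [gf_a m] at g2
      exact ⟨g1, g2⟩
    have hy1 : D.e (D.r c) ∈ S → c ∈ S ∧ D.r (D.e (D.r c)) ∈ S := fun h => by
      have g1 := h3' _ h
      rw [gf_y m] at g1
      have g2 := h3' _ g1
      rw [gf_c m] at g2
      exact ⟨g1, g2⟩
    have all : ∀ z, (D.vt c z ∨ D.vt (D.e (D.r c)) z) → z ∈ S → D.r c ∈ S := by
      rintro z ((rfl | rfl | rfl) | (rfl | rfl | rfl)) hz
      · have g1 := k1 _ hz
        rw [gf_c m, gf_d m] at g1
        exact hyx g1
      · exact hz
      · have g1 := h3' _ hz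
        rwa [gf_b m] at g1
      · exact hyx hz
      · have g1 := h3' _ hz
        rw [gf_d m] at g1
        exact hyx g1
      · have g1 := k1 _ hz
        rwa [gf_a m, gf_b m] at g1
    refine D.conn S h1 h2 fun h hs => ?_
    by_cases h6 : D.vt c h ∨ D.vt (D.e (D.r c)) h
    · have g1 := all h h6 hs
      have g2 := hx1 g1
      have g3 := hy1 (hxy g1)
      rcases h6 with (rfl | rfl | rfl) | (rfl | rfl | rfl)
      · exact g1
      · exact g2.2
      · rw [D.r3]; exact g3.1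
      · exact g3.2
      · exact g2.1
      · rw [D.r3]; exact hxy g1
    · have g1 := h3' h hs
      rwa [gf_o h6] at g1
  ne _ := ⟨c, Finset.mem_erase.2 ⟨m.dst.yc.symm, m.mem⟩⟩

variable {lam : H → ℕ} {cs ws : List H} {ls : List ℕ} {vs : List Tri}

theorem Rz.merge {c₂ : H} {x a b : ℕ} (R : Rz D lam (c :: c₂ :: cs) ws (b :: a :: ls) vs)
    (hx : x ∉ lbs (b :: a :: ls) vs) :
    Good H (x :: ls) ((x, a, b) :: vs) := by
  have hnd := R.nd
  rw [List.pairwise_append, List.pairwise_cons, List.pairwise_cons] at hnd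
  obtain ⟨⟨n1, n2, n3⟩, n4, n5⟩ := hnd
  have hcy := R.cy
  rw [List.map_cons, List.map_cons, List.rotate_cons_succ, List.rotate_zero, List.cons_append,
    List.cons.injEq] at hcy
  obtain ⟨he, hcy⟩ := hcy
  have hl := R.hl
  rw [List.map_cons, List.map_cons, List.cons.injEq, List.cons.injEq] at hl
  obtain ⟨hb, ha, hl⟩ := hl
  have hcK : c ∈ D.K := (R.hK c).2 (by simp)
  have hc2K : c₂ ∈ D.K := (R.hK c₂).2 (by simp)
  have hvc : ¬ D.vt c c₂ := n1 c₂ (by simp)
  have m : Mk D c := ⟨hcK, by rw [he]; exact fun h => hvc (Or.inl h)⟩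
  have t := m.dst
  have sx : (mg D c m).r (D.r c) = D.r (D.r c₂) := by rw [← he]; exact gf_x D c
  have sa : (mg D c m).r (D.r (D.r c₂)) = D.r (D.r c) := by rw [← he]; exact gf_a m
  have sb : (mg D c m).r (D.r (D.r c)) = D.r c := gf_b m
  have sy : (mg D c m).r c₂ = c := by
    have := gf_y m
    rwa [he] at this
  have sc : (mg D c m).r c = D.r c₂ := by
    have := gf_c m
    rwa [he] at this
  have sd : (mg D c m).r (D.r c₂) = c₂ := by
    have := gf_d m
    rwa [he] at this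
  rw [he] at t
  have so : ∀ h, ¬ (D.vt c h ∨ D.vt c₂ h) → (mg D c m).r h = D.r h := by
    intro h hh
    apply gf_o
    rw [he]
    exact hh
  have six_r : ∀ h, ¬ (D.vt c h ∨ D.vt c₂ h) → ¬ (D.vt c (D.r h) ∨ D.vt c₂ (D.r h)) := by
    intro h h1
    rw [D.vt_r, D.vt_r]
    exact h1
  have hs : ∀ h, ((mg D c m).vt c h ∨ (mg D c m).vt (D.r c) h) ↔ (D.vt c h ∨ D.vt c₂ h) := by
    intro h
    unfold JD.vt
    rw [sc, sd, sx, sa]
    tauto
  have vt' : ∀ v, ¬ (D.vt c v ∨ D.vt c₂ v) → ∀ h, ((mg D c m).vt v h ↔ D.vt v h) := by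
    intro v hv h
    unfold JD.vt
    rw [so v hv, so _ (six_r v hv)]
  have hc6 : ∀ u ∈ cs, ¬ (D.vt c u ∨ D.vt c₂ u) := by
    intro u hu h
    rcases h with h | h
    · exact n1 u (List.mem_cons_of_mem _ hu) h
    · exact n2 u hu h
  have hw6 : ∀ u ∈ ws, ¬ (D.vt c u ∨ D.vt c₂ u) := by
    intro u hu h
    rcases h with h | h
    · exact n5 c (by simp) u hu h
    · exact n5 c₂ (by simp) u hu h
  have hKe : (mg D c m).K = D.K.erase c₂ := by rw [← he]; rfl
  have hexr : D.e c₂ = D.r c := by rw [← he, D.e2]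
  have hC : ∀ h, ¬ (mg D c m).onC h ↔ ¬ D.onC h ∨ h = c₂ ∨ h = D.r c := by
    intro h
    have h1 : (mg D c m).onC h ↔ h ∈ D.K.erase c₂ ∨ D.e h ∈ D.K.erase c₂ := by
      unfold JD.onC
      rw [hKe]
      rfl
    rw [h1]
    unfold JD.onC
    rw [Finset.mem_erase, Finset.mem_erase]
    constructor
    · intro h2
      by_cases h3 : h = c₂
      · exact Or.inr (Or.inl h3)
      by_cases h4 : h = D.r c
      · exact Or.inr (Or.inr h4)
      left
      have h5 : D.e h ≠ c₂ := by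
        intro h6
        apply h4
        rw [← hexr, ← h6, D.e2]
      tauto
    · rintro (h2 | rfl | rfl)
      · tauto
      · rintro (h3 | h3)
        · exact h3.1 rfl
        · exact D.ke _ hc2K h3.2
      · rintro (h3 | h3)
        · exact D.out_notMem hcK h3.2
        · exact h3.1 he
  classical
  refine ⟨mg D c m, fun h => if h = c₂ ∨ h = D.r c then x else lam h, c :: cs, D.r c :: ws,
    ⟨?_, ?_, ?_, ?_, ?_, ?_, ?_⟩⟩
  · rw [List.map_cons, sc, sd, if_pos (Or.inl rfl)]
    congr 1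
    rw [← hl]
    refine List.map_congr_left fun u hu => ?_
    rw [so u (hc6 u hu), so _ (six_r _ (hc6 u hu)), if_neg]
    intro h
    have h1 : D.vt c (D.r (D.r u)) ∨ D.vt c₂ (D.r (D.r u)) := by
      rcases h with h | h
      · exact Or.inr (Or.inl h)
      · exact Or.inl (Or.inr (Or.inl h))
    exact six_r _ (six_r _ (hc6 u hu)) h1
  · rw [List.map_cons]
    congr 1
    · unfold tr
      dsimp only
      rw [sx, sa, if_pos (Or.inr rfl), if_neg, if_neg, ha, hb]
      · rintro (h | h)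
        · exact t.yb h.symm
        · exact t.xb h.symm
      · rintro (h | h)
        · exact t.ya h.symm
        · exact t.xa h.symm
    · rw [← R.hv]
      refine List.map_congr_left fun u hu => ?_
      have hu6 := hw6 u hu
      have key : ∀ z, ¬ (D.vt c z ∨ D.vt c₂ z) → ¬ (z = c₂ ∨ z = D.r c) := by
        rintro z hz (rfl | rfl)
        · exact hz (Or.inr (Or.inl rfl))
        · exact hz (Or.inl (Or.inr (Or.inl rfl)))
      unfold tr
      dsimp only
      rw [so u hu6, so _ (six_r _ hu6), if_neg (key _ hu6), if_neg (key _ (six_r _ hu6)),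
        if_neg (key _ (six_r _ (six_r _ hu6)))]
  · intro h
    rw [hKe, Finset.mem_erase, R.hK, List.mem_cons, List.mem_cons, List.mem_cons]
    constructor
    · rintro ⟨h1, h2 | h2 | h2⟩
      · exact Or.inl h2
      · exact absurd h2 h1
      · exact Or.inr h2
    · rintro (rfl | h2)
      · exact ⟨t.yc.symm, Or.inl rfl⟩
      · exact ⟨fun h3 => n2 h h2 (Or.inl h3), Or.inr (Or.inr h2)⟩
  · rw [List.map_cons, List.rotate_cons_succ, List.rotate_zero, ← hcy, sc]
    congr 1
    refine List.map_congr_left fun u hu => ?_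
    rw [so u (hc6 u hu)]
    rfl
  · intro h
    by_cases h6 : D.vt c h ∨ D.vt c₂ h
    · rcases (hs h).2 h6 with h3 | h3
      · exact ⟨c, by simp, h3⟩
      · exact ⟨D.r c, by simp, h3⟩
    · obtain ⟨v, hv, hx⟩ := R.cov h
      have hv6 : ¬ (D.vt c v ∨ D.vt c₂ v) := by
        rintro (h3 | h3)
        · exact h6 (Or.inl (vt_trans h3 hx))
        · exact h6 (Or.inr (vt_trans h3 hx))
      refine ⟨v, ?_, (vt' v hv6 h).2 hx⟩
      have hvw : v ≠ c₂ := fun h' => hv6 (Or.inr (h' ▸ Or.inl rfl))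
      simp only [List.cons_append, List.mem_cons, List.mem_append] at hv ⊢
      tauto
  · have hsc : ∀ u, ¬ (D.vt c u ∨ D.vt c₂ u) →
        ¬ (mg D c m).vt c u ∧ ¬ (mg D c m).vt (D.r c) u := fun u hu =>
      ⟨fun h => hu ((hs u).1 (Or.inl h)), fun h => hu ((hs u).1 (Or.inr h))⟩
    rw [List.pairwise_append, List.pairwise_cons, List.pairwise_cons]
    refine ⟨⟨?_, ?_⟩, ⟨?_, ?_⟩, ?_⟩
    · intro u hu
      exact (hsc u (hc6 u hu)).1
    · refine List.Pairwise.imp_of_mem ?_ n3
      intro a b ha _ h h'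
      exact h ((vt' a (hc6 a ha) b).1 h')
    · intro u hu
      exact (hsc u (hw6 u hu)).2
    · refine List.Pairwise.imp_of_mem ?_ n4
      intro a b ha _ h h'
      exact h ((vt' a (hw6 a ha) b).1 h')
    · intro u hu v hv h'
      rcases List.mem_cons.1 hu with rfl | hu
      · rcases List.mem_cons.1 hv with rfl | hv
        · unfold JD.vt at h'
          rw [sc, sd] at h'
          rcases h' with h' | h' | h'
          · exact t.cx h'.symm
          · exact t.dx h'.symm
          · exact t.yx h'.symm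
        · exact (hsc v (hw6 v hv)).1 h'
      · rcases List.mem_cons.1 hv with rfl | hv
        · have h1 := (vt' u (hc6 u hu) _).1 h'
          exact hc6 u hu (Or.inl (vt_symm (D.vt_r.1 h1)))
        · exact n5 u (by simp [hu]) v hv ((vt' u (hc6 u hu) v).1 h')
  · intro h h' h1 h2
    have h1 := (hC h).1 h1
    have h2 := (hC h').1 h2
    have nC : ∀ z, ¬ D.onC z → ¬ (z = c₂ ∨ z = D.r c) := by
      rintro z hz (rfl | rfl)
      · exact hz (Or.inl hc2K)
      · exact hz (Or.inr (by rw [he]; exact hc2K))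
    have hCe : ∀ z, ¬ D.onC z → ¬ D.onC (D.e z) := by
      intro z hz h3
      rcases h3 with h3 | h3
      · exact hz (Or.inr h3)
      · rw [D.e2] at h3
        exact hz (Or.inl h3)
    show _ ↔ h' = h ∨ h' = D.e h
    rcases h1 with h1 | h1
    · rw [if_neg (nC h h1)]
      rcases h2 with h2 | h2
      · rw [if_neg (nC h' h2)]
        exact R.lb h h' h1 h2
      · rw [if_pos h2]
        constructor
        · intro h3
          exact absurd (h3 ▸ R.mem_lbs h1) hx
        · rintro (h3 | h3)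
          · exact absurd h2 (nC h' (h3 ▸ h1))
          · exact absurd h2 (nC h' (h3 ▸ hCe h h1))
    · rw [if_pos h1]
      rcases h2 with h2 | h2
      · rw [if_neg (nC h' h2)]
        constructor
        · intro h3
          exact absurd (h3 ▸ R.mem_lbs h2) hx
        · rintro (h3 | h3)
          · exact absurd h1 (nC h (h3 ▸ h2))
          · have h4 : h = D.e h' := by rw [h3, D.e2]
            exact absurd h1 (nC h (h4 ▸ hCe h' h2))
      · rw [if_pos h2]
        refine ⟨fun _ => ?_, fun _ => rfl⟩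
        rcases h1 with rfl | rfl
        · rcases h2 with rfl | rfl
          · exact Or.inl rfl
          · exact Or.inr hexr.symm
        · rcases h2 with rfl | rfl
          · exact Or.inr he.symm
          · exact Or.inl rfl

theorem good_merge {x a b : ℕ} (hg : Good H (b :: a :: ls) vs)
    (hx : x ∉ lbs (b :: a :: ls) vs) : Good H (x :: ls) ((x, a, b) :: vs) := by
  obtain ⟨D, lam, cs, ws, R⟩ := hg
  obtain ⟨c, cs, rfl, -, h1⟩ := List.map_eq_cons_iff.1 R.hl
  obtain ⟨c₂, cs, rfl, -, -⟩ := List.map_eq_cons_iff.1 h1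
  exact R.merge hx

/-- STU. -/
theorem cls_stu {x a b : ℕ} (hx : x ∉ lbs (b :: a :: ls) vs) :
    cls H (x :: ls) ((x, a, b) :: vs) = cls H (b :: a :: ls) vs - cls H (a :: b :: ls) vs := by
  by_cases hg : Good H (x :: ls) ((x, a, b) :: vs)
  · exact cls_stu_good hg
  · have hx' : x ∉ lbs (a :: b :: ls) vs := by
      intro h
      apply hx
      unfold lbs at h ⊢
      simp only [List.cons_append, List.mem_cons] at h ⊢
      tauto
    rw [cls_bad hg, cls_bad fun h => hg (good_merge h hx),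
      cls_bad fun h => hg (good_rev.2 (good_merge h hx')), sub_zero]

end

end Pool.Agent.SWT85
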