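import Mathlib
import Pool.Agent.SWT85.Merge

/-!
# Local identities between codes, with arbitrary tails
-/

set_option autoImplicit false

namespace Pool.Agent.SWT85

open Pool.Agent.Jac70

variable {H : Type} [DecidableEq H] {ls : List ℕ} {vs : List Tri}

/-! ### Moves at the first places -/

theorem sw12 (p q : Tri) : cls H ls (p :: q :: vs) = cls H ls (q :: p :: vs) :=
  cls_perm (List.Perm.swap _ _ _)

theorem sw23 (p q r : Tri) : cls H ls (p :: q :: r :: vs) = cls H ls (p :: r :: q :: vs) :=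
  cls_perm (List.Perm.cons _ (List.Perm.swap _ _ _))

theorem sw34 (p q r s : Tri) :
    cls H ls (p :: q :: r :: s :: vs) = cls H ls (p :: q :: s :: r :: vs) :=
  cls_perm (List.Perm.cons _ (List.Perm.cons _ (List.Perm.swap _ _ _)))

theorem rot1 (x a b : ℕ) : cls H ls ((x, a, b) :: vs) = cls H ls ((a, b, x) :: vs) := cls_rot

theorem rev1 (x a b : ℕ) : cls H ls ((x, a, b) :: vs) = - cls H ls ((x, b, a) :: vs) := by
  rw [← cls_rev]

theorem rot2 (p : Tri) (x a b : ℕ) :
    cls H ls (p :: (x, a, b) :: vs) = cls H ls (p :: (a, b, x) :: vs) := by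
  rw [sw12, rot1, sw12]

theorem rev2 (p : Tri) (x a b : ℕ) :
    cls H ls (p :: (x, a, b) :: vs) = - cls H ls (p :: (x, b, a) :: vs) := by
  rw [sw12, rev1, sw12]

theorem rot3 (p q : Tri) (x a b : ℕ) :
    cls H ls (p :: q :: (x, a, b) :: vs) = cls H ls (p :: q :: (a, b, x) :: vs) := by
  rw [sw23, rot2, sw23]

theorem rev3 (p q : Tri) (x a b : ℕ) :
    cls H ls (p :: q :: (x, a, b) :: vs) = - cls H ls (p :: q :: (x, b, a) :: vs) := by
  rw [sw23, rev2, sw23]

theorem rot4 (p q r : Tri) (x a b : ℕ) :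
    cls H ls (p :: q :: r :: (x, a, b) :: vs) = cls H ls (p :: q :: r :: (a, b, x) :: vs) := by
  rw [sw34, rot3, sw34]

theorem rev4 (p q r : Tri) (x a b : ℕ) :
    cls H ls (p :: q :: r :: (x, a, b) :: vs) = - cls H ls (p :: q :: r :: (x, b, a) :: vs) := by
  rw [sw34, rev3, sw34]

/-! ### An edge which ends at the three places around a vertex -/

/-- The three ends of an edge `r` around a vertex `(x, y, z)`. -/
theorem slide (r x y z m : ℕ) :
    cls H ls ((r, x, m) :: (m, y, z) :: vs) + cls H ls ((r, y, m) :: (x, m, z) :: vs) +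
      cls H ls ((r, z, m) :: (x, y, m) :: vs) = 0 := by
  have h := cls_ihx (H := H) (ls := ls) (vs := vs) m r x y z
  have h1 : cls H ls ((r, x, m) :: (m, y, z) :: vs) = cls H ls ((m, r, x) :: (m, y, z) :: vs) := by
    rw [rot1 m r x]
  have h2 : cls H ls ((r, y, m) :: (x, m, z) :: vs) = cls H ls ((m, r, y) :: (m, z, x) :: vs) := by
    rw [rot1 m r y, rot2 _ x m z]
  have h3 : cls H ls ((r, z, m) :: (x, y, m) :: vs) = - cls H ls ((m, x, y) :: (m, z, r) :: vs) := by
    rw [sw12, rev2 _ r z m, rot2 _ r m z, ← rot1 m x y]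
  rw [h1, h2, h3, h]
  abel

theorem swz (p q : Tri) (vs : List Tri) : cls H ls (p :: q :: vs) = cls H ls (q :: p :: vs) :=
  sw12 p q

/-- The strand and two rails: `[a₁, a₂ + b] = 0`. -/
theorem loc_aab {f g h x x' y y' : ℕ}
    (hh : h ∉ lbs (f :: g :: ls) ((f, x, x') :: (g, y, y') :: vs)) :
    cls H (f :: g :: ls) ((f, x, x') :: (g, y, y') :: vs) -
      cls H (g :: f :: ls) ((f, x, x') :: (g, y, y') :: vs) +
      cls H (h :: ls) ((h, x, f) :: (g, f, x') :: (g, y, y') :: vs) -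
      cls H (h :: ls) ((g, x, f) :: (h, f, x') :: (g, y, y') :: vs) = 0 := by
  have h1 := cls_stu (H := H) hh
  have h2 : cls H (h :: ls) ((h, g, f) :: (f, x, x') :: (g, y, y') :: vs) +
      cls H (h :: ls) ((h, x, f) :: (g, f, x') :: (g, y, y') :: vs) -
      cls H (h :: ls) ((g, x, f) :: (h, f, x') :: (g, y, y') :: vs) = 0 := by
    have h3 := slide (H := H) (ls := h :: ls) (vs := (g, y, y') :: vs) h g x x' f
    have e3 : cls H (h :: ls) ((h, x', f) :: (g, x, f) :: (g, y, y') :: vs) =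
        - cls H (h :: ls) ((g, x, f) :: (h, f, x') :: (g, y, y') :: vs) := by
      rw [rev1 h x' f, sw12]
    rw [e3, ← sub_eq_add_neg] at h3
    exact h3
  rw [← h1, h2]

/-- The end of an edge `s` is moved over a rung. -/
theorem loc_sb (s r m x x' y y' : ℕ) :
    cls H ls ((r, x, m) :: (s, m, x') :: (r, y, y') :: vs) -
      cls H ls ((s, x, m) :: (r, m, x') :: (r, y, y') :: vs) +
      cls H ls ((m, x, x') :: (m, y, r) :: (s, r, y') :: vs) -
      cls H ls ((m, x, x') :: (s, y, r) :: (m, r, y') :: vs) = 0 := by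
  have h1 := slide (H := H) (ls := ls) (vs := (r, y, y') :: vs) s r x x' m
  have h2 := slide (H := H) (ls := ls) (vs := (m, x, x') :: vs) s m y y' r
  have a1 : cls H ls ((s, x', m) :: (r, x, m) :: (r, y, y') :: vs) =
      - cls H ls ((r, x, m) :: (s, m, x') :: (r, y, y') :: vs) := by
    rw [rev1 s x' m, sw12]
  have a2 : cls H ls ((s, y', r) :: (m, y, r) :: (m, x, x') :: vs) =
      - cls H ls ((m, x, x') :: (m, y, r) :: (s, r, y') :: vs) := by
    rw [rev1 s y' r, sw12, sw23, sw12]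
  have a3 : cls H ls ((s, y, r) :: (m, r, y') :: (m, x, x') :: vs) =
      cls H ls ((m, x, x') :: (s, y, r) :: (m, r, y') :: vs) := by
    rw [sw23, sw12]
  have a4 : cls H ls ((s, m, r) :: (r, y, y') :: (m, x, x') :: vs) =
      - cls H ls ((s, r, m) :: (m, x, x') :: (r, y, y') :: vs) := by
    rw [rev1 s m r, sw23]
  rw [a1] at h1
  rw [a2, a3, a4] at h2
  have h3 : ∀ p q r' u w : A H, u + p + -q = 0 → -u + r' + -w = 0 →
      q - p + w - r' = 0 := by
    intro p q r' u w e1 e2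
    have e3 := congrArg₂ (· + ·) e1 e2
    simp only [add_zero] at e3
    rw [← neg_eq_zero, ← e3]
    abel
  exact h3 _ _ _ _ _ h1 h2

/-- The end of an edge `s` is moved over a splitting. -/
theorem loc_sY (s m x p q : ℕ) :
    cls H ls ((x, m, q) :: (s, m, p) :: vs) + cls H ls ((x, p, m) :: (s, m, q) :: vs) =
      cls H ls ((s, x, m) :: (m, p, q) :: vs) := by
  have h1 := slide (H := H) (ls := ls) (vs := vs) s x p q m
  have a1 : cls H ls ((s, p, m) :: (x, m, q) :: vs) =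
      - cls H ls ((x, m, q) :: (s, m, p) :: vs) := by rw [rev1 s p m, sw12]
  have a2 : cls H ls ((s, q, m) :: (x, p, m) :: vs) =
      - cls H ls ((x, p, m) :: (s, m, q) :: vs) := by rw [rev1 s q m, sw12]
  rw [a1, a2] at h1
  rw [← sub_eq_zero, ← neg_eq_zero, ← h1]
  abel

/-- The end of an edge `s` is moved over a merging. -/
theorem loc_sM (s m x y z : ℕ) :
    cls H ls ((s, x, m) :: (z, m, y) :: vs) + cls H ls ((s, y, m) :: (z, x, m) :: vs) =
      cls H ls ((m, x, y) :: (s, m, z) :: vs) := by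
  have h1 := slide (H := H) (ls := ls) (vs := vs) s z x y m
  have a1 : cls H ls ((s, z, m) :: (m, x, y) :: vs) =
      - cls H ls ((m, x, y) :: (s, m, z) :: vs) := by rw [rev1 s z m, sw12]
  rw [a1] at h1
  rw [← sub_eq_zero, ← h1]
  abel

/-- Merging and splitting: `Y M = b (1 - P)`. -/
theorem loc_YM (m x y x' y' : ℕ) :
    cls H ls ((m, x, y) :: (m, x', y') :: vs) =
      cls H ls ((m, x, x') :: (m, y, y') :: vs) - cls H ls ((m, y, x') :: (m, x, y') :: vs) := by
  rw [cls_ihx m x y x' y', rev2 _ m y' x, rev2 _ m y' y]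
  abel

/-- Jacobi. -/
theorem loc_jac (m w x y z : ℕ) :
    cls H ls ((m, x, y) :: (w, m, z) :: vs) + cls H ls ((m, y, z) :: (w, m, x) :: vs) +
      cls H ls ((m, z, x) :: (w, m, y) :: vs) = 0 := by
  have h1 := cls_ihx (H := H) (ls := ls) (vs := vs) m x y z w
  have a1 : ∀ a b c, cls H ls ((m, a, b) :: (w, m, c) :: vs) =
      cls H ls ((m, a, b) :: (m, c, w) :: vs) := fun a b c => rot2 _ w m c
  rw [a1, a1, a1, h1, rev2 _ m w x, rev2 _ m w y, rev1 m x z]
  abel

/-! ### Renaming of inner labels -/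

theorem lbs_cons (ls : List ℕ) (t : Tri) (vs : List Tri) (x : ℕ) :
    x ∈ lbs ls (t :: vs) ↔ (x = t.1 ∨ x = t.2.1 ∨ x = t.2.2) ∨ x ∈ lbs ls vs := by
  unfold lbs
  simp only [List.flatMap_cons, List.mem_append, List.mem_cons, List.not_mem_nil, or_false]
  tauto

theorem lbs_cons_l (l : ℕ) (ls : List ℕ) (vs : List Tri) (x : ℕ) :
    x ∈ lbs (l :: ls) vs ↔ x = l ∨ x ∈ lbs ls vs := by
  unfold lbs
  simp only [List.cons_append, List.mem_cons]

theorem swap_ne {a b x : ℕ} (ha : x ≠ a) (hb : x ≠ b) : Equiv.swap a b x = x :=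
  Equiv.swap_apply_of_ne_of_ne ha hb

theorem map_swap_ls {a b : ℕ} (ha : a ∉ lbs ls vs) (hb : b ∉ lbs ls vs) :
    ls.map (Equiv.swap a b) = ls := by
  refine (List.map_congr_left fun x hx => ?_).trans (List.map_id _)
  refine swap_ne (fun h => ha ?_) (fun h => hb ?_)
  · exact List.mem_append_left _ (h ▸ hx)
  · exact List.mem_append_left _ (h ▸ hx)

theorem map_swap_vs {a b : ℕ} (ha : a ∉ lbs ls vs) (hb : b ∉ lbs ls vs) :
    vs.map (mp (Equiv.swap a b)) = vs := by
  refine (List.map_congr_left fun t ht => ?_).trans (List.map_id _)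
  have h1 : ∀ x ∈ [t.1, t.2.1, t.2.2], Equiv.swap a b x = x := by
    intro x hx
    have h2 : x ∈ lbs ls vs := List.mem_append_right _ (List.mem_flatMap.2 ⟨t, ht, hx⟩)
    exact swap_ne (fun h => ha (h ▸ h2)) (fun h => hb (h ▸ h2))
  unfold mp
  rw [h1 t.1 (by simp), h1 t.2.1 (by simp), h1 t.2.2 (by simp)]
  rfl

/-- Two inner labels are exchanged in the first part. -/
theorem cls_swap {a b : ℕ} (seg : List ℕ) (vseg : List Tri) (ha : a ∉ lbs ls vs)
    (hb : b ∉ lbs ls vs) : cls H (seg.map (Equiv.swap a b) ++ ls)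
      (vseg.map (mp (Equiv.swap a b)) ++ vs) = cls H (seg ++ ls) (vseg ++ vs) := by
  have h := cls_relabel (H := H) (ls := seg ++ ls) (vs := vseg ++ vs) (Equiv.swap a b)
    (fun x _ y _ h => (Equiv.swap a b).injective h)
  rw [List.map_append, List.map_append, map_swap_ls ha hb, map_swap_vs ha hb] at h
  exact h

/-- A triangle is half a bubble, on any of its three sides: `b Y = - t Y`. -/
theorem loc_tri {x p q r y z : ℕ} (hq : q ∉ lbs ls vs) (hr : r ∉ lbs ls vs)
    (hx : x ≠ q ∧ x ≠ r) (hp : p ≠ q ∧ p ≠ r) (hy : y ≠ q ∧ y ≠ r) (hz : z ≠ q ∧ z ≠ r) :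
    (2 : ℤ) • cls H ls ((x, p, q) :: (r, p, y) :: (r, q, z) :: vs) =
      cls H ls ((x, y, p) :: (p, r, q) :: (z, r, q) :: vs) := by
  have h1 := cls_ihx (H := H) (ls := ls) (vs := (r, q, z) :: vs) p q x y r
  have e1 : cls H ls ((x, p, q) :: (r, p, y) :: (r, q, z) :: vs) =
      cls H ls ((p, q, x) :: (p, y, r) :: (r, q, z) :: vs) := by
    rw [rot1 x p q, rot2 _ r p y]
  have e2 : cls H ls ((p, x, y) :: (p, r, q) :: (r, q, z) :: vs) =
      cls H ls ((x, y, p) :: (p, r, q) :: (z, r, q) :: vs) := by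
    rw [rot1 p x y, rot3 _ _ z r q]
  have e3 : cls H ls ((p, q, y) :: (p, r, x) :: (r, q, z) :: vs) =
      cls H ls ((p, q, x) :: (p, y, r) :: (r, q, z) :: vs) := by
    have h2 := cls_swap (H := H) (ls := ls) (vs := vs) (a := q) (b := r) []
      [(p, q, y), (p, r, x), (r, q, z)] hq hr
    simp only [List.map_nil, List.nil_append, List.map_cons, mp, List.cons_append,
      Equiv.swap_apply_left, Equiv.swap_apply_right, swap_ne hx.1 hx.2, swap_ne hp.1 hp.2,
      swap_ne hy.1 hy.2, swap_ne hz.1 hz.2] at h2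
    rw [← h2, sw12, rev2 _ p r y, rev3 _ _ q r z, neg_neg, rot3 _ _ q z r, rot3 _ _ z r q]
  rw [e2, e3, ← e1] at h1
  rw [two_zsmul]
  nth_rewrite 1 [h1]
  abel

/-- The symmetry of the triangle. -/
theorem tri_cyc {x p q r y z : ℕ} (hp : p ∉ lbs ls vs) (hq : q ∉ lbs ls vs) (hr : r ∉ lbs ls vs)
    (hpq : p ≠ q) (hpr : p ≠ r) (hqr : q ≠ r) (hx : x ≠ p ∧ x ≠ q ∧ x ≠ r)
    (hy : y ≠ p ∧ y ≠ q ∧ y ≠ r) (hz : z ≠ p ∧ z ≠ q ∧ z ≠ r) :
    cls H ls ((y, p, q) :: (r, p, z) :: (r, q, x) :: vs) =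
      cls H ls ((x, p, q) :: (r, p, y) :: (r, q, z) :: vs) := by
  have h1 := cls_swap (H := H) (ls := ls) (vs := vs) (a := p) (b := q) []
    [(y, p, q), (r, p, z), (r, q, x)] hp hq
  simp only [List.map_nil, List.nil_append, List.map_cons, mp, List.cons_append,
    Equiv.swap_apply_left, Equiv.swap_apply_right, swap_ne hx.1 hx.2.1, swap_ne hy.1 hy.2.1,
    swap_ne hz.1 hz.2.1, swap_ne hpr.symm hqr.symm] at h1
  have h2 := cls_swap (H := H) (ls := ls) (vs := vs) (a := q) (b := r) []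
    [(y, q, p), (r, q, z), (r, p, x)] hq hr
  simp only [List.map_nil, List.nil_append, List.map_cons, mp, List.cons_append,
    Equiv.swap_apply_left, Equiv.swap_apply_right, swap_ne hx.2.1 hx.2.2, swap_ne hy.2.1 hy.2.2,
    swap_ne hz.2.1 hz.2.2, swap_ne hpq hpr] at h2
  rw [← h1, ← h2, rot1 y r p, rev2 _ q r z, rot2 _ q z r, rot2 _ z r q, rev3 _ _ q p x, neg_neg,
    rot3 _ _ q x p, sw23, sw12, sw23]

/-- The bubble moves over a vertex. In the first diagram it is on the edge of `x`, in the second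
one on the edge of `z`. -/
theorem loc_bub {x p q r y z : ℕ} (hp : p ∉ lbs ls vs) (hq : q ∉ lbs ls vs) (hr : r ∉ lbs ls vs)
    (hpq : p ≠ q) (hpr : p ≠ r) (hqr : q ≠ r) (hx : x ≠ p ∧ x ≠ q ∧ x ≠ r)
    (hy : y ≠ p ∧ y ≠ q ∧ y ≠ r) (hz : z ≠ p ∧ z ≠ q ∧ z ≠ r) :
    cls H ls ((x, r, q) :: (p, r, q) :: (p, y, z) :: vs) =
      cls H ls ((p, r, q) :: (z, r, q) :: (x, y, p) :: vs) := by
  have h1 := loc_tri (H := H) (ls := ls) (vs := vs) (x := x) (p := p) (q := q) (r := r) (y := y)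
    (z := z) hq hr hx.2 ⟨hpq, hpr⟩ hy.2 hz.2
  have h2 := loc_tri (H := H) (ls := ls) (vs := vs) (x := y) (p := p) (q := q) (r := r) (y := z)
    (z := x) hq hr hy.2 ⟨hpq, hpr⟩ hz.2 hx.2
  rw [tri_cyc hp hq hr hpq hpr hqr hx hy hz, h1] at h2
  rw [sw12 (x, y, p) (p, r, q), sw23 _ (x, y, p) (z, r, q)] at h2
  rw [h2, sw12 (y, z, p) (p, r, q), sw23 _ (y, z, p) (x, r, q), sw12 _ (x, r, q),
    ← rot3 _ _ p y z]

/-! ### Legs -/

/-- A segment of the circle is moved to the head. -/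
theorem cls_seg (pre seg post : List ℕ) :
    cls H (pre ++ seg ++ post) vs = cls H (seg ++ (post ++ pre)) vs := by
  rw [List.append_assoc, cls_rot_append, List.append_assoc]

/-- A chord between the first leg and its rail. -/
theorem loc_start {f l h z : ℕ} (hf : f ∉ lbs ls vs) (hl : l ∉ lbs ls vs) (hh : h ∉ lbs ls vs)
    (hhf : h ≠ f) (hhl : h ≠ l) (hz : z ≠ f ∧ z ≠ l ∧ z ≠ h) :
    (2 : ℤ) • cls H (l :: f :: ls) ((f, l, z) :: vs) =
      cls H (h :: ls) ((h, f, l) :: (z, f, l) :: vs) := by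
  have h1 := cls_stu (H := H) (ls := ls) (vs := (f, l, z) :: vs) (x := h) (a := f) (b := l) (by
    simp only [lbs_cons, lbs_cons_l]
    rintro ((h' | h' | h') | h' | h' | h')
    · exact hhf h'
    · exact hhl h'
    · exact hz.2.2 h'.symm
    · exact hhl h'
    · exact hhf h'
    · exact hh h')
  have h2 := cls_swap (H := H) (ls := ls) (vs := vs) (a := f) (b := l) [f, l]
    [(f, l, z)] hf hl
  simp only [List.map_nil, List.nil_append, List.map_cons, mp, List.cons_append,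
    Equiv.swap_apply_left, Equiv.swap_apply_right, swap_ne hz.1 hz.2.1] at h2
  rw [rot2 _ z f l, h1, ← h2, rot1 l f z, rev1 f z l, two_zsmul, sub_neg_eq_add]

/-- A new leg: first a leg of the rail `(x, x')`, then the leg `y` of a new rail. -/
theorem loc_ea {f h x x' y : ℕ} (hh : h ∉ lbs (f :: y :: ls) ((f, x, x') :: vs)) :
    cls H (f :: y :: ls) ((f, x, x') :: vs) - cls H (y :: f :: ls) ((f, x, x') :: vs) =
      cls H (h :: ls) ((f, x, x') :: (f, h, y) :: vs) := by
  rw [← cls_stu (H := H) hh, sw12, rot2 _ f h y]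

/-- The rail `y` ends on the strand: before or after a leg of the rail `(x, x')`. -/
theorem loc_ab {f h x x' y : ℕ} (hh : h ∉ lbs (f :: y :: ls) ((f, x, x') :: vs)) :
    cls H (f :: y :: ls) ((f, x, x') :: vs) - cls H (y :: f :: ls) ((f, x, x') :: vs) +
      cls H (h :: ls) ((f, x, x') :: (f, y, h) :: vs) = 0 := by
  rw [← cls_stu (H := H) hh, sw12, rot2 _ f y h, rev2 _ y h f, rot2 _ y f h, rot2 _ f h y]
  rw [rev2 _ h y f]
  abel

end Pool.Agent.SWT85
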