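import Pool.Agent.SWT85.Nm
import Pool.Agent.SWT84.Jd
import Pool.Agent.SWT80.Eval
import Pool.Agent.SWT45.Fin8

/-!
# The value of the functional on ladders
-/

set_option autoImplicit false

namespace Pool.Agent.SWT85

open Equiv Pool.Agent.Jac70 Pool.Agent.SWT80 Pool.Agent.SWT45 Pool.Agent.SWT93

variable {H : Type} [DecidableEq H] {M : Type} [AddCommGroup M]

/-- The homomorphism `f` is given by the functionals `F` on the based graphs. -/
def Gv (F : (n : ℕ) → (V : Type) → Gr V n → M) (f : A H →+ M) : Prop :=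
  ∀ (D : JD H) (u : H) (_ : u ∈ D.K), ∃ G : Gr {h : H // ¬ D.onC h} D.K.card,
    IsRd D u G ∧ f D.cl = F D.K.card _ G

/-- The interface of `SWT84`. -/
theorem gv_of_toGr {F : (n : ℕ) → (V : Type) → Gr V n → M} {f : A H →+ M}
    (h : ∀ (D : JD H) (u : H) (hu : u ∈ D.K),
      f D.cl = F D.K.card {h // ¬ D.onC h} (SWT84.toGr D u hu)) : Gv F f := by
  intro D u hu
  refine ⟨SWT84.toGr D u hu, ⟨fun v => rfl, fun v hv => ?_, fun v hv => ?_, fun i => rfl⟩,
    h D u hu⟩
  · exact SWT84.gr_r_inner D _ _ u hu _ _ v hv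
  · refine Subtype.ext ((SWT84.gr_r D _ _ u hu _ _ v).trans ?_)
    refine SWT84.rh_slot ?_
    by_contra h1
    exact hv (SWT84.inner_of_not v.2 h1)

/-- The interface of `SWT80`. -/
theorem gv_of_val {F : (n : ℕ) → (V : Type) → Gr V n → M} {f : A H →+ M} [Finite H] {N : ℕ}
    (h2 : ∀ v : M, v + v = 0 → v = 0) (hF : Fam N F) (hN : Nat.card H ≤ 3 * N)
    (h : ∀ D : JD H, f D.cl = val F D) : Gv F f := by
  intro D u hu
  refine ⟨rd D u D.K.card hu rfl, ⟨fun v => rd_e D hu rfl v, fun v hv => rd_r_in D hu rfl hv,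
    fun v hv => rd_r_out D hu rfl hv, fun i => rd_leg D hu rfl i⟩, ?_⟩
  rw [h, val_eq h2 hF hN D hu rfl]

section

variable {F : (n : ℕ) → (V : Type) → Gr V n → M} {f : A H →+ M} {ls : List ℕ} {vs : List Tri}

/-- **The value on a coded diagram.** -/
theorem Gv.code [Finite H] (hf : Gv F f) {n : ℕ} (h0 : n ≠ 0)
    (hiso : ∀ (V W : Type) [Finite V] (φ : V ≃ W) (G : Gr V n), F n W (G.map φ) = F n V G)
    (hg : Good H ls vs) {V : Type} [Finite V] {G : Gr V n} {lam : V → ℕ} {ws : List V}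
    (R : Rg G lam ws ls vs) : f (cls H ls vs) = F n V G := by
  obtain ⟨D, mu, cs, ws', R'⟩ := hg
  have hl : ls.length = n := R.lenl
  have hcs : cs.length = n := by rw [R'.lenc, hl]
  cases cs with
  | nil => exact absurd hcs.symm h0
  | cons c cs =>
    have hc : c ∈ D.K := (R'.hK c).2 (by simp)
    obtain ⟨G', hG, h1⟩ := hf D c hc
    rw [R'.cls, h1]
    have hcard : D.K.card = n := by rw [R'.cardK, hl]
    clear h1
    revert G'
    rw [hcard]
    intro G' hG
    obtain ⟨ws2, R2⟩ := R'.rg (u := c) rfl hl.symm hG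
    obtain ⟨φ, hφ⟩ := R.iso R2
    rw [← hφ, hiso]

/-- The value on the diagrams with few legs. -/
theorem Gv.low [Nonempty H] (hf : Gv F f) {k : ℕ}
    (hlow : ∀ n < k, ∀ (V : Type) (G : Gr V n), F n V G = 0) (hl : ls.length < k) :
    f (cls H ls vs) = 0 := by
  by_cases hg : Good H ls vs
  · obtain ⟨D, mu, cs, ws', R'⟩ := hg
    obtain ⟨u, hu⟩ := D.ne (Classical.arbitrary H)
    obtain ⟨G', _, h1⟩ := hf D u hu
    rw [R'.cls, h1]
    exact hlow _ (by rw [R'.cardK]; exact hl) _ _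
  · rw [cls_bad hg, map_zero]

end

/-- **The value of the functional on a ladder with eight legs and four rungs.** -/
theorem Gv.ladder [Fintype H] {F : (n : ℕ) → (V : Type) → Gr V n → ZMod 3} {f : A H →+ ZMod 3}
    (hf : Gv F f) (h8 : F 8 = z8) (hH : Fintype.card H = 72) (w : List Ll)
    (hl : (fL w).length = 8) (hv : (fV w).length = 16) {k : ℤ} (hk : nN w = 9 * k) :
    f (cls H (fL w) (fV w)) = (k : ZMod 3) := by
  obtain ⟨V, _, n, G, lam, ws, R, hG, hz⟩ := exists_ladder w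
  have hn : n = 8 := by rw [← R.lenl, hl]
  subst hn
  have hV : Nat.card V = 56 := by
    rw [Nat.card_eq_fintype_card, R.card, hl, hv]
  have hg : Good H (fL w) (fV w) := R.good hG (by norm_num) (by rw [hH, hl, hv])
  have hiso : ∀ (V W : Type) [Finite V] (φ : V ≃ W) (G : Gr V 8),
      F 8 W (G.map φ) = F 8 V G := by
    rw [h8]
    exact in8_z8.rel.iso
  rw [hf.code (by norm_num) hiso hg R, h8, z8_pos hV hG]
  exact z_eq (fun φ hφ => nine_dvd cong hG hV hφ) (hz.trans hk)

end Pool.Agent.SWT85
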