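import Mathlib
import Pool.Agent.SWW54.Fs
import Pool.Agent.SWT85.Fv

/-!
# The value of the functional on packed sums of words
-/

set_option autoImplicit false

namespace Pool.Agent.SWT85

open Equiv Pool.Agent.Jac70 Pool.Agent.SWT80 Pool.Agent.SWT45 Pool.Agent.SWT93
open Pool.Agent.SWW54 (Lt T3 run ev dw vl HT vl_nil vl_cons stp)

variable {H : Type} [DecidableEq H]

/-! ### Ladders as words -/

/-- The letter of a letter of a ladder. -/
def ltr : Ll → Lt
  | .h => .a 0
  | .k => .a 1
  | .r => .b 0 1
  | .o => .o 0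
  | .p => .o 1

theorem run_ltr (w : List Ll) : ∀ (ra : ℕ → ℕ) (n : ℕ),
    (run (w.map ltr ++ [.M 0 1, .A 0]) ra n).L = lL w n ∧
      (run (w.map ltr ++ [.M 0 1, .A 0]) ra n).V = lV w n (ra 0) (ra 1) ∧
      (run (w.map ltr ++ [.M 0 1, .A 0]) ra n).B = [] := by
  induction w with
  | nil =>
    intro ra n
    refine ⟨?_, ?_, rfl⟩ <;> simp [run, stp, lL, lV]
  | cons l w ih =>
    intro ra n
    cases l with
    | h =>
      obtain ⟨h1, h2, h3⟩ := ih (Function.update ra 0 (n + 1)) (n + 2)
      refine ⟨?_, ?_, ?_⟩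
      · show [n] ++ (run (w.map ltr ++ [.M 0 1, .A 0]) (Function.update ra 0 (n + 1)) (n + 2)).L =
          n :: lL w (n + 2)
        rw [h1]
        rfl
      · show [(n, ra 0, n + 1)] ++ (run (w.map ltr ++ [.M 0 1, .A 0])
          (Function.update ra 0 (n + 1)) (n + 2)).V =
          (n, ra 0, n + 1) :: lV w (n + 2) (n + 1) (ra 1)
        rw [h2]
        simp
      · show (run (w.map ltr ++ [.M 0 1, .A 0]) (Function.update ra 0 (n + 1)) (n + 2)).B ++ [] =
          []
        rw [h3]
        rfl
    | k =>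
      obtain ⟨h1, h2, h3⟩ := ih (Function.update ra 1 (n + 1)) (n + 2)
      refine ⟨?_, ?_, ?_⟩
      · show [n] ++ (run (w.map ltr ++ [.M 0 1, .A 0]) (Function.update ra 1 (n + 1)) (n + 2)).L =
          n :: lL w (n + 2)
        rw [h1]
        rfl
      · show [(n, ra 1, n + 1)] ++ (run (w.map ltr ++ [.M 0 1, .A 0])
          (Function.update ra 1 (n + 1)) (n + 2)).V =
          (n, ra 1, n + 1) :: lV w (n + 2) (ra 0) (n + 1)
        rw [h2]
        simp
      · show (run (w.map ltr ++ [.M 0 1, .A 0]) (Function.update ra 1 (n + 1)) (n + 2)).B ++ [] =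
          []
        rw [h3]
        rfl
    | r =>
      obtain ⟨h1, h2, h3⟩ :=
        ih (Function.update (Function.update ra 0 (n + 1)) 1 (n + 2)) (n + 3)
      refine ⟨?_, ?_, ?_⟩
      · show [] ++ (run (w.map ltr ++ [.M 0 1, .A 0])
          (Function.update (Function.update ra 0 (n + 1)) 1 (n + 2)) (n + 3)).L = lL w (n + 3)
        rw [h1]
        rfl
      · show [(n, ra 0, n + 1), (n, ra 1, n + 2)] ++ (run (w.map ltr ++ [.M 0 1, .A 0])
          (Function.update (Function.update ra 0 (n + 1)) 1 (n + 2)) (n + 3)).V =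
          (n, ra 0, n + 1) :: (n, ra 1, n + 2) :: lV w (n + 3) (n + 1) (n + 2)
        rw [h2]
        simp
      · show (run (w.map ltr ++ [.M 0 1, .A 0])
          (Function.update (Function.update ra 0 (n + 1)) 1 (n + 2)) (n + 3)).B ++ [] = []
        rw [h3]
        rfl
    | o =>
      obtain ⟨h1, h2, h3⟩ := ih (Function.update ra 0 (n + 2)) (n + 3)
      refine ⟨?_, ?_, ?_⟩
      · show [] ++ (run (w.map ltr ++ [.M 0 1, .A 0]) (Function.update ra 0 (n + 2)) (n + 3)).L =
          lL w (n + 3)
        rw [h1]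
        rfl
      · show [(ra 0, n, n + 1), (n + 2, n, n + 1)] ++ (run (w.map ltr ++ [.M 0 1, .A 0])
          (Function.update ra 0 (n + 2)) (n + 3)).V =
          (ra 0, n, n + 1) :: (n + 2, n, n + 1) :: lV w (n + 3) (n + 2) (ra 1)
        rw [h2]
        simp
      · show (run (w.map ltr ++ [.M 0 1, .A 0]) (Function.update ra 0 (n + 2)) (n + 3)).B ++ [] =
          []
        rw [h3]
        rfl
    | p =>
      obtain ⟨h1, h2, h3⟩ := ih (Function.update ra 1 (n + 2)) (n + 3)
      refine ⟨?_, ?_, ?_⟩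
      · show [] ++ (run (w.map ltr ++ [.M 0 1, .A 0]) (Function.update ra 1 (n + 2)) (n + 3)).L =
          lL w (n + 3)
        rw [h1]
        rfl
      · show [(ra 1, n, n + 1), (n + 2, n, n + 1)] ++ (run (w.map ltr ++ [.M 0 1, .A 0])
          (Function.update ra 1 (n + 2)) (n + 3)).V =
          (ra 1, n, n + 1) :: (n + 2, n, n + 1) :: lV w (n + 3) (ra 0) (n + 2)
        rw [h2]
        simp
      · show (run (w.map ltr ++ [.M 0 1, .A 0]) (Function.update ra 1 (n + 2)) (n + 3)).B ++ [] =
          []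
        rw [h3]
        rfl

/-- The class of the word of a ladder. -/
theorem ev_ltr (w : List Ll) :
    ev H (.E 0 :: .Y 0 1 :: (w.map ltr ++ [.M 0 1, .A 0])) = cls H (fL w) (fV w) := by
  obtain ⟨h1, h2, h3⟩ := run_ltr w (Function.update (Function.update (fun _ => 0) 0 1) 1 2) 3
  have e1 : (run (.E 0 :: .Y 0 1 :: (w.map ltr ++ [.M 0 1, .A 0])) (fun _ => 0) 0).B = [] := by
    show ((run (w.map ltr ++ [.M 0 1, .A 0])
      (Function.update (Function.update (Function.update (fun _ => 0) 0 0) 0 1) 1 2) 3).B ++ []) ++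
        [] = []
    rw [Function.update_idem, h3]
    rfl
  have e2 : (run (.E 0 :: .Y 0 1 :: (w.map ltr ++ [.M 0 1, .A 0])) (fun _ => 0) 0).L = fL w := by
    show [0] ++ ([] ++ (run (w.map ltr ++ [.M 0 1, .A 0])
      (Function.update (Function.update (Function.update (fun _ => 0) 0 0) 0 1) 1 2) 3).L) = _
    rw [Function.update_idem, h1]
    rfl
  have e3 : (run (.E 0 :: .Y 0 1 :: (w.map ltr ++ [.M 0 1, .A 0])) (fun _ => 0) 0).V = fV w := by
    show [] ++ ([(0, 1, 2)] ++ (run (w.map ltr ++ [.M 0 1, .A 0])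
      (Function.update (Function.update (Function.update (fun _ => 0) 0 0) 0 1) 1 2) 3).V) = _
    rw [Function.update_idem, h2]
    simp [fV]
  unfold ev
  rw [e1, e2, e3]
  rfl

/-! ### Words with few legs -/

/-- The number of legs of a letter. -/
def lc : Lt → ℕ
  | .a _ => 1
  | .E _ => 1
  | .A _ => 1
  | .F _ => 1
  | _ => 0

/-- The number of legs of a word. -/
def lcs : List Lt → ℕ
  | [] => 0
  | l :: w => lc l + lcs w

theorem stp_len (l : Lt) (ra : ℕ → ℕ) (n : ℕ) :
    (stp l ra n).B.length + (stp l ra n).L.length = lc l := by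
  cases l <;> rfl

theorem run_len (w : List Lt) : ∀ (ra : ℕ → ℕ) (n : ℕ),
    (run w ra n).B.length + (run w ra n).L.length = lcs w := by
  induction w with
  | nil => exact fun _ _ => rfl
  | cons l w ih =>
    intro ra n
    have h1 := stp_len l ra n
    have h2 := ih (stp l ra n).ra (stp l ra n).n
    show ((run w (stp l ra n).ra (stp l ra n).n).B ++ (stp l ra n).B).length +
      ((stp l ra n).L ++ (run w (stp l ra n).ra (stp l ra n).n).L).length = lc l + lcs w
    rw [List.length_append, List.length_append]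
    omega

theorem Gv.ev_low {M : Type} [AddCommGroup M] [Nonempty H]
    {F : (n : ℕ) → (V : Type) → Gr V n → M} {f : A H →+ M} (hf : Gv F f) {k : ℕ}
    (hlow : ∀ n < k, ∀ (V : Type) (G : Gr V n), F n V G = 0) {w : List Lt} (hw : lcs w < k) :
    f (ev H w) = 0 := by
  unfold ev
  refine hf.low hlow ?_
  rw [List.length_append, run_len]
  exact hw

/-! ### The checker -/

/-- The letters of a ladder are read. -/
def rdl : List Lt → Option (List Ll)
  | [] => none
  | .M i j :: w => match i, j, w with
    | 0, 1, [.A 0] => some []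
    | _, _, _ => none
  | .a 0 :: w => (rdl w).map (.h :: ·)
  | .a 1 :: w => (rdl w).map (.k :: ·)
  | .b 0 1 :: w => (rdl w).map (.r :: ·)
  | .o 0 :: w => (rdl w).map (.o :: ·)
  | .o 1 :: w => (rdl w).map (.p :: ·)
  | _ :: _ => none

theorem rdl_spec (w : List Lt) : ∀ v : List Ll, rdl w = some v →
    w = v.map ltr ++ [.M 0 1, .A 0] := by
  induction w with
  | nil =>
    intro v hv
    exact absurd hv (by simp [rdl])
  | cons l w ih =>
    intro v hv
    unfold rdl at hv
    split at hv
    · exact absurd hv (by simp)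
    · rename_i i j w' heq
      rw [List.cons.injEq] at heq
      obtain ⟨rfl, rfl⟩ := heq
      split at hv
      · simp only [Option.some.injEq] at hv
        subst hv
        rfl
      · exact absurd hv (by simp)
    all_goals first
      | (rename_i w' heq
         rw [List.cons.injEq] at heq
         obtain ⟨rfl, rfl⟩ := heq
         obtain ⟨x, hx, rfl⟩ := Option.map_eq_some_iff.1 hv
         rw [ih x hx]
         rfl)
      | exact absurd hv (by simp)

/-- The ladder of a closed word. -/
def rdw : List Lt → Option (List Ll)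
  | .E 0 :: .Y 0 1 :: w => rdl w
  | _ => none

theorem rdw_spec {w : List Lt} {v : List Ll} (h : rdw w = some v) :
    w = .E 0 :: .Y 0 1 :: (v.map ltr ++ [.M 0 1, .A 0]) := by
  unfold rdw at h
  split at h
  · rw [rdl_spec _ _ h]
  · exact absurd h (by simp)

/-- The number of the vertices of a ladder. -/
def vc : List Ll → ℕ
  | [] => 2
  | .h :: w => 1 + vc w
  | .k :: w => 1 + vc w
  | .r :: w => 2 + vc w
  | .o :: w => 2 + vc w
  | .p :: w => 2 + vc w

theorem lV_length (w : List Ll) : ∀ N r0 r1 : ℕ, (lV w N r0 r1).length + 1 = vc w := by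
  induction w with
  | nil => exact fun _ _ _ => rfl
  | cons l w ih =>
    intro N r0 r1
    cases l with
    | h =>
      have := ih (N + 2) (N + 1) r1
      show (lV w (N + 2) (N + 1) r1).length + 1 + 1 = 1 + vc w
      omega
    | k =>
      have := ih (N + 2) r0 (N + 1)
      show (lV w (N + 2) r0 (N + 1)).length + 1 + 1 = 1 + vc w
      omega
    | r =>
      have := ih (N + 3) (N + 1) (N + 2)
      show (lV w (N + 3) (N + 1) (N + 2)).length + 1 + 1 + 1 = 2 + vc w
      omega
    | o =>
      have := ih (N + 3) (N + 2) r1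
      show (lV w (N + 3) (N + 2) r1).length + 1 + 1 + 1 = 2 + vc w
      omega
    | p =>
      have := ih (N + 3) r0 (N + 2)
      show (lV w (N + 3) r0 (N + 2)).length + 1 + 1 + 1 = 2 + vc w
      omega

/-- The number of the legs of a ladder. -/
def hc : List Ll → ℕ
  | [] => 2
  | .h :: w => 1 + hc w
  | .k :: w => 1 + hc w
  | .r :: w => hc w
  | .o :: w => hc w
  | .p :: w => hc w

theorem lL_length (w : List Ll) : ∀ N : ℕ, (lL w N).length + 1 = hc w := by
  induction w with
  | nil => exact fun _ => rfl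
  | cons l w ih =>
    intro N
    cases l with
    | h =>
      have := ih (N + 2)
      show (lL w (N + 2)).length + 1 + 1 = 1 + hc w
      omega
    | k =>
      have := ih (N + 2)
      show (lL w (N + 2)).length + 1 + 1 = 1 + hc w
      omega
    | r => exact ih (N + 3)
    | o => exact ih (N + 3)
    | p => exact ih (N + 3)

/-- The number of a ladder. -/
def num (w : List Ll) : ℤ := oV w 0 (-1) (-1) 1 1 - gV w 0 0 0 0 (-1) 0 0 0 1

/-- The value of a word, if it can be computed. -/
def cv (w : List Lt) : Option ℤ :=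
  if lcs w < 8 then some 0 else
    match rdw w with
    | none => none
    | some v => if hc v = 8 ∧ vc v = 16 ∧ num v % 9 = 0 then some (num v / 9) else none

section

variable [Fintype H] {F : (n : ℕ) → (V : Type) → Gr V n → ZMod 3} {f : A H →+ ZMod 3}

theorem Gv.cv (hf : Gv F f) (h8 : F 8 = z8)
    (hlow : ∀ n < 8, ∀ (V : Type) (G : Gr V n), F n V G = 0) (hH : Fintype.card H = 72)
    {w : List Lt} {k : ℤ} (h : cv w = some k) : f (ev H w) = (k : ZMod 3) := by
  have hne : Nonempty H := Fintype.card_pos_iff.1 (by omega)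
  unfold SWT85.cv at h
  split_ifs at h with h1
  · rw [Option.some.injEq] at h
    subst h
    rw [hf.ev_low hlow h1, Int.cast_zero]
  · split at h
    · exact absurd h (by simp)
    · rename_i v hv
      split_ifs at h with h2
      rw [Option.some.injEq] at h
      subst h
      obtain ⟨q1, q2, q3⟩ := h2
      rw [rdw_spec hv, ev_ltr]
      refine hf.ladder h8 hH v ?_ ?_ ?_
      · exact (lL_length v 3).trans q1
      · exact (lV_length v 3 1 2).trans q2
      · rw [nN_eq]
        exact (Int.mul_ediv_cancel' (Int.dvd_of_emod_eq_zero q3)).symm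

/-- The value of a packed sum, if it can be computed. -/
def cvs : List T3 → Option ℤ
  | [] => some 0
  | t :: R => match SWT85.cv (dw t.2.1 t.2.2), cvs R with
    | some a, some b => some (t.1 * a + b)
    | _, _ => none

/-- **The value of the functional on a packed sum.** -/
theorem Gv.cvs (hf : Gv F f) (h8 : F 8 = z8)
    (hlow : ∀ n < 8, ∀ (V : Type) (G : Gr V n), F n V G = 0) (hH : Fintype.card H = 72)
    (R : List T3) : ∀ k : ℤ, cvs R = some k → f (vl (ev H) R) = (k : ZMod 3) := by
  induction R with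
  | nil =>
    intro k h
    unfold SWT85.cvs at h
    rw [Option.some.injEq] at h
    subst h
    rw [vl_nil, map_zero, Int.cast_zero]
  | cons t R ih =>
    intro k h
    unfold SWT85.cvs at h
    split at h
    · rename_i a b ha hb
      rw [Option.some.injEq] at h
      subst h
      rw [vl_cons, map_add, map_zsmul, hf.cv h8 hlow hH ha, ih b hb, Int.cast_add, Int.cast_mul,
        zsmul_eq_mul]
    · exact absurd h (by simp)

end

/-! ### An element of order three -/

theorem exists_ord3 {M : Type} [AddCommGroup M] {f : M →+ ZMod 3} {x : M}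
    (hx : x ∈ Submodule.torsion ℤ M) (h : f x ≠ 0) : ∃ y : M, y ≠ 0 ∧ (3 : ℤ) • y = 0 := by
  obtain ⟨⟨a, ha⟩, hax⟩ := (Submodule.mem_torsion_iff x).1 hx
  have ha0 : a ≠ 0 := nonZeroDivisors.ne_zero ha
  have hax' : a • x = 0 := hax
  obtain ⟨k, m, hm, rfl⟩ : ∃ (k : ℕ) (m : ℤ), ¬ (3 : ℤ) ∣ m ∧ a = 3 ^ k * m := by
    obtain ⟨m, h1, h2⟩ := ((Int.finiteMultiplicity_iff (a := 3) (b := a)).2
      ⟨by norm_num, ha0⟩).exists_eq_pow_mul_and_not_dvd
    exact ⟨_, m, h2, h1⟩
  have hy : f (m • x) ≠ 0 := by
    rw [map_zsmul, zsmul_eq_mul]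
    refine mul_ne_zero ?_ h
    rwa [Ne, ZMod.intCast_zmod_eq_zero_iff_dvd]
  have key : ∀ k : ℕ, ∀ y : M, y ≠ 0 → (3 : ℤ) ^ k • y = 0 →
      ∃ y : M, y ≠ 0 ∧ (3 : ℤ) • y = 0 := by
    intro k
    induction k with
    | zero =>
      intro y h1 h2
      rw [pow_zero, one_smul] at h2
      exact absurd h2 h1
    | succ k ih =>
      intro y h1 h2
      by_cases h3 : (3 : ℤ) • y = 0
      · exact ⟨y, h1, h3⟩
      · refine ih ((3 : ℤ) • y) h3 ?_
        rw [← mul_smul, ← pow_succ]
        exact h2
  refine key k (m • x) (fun h0 => hy (by rw [h0, map_zero])) ?_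
  rw [← mul_smul]
  exact hax'

end Pool.Agent.SWT85
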