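import Mathlib
import Pool.Agent.SWT85.Fw
import Pool.Agent.SWT93.Top

/-!
# An element of order three from a certificate
-/

set_option autoImplicit false

namespace Pool.Agent.SWT85

open Equiv Pool.Agent.SWT45 Pool.Agent.SWT93
open Pool.Agent.Jac70 (JD A)
open Pool.Agent.SWW54 (Lt T3 run ev dw vl HT vl_nil vl_cons stp)

theorem half3 : Half (ZMod 3) := ⟨by decide, by decide⟩

/-- **The end of the proof**: the input of level 10, and a sum of words which is a torsion element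
and whose value is not divisible by three. -/
theorem exists_three (h10 : In10 72 z8) {R : List T3} {k : ℤ} (hR : HT (Fin 72) 0 9 R)
    (hk : cvs R = some k) (h3 : ¬ (3 : ℤ) ∣ k) : ∃ y : A (Fin 72), y ≠ 0 ∧ (3 : ℤ) • y = 0 := by
  obtain ⟨F, hF⟩ := exists_upto half3 in8_z8 h10 le_rfl 24 (by norm_num)
  have hc : Nat.card (Fin 72) ≤ 3 * 24 := by simp
  obtain ⟨f, hf⟩ := SWT80.exists_fun half3.uniq hF.fam hc
  have hg : Gv F f := gv_of_val half3.uniq hF.fam hc hf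
  have hv := hg.cvs hF.eq8 hF.low (by simp) R k hk
  have ht := hR [] [] rfl rfl
  simp only [List.nil_append, List.append_nil] at ht
  refine exists_ord3 (f := f) ht ?_
  show f (vl (ev (Fin 72)) R) ≠ 0
  rw [hv, Ne, ZMod.intCast_zmod_eq_zero_iff_dvd]
  exact h3

/-- The same for a sum of words which is divisible by three up to torsion. -/
theorem exists_three_dv (h10 : In10 72 z8) {R : List T3} {k : ℤ}
    (hR : ∃ (m : ℕ) (y : A (Fin 72)), m ≠ 0 ∧ m • vl (ev (Fin 72)) R = (m * 3) • y)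
    (hk : cvs R = some k) (h3 : ¬ (3 : ℤ) ∣ k) : ∃ y : A (Fin 72), y ≠ 0 ∧ (3 : ℤ) • y = 0 := by
  obtain ⟨F, hF⟩ := exists_upto half3 in8_z8 h10 le_rfl 24 (by norm_num)
  have hc : Nat.card (Fin 72) ≤ 3 * 24 := by simp
  obtain ⟨f, hf⟩ := SWT80.exists_fun half3.uniq hF.fam hc
  have hg : Gv F f := gv_of_val half3.uniq hF.fam hc hf
  have hv := hg.cvs hF.eq8 hF.low (by simp) R k hk
  obtain ⟨m, y, hm, hy⟩ := hR
  have ht : vl (ev (Fin 72)) R - (3 : ℕ) • y ∈ Submodule.torsion ℤ (A (Fin 72)) := by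
    rw [Submodule.mem_torsion_iff]
    refine ⟨⟨(m : ℤ), mem_nonZeroDivisors_of_ne_zero (by exact_mod_cast hm)⟩, ?_⟩
    show (m : ℤ) • (vl (ev (Fin 72)) R - (3 : ℕ) • y) = 0
    rw [natCast_zsmul, smul_sub, hy, mul_smul, sub_self]
  refine exists_ord3 (f := f) ht ?_
  have h0 : f ((3 : ℕ) • y) = 0 := by
    rw [map_nsmul]
    generalize f y = c
    revert c
    decide
  rw [map_sub, h0, sub_zero, hv, Ne, ZMod.intCast_zmod_eq_zero_iff_dvd]
  exact h3

/-- The same with the power `3 ^ n`. -/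
theorem exists_three_dvn (h10 : In10 72 z8) {R : List T3} {k : ℤ} {n : ℕ} (hn : n ≠ 0)
    (hR : ∃ (m : ℕ) (y : A (Fin 72)), m ≠ 0 ∧ m • vl (ev (Fin 72)) R = (m * 3 ^ n) • y)
    (hk : cvs R = some k) (h3 : ¬ (3 : ℤ) ∣ k) : ∃ y : A (Fin 72), y ≠ 0 ∧ (3 : ℤ) • y = 0 := by
  obtain ⟨m, y, hm, hy⟩ := hR
  refine exists_three_dv h10 ⟨m, 3 ^ (n - 1) • y, hm, ?_⟩ hk h3
  rw [hy, smul_smul]
  congr 1
  obtain ⟨l, rfl⟩ := Nat.exists_eq_succ_of_ne_zero hn
  rw [Nat.succ_sub_one, pow_succ]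
  ring

end Pool.Agent.SWT85
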