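import Pool.Agent.SWT85.Ks

/-!
# The functional of level 8 and the full state sums of `osp(1|2)` and `gl(3)`
-/

set_option autoImplicit false

namespace Pool.Agent.SWT85

open Equiv Pool.Agent.SWT80 Pool.Agent.SWT45 Pool.Agent.SWT67 Pool.Agent.SWT93
open scoped Classical

variable {V W B : Type} {n m : ℕ}

theorem sys_osp : Sys osp odu := ⟨osp_ok, rfl, fun _ => rfl, rfl⟩

theorem sys_gl : Sys gl (fun x : Fin 3 × Fin 3 => (x.2, x.1)) := ⟨gl_ok, rfl, fun _ => rfl, rfl⟩

/-! ### Full sums and flows -/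

/-- The classes of the labels. -/
structure Cls (S : LS (Option B)) (d : B → B) (cl : B → ZMod 3) : Prop where
  d : ∀ x, cl (d x) = - cl x
  t : ∀ a b c : Option B, S.T a b c ≠ 0 → a.elim 0 cl + b.elim 0 cl + c.elim 0 cl = 0

/-- The class of a state. -/
def ph (cl : B → ZMod 3) (s : V → Option B) (v : V) : ZMod 3 := (s v).elim 0 cl

theorem ph_flow [Fintype V] {S : LS (Option B)} {d : B → B} {cl : B → ZMod 3} (hS : Sys S d)
    (hc : Cls S d cl) {G : Gr V n} {s : V → Option B} (hs : Clo S G s) (h : tq S G s ≠ 0) :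
    Flow G (ph cl s) := by
  have hl : ∀ v, G.r v = v → s v = none := fun v hv => (hs.lg v).2 (Or.inl hv)
  obtain ⟨Q, hQ⟩ := rep V G.r G.r3
  unfold tq at h
  rw [vp_eq _ _ _ _ G.r3 hQ fun v => cst' hS.ok G s v] at h
  refine ⟨fun v => ?_, fun v => ?_, fun v hv => ?_⟩
  · unfold ph
    rw [hs.e]
    cases h1 : s v with
    | none =>
      rw [hS.n]
      exact neg_zero.symm
    | some x =>
      rw [hS.s]
      exact hc.d x
  · by_cases hv : G.r v = v
    · unfold ph
      rw [hv, hv, hl v hv]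
      exact rfl
    · have key : ∀ w ∈ Q, S.T (s w) (s (G.r w)) (s (G.r (G.r w))) ≠ 0 := by
        intro w hw h3
        exact h (Finset.prod_eq_zero hw h3)
      have h4 : S.T (s v) (s (G.r v)) (s (G.r (G.r v))) ≠ 0 := by
        rcases hQ.ex v hv with h3 | h3 | h3
        · exact key v h3
        · have h4 := key _ h3
          rw [cst' hS.ok G s v] at h4
          exact h4
        · have h4 := key _ h3
          rw [cst' hS.ok G s (G.r v), cst' hS.ok G s v] at h4
          exact h4
      exact hc.t _ _ _ h4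
  · unfold ph
    rw [hl v hv]
    rfl

theorem flow_lg0 {G : Gr V n} {φ : V → ZMod 3} (hφ : Flow G φ) {v : V} (h : Lg G v) : φ v = 0 := by
  rcases h with h | h
  · exact hφ.leg v h
  · have h1 := hφ.leg _ h
    rw [hφ.e] at h1
    exact neg_eq_zero.1 h1

theorem isSt_iff {S : LS (Option B)} {cl : B → ZMod 3} {G : Gr V n} {φ : V → ZMod 3}
    (hφ : Flow G φ) (s : V → Option B) : IsSt S G (Al cl G φ) s ↔ Clo S G s ∧ ph cl s = φ := by
  constructor
  · rintro ⟨h1, h2⟩
    have h3 : ∀ v, (s v = none ↔ Lg G v) ∧ ph cl s v = φ v := by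
      intro v
      have h4 := h1 v
      unfold ph
      cases h5 : s v with
      | none =>
        rw [h5] at h4
        exact ⟨⟨fun _ => h4, fun _ => rfl⟩, (flow_lg0 hφ h4).symm⟩
      | some b =>
        rw [h5] at h4
        exact ⟨⟨fun h => (Option.some_ne_none b h).elim, fun h => (h4.1 h).elim⟩, h4.2⟩
    exact ⟨⟨fun v => (h3 v).1, h2⟩, funext fun v => (h3 v).2⟩
  · rintro ⟨h1, h2⟩
    refine ⟨fun v => ?_, h1.e⟩
    have h3 := congrFun h2 v
    unfold ph at h3
    have h4 := h1.lg v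
    cases h5 : s v with
    | none => exact h4.1 h5
    | some b =>
      rw [h5] at h3
      exact ⟨fun h => Option.some_ne_none b (h5.symm.trans (h4.2 h)), h3⟩

/-- The sum over the flows is the full state sum. -/
theorem sum_flow [Fintype V] [Fintype B] {S : LS (Option B)} {d : B → B} {cl : B → ZMod 3}
    (hS : Sys S d) (hc : Cls S d cl) (G : Gr V n) :
    (∑ φ ∈ (Finset.univ : Finset (V → ZMod 3)).filter (fun φ => Flow G φ),
      Z S G (Al cl G φ)) = vZ S G := by
  have h1 : ∀ φ ∈ (Finset.univ : Finset (V → ZMod 3)).filter (fun φ => Flow G φ),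
      Z S G (Al cl G φ) = ∑ s : V → Option B, if Clo S G s ∧ ph cl s = φ then wt S G s else 0 := by
    intro φ hφ
    have hφ' := (Finset.mem_filter.1 hφ).2
    unfold Z
    rw [Finset.sum_filter]
    refine Finset.sum_congr rfl fun s _ => ?_
    simp only [isSt_iff hφ' s]
  rw [Finset.sum_congr rfl h1, Finset.sum_comm]
  unfold vZ
  refine Finset.sum_congr rfl fun s _ => ?_
  by_cases hs : Clo S G s
  · rw [if_pos hs]
    by_cases h0 : wt S G s = 0
    · rw [h0]
      exact Finset.sum_eq_zero fun φ _ => by rw [ite_self]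
    · have hf : Flow G (ph cl s) := ph_flow hS hc hs fun h => h0 (by rw [wt_eq, h, mul_zero])
      rw [Finset.sum_eq_single (ph cl s)]
      · rw [if_pos ⟨hs, rfl⟩]
      · intro φ _ hφ
        rw [if_neg fun h => hφ h.2.symm]
      · intro h
        exact absurd (Finset.mem_filter.2 ⟨Finset.mem_univ _, hf⟩) h
  · rw [if_neg hs]
    exact Finset.sum_eq_zero fun φ _ => if_neg fun h => hs h.1

theorem cls_osp : Cls osp odu ocl := ⟨by decide, by decide +kernel⟩

theorem cls_gl : Cls gl (fun x : Fin 3 × Fin 3 => (x.2, x.1)) gcl :=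
  ⟨by decide, by decide +kernel⟩

/-- **The functional is given by the full state sums.** -/
theorem z_eq [Fintype V] {G : Gr V n} (h9 : ∀ φ, Flow G φ → (9 : ℤ) ∣ C G φ) {k : ℤ}
    (hk : vZ osp G - vZ gl G = 9 * k) : z G = (k : ZMod 3) := by
  unfold z
  congr 1
  have h1 : 9 * (∑ φ ∈ (Finset.univ : Finset (V → ZMod 3)).filter (fun φ => Flow G φ),
      C G φ / 9) = 9 * k := by
    rw [← hk, ← sum_flow sys_osp cls_osp G, ← sum_flow sys_gl cls_gl G, ← Finset.sum_sub_distrib,
      Finset.mul_sum]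
    refine Finset.sum_congr rfl fun φ hφ => ?_
    rw [Int.mul_ediv_cancel' (h9 φ (Finset.mem_filter.1 hφ).2)]
    rfl
  exact mul_left_cancel₀ (by norm_num) h1

/-! ### No signs for `gl(3)` -/

theorem wt_gl [Fintype V] {G : Gr V n} (s : V → Option (Fin 3 × Fin 3)) :
    wt gl G s = tq gl G s := by
  rw [wt_eq]
  have h1 : sg G.e G.r (fun v => gl.odd (s v)) (fun v => gl.pos (s v)) = 1 := by
    unfold sg
    have h2 : ∃ κ, IsK G.e G.r (fun v => gl.odd (s v)) (fun v => gl.pos (s v)) κ :=
      ⟨1, fun _ _ => rfl, fun _ h => absurd h (by show ¬ (false = true); decide)⟩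
    rw [dif_pos h2]
    have h3 : h2.choose = 1 := Equiv.ext fun v => h2.choose_spec.fix v rfl
    rw [h3, map_one]
    rfl
  rw [h1, one_mul]

theorem vZ_gl [Fintype V] (G : Gr V n) : vZ gl G = tZ gl G := by
  unfold vZ tZ
  simp only [wt_gl]

/-! ### The dual labels of `osp(1|2)` -/

theorem dual_osp_bs {a : Fin 4} (ha : a = 1 ∨ a = 2) : Dual osp bs a := by
  intro t ht h
  obtain ⟨p, rfl⟩ := (tb_cut sys_osp ha t).1 ht
  rw [tp_bs sys_osp] at h
  have h1 : osp.T none (some p.1) (some p.2) ≠ 0 := h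
  have h2 : p.2 = odu p.1 ∧ p.1 = odu p.2 := by
    revert h1
    generalize p.1 = x
    generalize p.2 = y
    revert x y
    decide +kernel
  rcases ha with rfl | rfl
  · show some p.2 = some (odu p.1)
    rw [← h2.1]
  · show some p.1 = some (odu p.2)
    rw [← h2.2]

theorem osp_tt : ∀ q k x y : Fin 5, osp.T (some q) (some k) (some x) ≠ 0 →
    osp.T (some (odu q)) (some (odu k)) (some y) ≠ 0 → y = odu x := by
  decide +kernel

theorem dual_osp_th : Dual osp th 2 := by
  intro t ht h
  obtain ⟨q, k, x, y, rfl⟩ := (tt_cut sys_osp t).1 ht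
  rw [tp_th sys_osp] at h
  have h1 := osp_tt q k x y (left_ne_zero_of_mul h) (right_ne_zero_of_mul h)
  show some y = some (odu x)
  rw [h1]

theorem osp_tt3 : ∀ q q' k x : Fin 5, osp.T (some q) (some k) (some x) ≠ 0 →
    osp.T (some q') (some (odu k)) (some (odu x)) ≠ 0 → q = odu q' := by
  decide +kernel

theorem dual_osp_th3 : Dual osp th 3 := by
  intro t ht h
  obtain ⟨q, q', k, x, rfl⟩ := (tt_cut3 sys_osp t).1 ht
  rw [tp_th sys_osp] at h
  have h1 := osp_tt3 q q' k x (left_ne_zero_of_mul h) (right_ne_zero_of_mul h)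
  show some q = some (odu q')
  rw [h1]

end Pool.Agent.SWT85
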