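import Pool.Agent.SWT85.Rgg
import Pool.Agent.SWT85.Zs

/-!
# Ladders: the graphs, their codes and their state sums
-/

set_option autoImplicit false

namespace Pool.Agent.SWT85

open Equiv Pool.Agent.SWT80 Pool.Agent.SWT45 Pool.Agent.SWT67 Pool.Agent.SWT93

variable {V W : Type} {n m : ℕ}

/-! ### The vertices -/

/-- The vertices and the legs are described by `ls`, `vs`. -/
structure Rv (G : Gr V n) (lam : V → ℕ) (ws : List V) (ls : List ℕ) (vs : List Tri) : Prop where
  hl : List.ofFn (fun i => lam (G.leg i)) = ls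
  hv : ws.map (trg G lam) = vs
  nf : ∀ w ∈ ws, G.r w ≠ w
  cov : ∀ v, G.r v ≠ v → ∃ w ∈ ws, G.vt w v
  nd : ws.Pairwise fun v w => ¬ G.vt v w

theorem Rv.cs {G : Gr V n} {u : V} {K : Gr W m} {a : W} {lam : V → ℕ} {mu : W → ℕ}
    {ws : List V} {ls : List ℕ} {vs : List Tri} {ws' : List W} {ls' : List ℕ} {vs' : List Tri}
    (R : Rv G lam ws ls vs) (R' : Rv K mu ws' ls' vs') :
    Rv (cs G u K a) (Sum.elim lam mu) (ws'.map Sum.inr ++ ws.map Sum.inl) (ls' ++ ls)
      (vs' ++ vs) := by
  have vl : ∀ v w, (SWT85.cs G u K a).vt (Sum.inl v) (Sum.inl w) ↔ G.vt v w := by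
    intro v w
    have h1 : ∀ x y : V, (Sum.inl x : V ⊕ W) = Sum.inl y ↔ x = y := fun x y => Sum.inl.inj_iff
    unfold Gr.vt
    rw [cs_rl, cs_rl, h1, h1, h1]
  have vr : ∀ v w, (SWT85.cs G u K a).vt (Sum.inr v) (Sum.inr w) ↔ K.vt v w := by
    intro v w
    have h1 : ∀ x y : W, (Sum.inr x : V ⊕ W) = Sum.inr y ↔ x = y := fun x y => Sum.inr.inj_iff
    unfold Gr.vt
    rw [cs_rr, cs_rr, h1, h1, h1]
  refine ⟨?_, ?_, ?_, ?_, ?_⟩
  · rw [← R.hl, ← R'.hl, ← List.ofFn_fin_append]
    congr 1
    funext i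
    show Sum.elim lam mu (Fin.append (fun i => Sum.inr (K.leg i)) (fun i => Sum.inl (G.leg i)) i) =
      _
    refine Fin.addCases (fun i => ?_) (fun i => ?_) i
    · rw [Fin.append_left, Fin.append_left]
      rfl
    · rw [Fin.append_right, Fin.append_right]
      rfl
  · rw [List.map_append, List.map_map, List.map_map, ← R.hv, ← R'.hv]
    rfl
  · intro x hx
    rcases List.mem_append.1 hx with h | h
    · obtain ⟨w, hw, rfl⟩ := List.mem_map.1 h
      exact fun h' => R'.nf w hw (Sum.inr_injective h')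
    · obtain ⟨v, hv, rfl⟩ := List.mem_map.1 h
      exact fun h' => R.nf v hv (Sum.inl_injective h')
  · rintro (v | w) h
    · obtain ⟨x, hx, h1⟩ := R.cov v fun h' => h (congrArg Sum.inl h')
      exact ⟨Sum.inl x, List.mem_append_right _ (List.mem_map_of_mem hx), (vl _ _).2 h1⟩
    · obtain ⟨x, hx, h1⟩ := R'.cov w fun h' => h (congrArg Sum.inr h')
      exact ⟨Sum.inr x, List.mem_append_left _ (List.mem_map_of_mem hx), (vr _ _).2 h1⟩
  · rw [List.pairwise_append, List.pairwise_map, List.pairwise_map]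
    refine ⟨R'.nd.imp fun {v w} h h' => h ((vr _ _).1 h'),
      R.nd.imp fun {v w} h h' => h ((vl _ _).1 h'), ?_⟩
    intro x hx y hy
    obtain ⟨w, hw, rfl⟩ := List.mem_map.1 hx
    obtain ⟨v, hv, rfl⟩ := List.mem_map.1 hy
    rintro (h | h | h)
    · exact Sum.inl_ne_inr h
    · rw [cs_rr] at h
      exact Sum.inl_ne_inr h
    · rw [cs_rr, cs_rr] at h
      exact Sum.inl_ne_inr h

theorem rv_bs (mu : Fin 4 → ℕ) : Rv bs mu [0] [mu 3] [(mu 0, mu 1, mu 2)] := by
  refine ⟨rfl, rfl, ?_, ?_, ?_⟩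
  · intro w hw
    rw [List.mem_singleton] at hw
    subst hw
    decide
  · intro v hv
    refine ⟨0, List.mem_singleton.2 rfl, ?_⟩
    unfold Gr.vt
    revert v
    decide
  · exact List.pairwise_singleton _ _

theorem rv_th (mu : Fin 6 → ℕ) :
    Rv th mu [0, 3] [] [(mu 0, mu 1, mu 2), (mu 3, mu 4, mu 5)] := by
  refine ⟨rfl, rfl, ?_, ?_, ?_⟩
  · intro w hw
    simp only [List.mem_cons, List.not_mem_nil, or_false] at hw
    rcases hw with rfl | rfl <;> decide
  · intro v _
    have h1 : th.vt 0 v ∨ th.vt 3 v := by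
      unfold Gr.vt
      revert v
      decide
    rcases h1 with h1 | h1
    · exact ⟨0, by simp, h1⟩
    · exact ⟨3, by simp, h1⟩
  · rw [List.pairwise_pair]
    unfold Gr.vt
    decide

/-! ### Open codes -/

/-- The graph which is cut at the edge of `u` is described by `ls`, `vs`; the two ends have the
labels `r0`, `r1`, the other labels are at least `N`. -/
structure Ro (G : Gr V n) (u : V) (lam : V → ℕ) (ws : List V) (ls : List ℕ) (vs : List Tri)
    (N r0 r1 : ℕ) : Prop where
  rv : Rv G lam ws ls vs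
  u0 : lam u = r0
  u1 : lam (G.e u) = r1
  lu : ∀ w, lam w = r0 → w = u
  le : ∀ w, lam w = r1 → w = G.e u
  lb : ∀ v w, v ≠ u → v ≠ G.e u → (lam v = lam w ↔ w = v ∨ w = G.e v)
  ge : ∀ w, w ≠ u → w ≠ G.e u → N ≤ lam w

theorem Ro.cases {G : Gr V n} {u : V} {lam : V → ℕ} {ws : List V} {ls : List ℕ} {vs : List Tri}
    {N r0 r1 : ℕ} (R : Ro G u lam ws ls vs N r0 r1) (v : V) :
    (v = u ∧ lam v = r0) ∨ (v = G.e u ∧ lam v = r1) ∨ (v ≠ u ∧ v ≠ G.e u ∧ N ≤ lam v) := by
  by_cases h1 : v = u
  · subst h1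
    exact Or.inl ⟨rfl, R.u0⟩
  by_cases h2 : v = G.e u
  · subst h2
    exact Or.inr (Or.inl ⟨rfl, R.u1⟩)
  · exact Or.inr (Or.inr ⟨h1, h2, R.ge v h1 h2⟩)

/-- The cut is read from the other side. -/
theorem Ro.swap {G : Gr V n} {u : V} {lam : V → ℕ} {ws : List V} {ls : List ℕ} {vs : List Tri}
    {N r0 r1 : ℕ} (R : Ro G u lam ws ls vs N r0 r1) : Ro G (G.e u) lam ws ls vs N r1 r0 := by
  refine ⟨R.rv, R.u1, by rw [G.e2]; exact R.u0, R.le, fun w hw => by rw [G.e2]; exact R.lu w hw,
    fun v w h1 h2 => R.lb v w (by rw [G.e2] at h2; exact h2) h1,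
    fun w h1 h2 => R.ge w (by rw [G.e2] at h2; exact h2) h1⟩

/-- Labels on four half-edges. -/
def m4 (a b c d : ℕ) : Fin 4 → ℕ := ![a, b, c, d]

def m6 (a b c d e f : ℕ) : Fin 6 → ℕ := ![a, b, c, d, e, f]

theorem Ro.hair {G : Gr V n} {u : V} {lam : V → ℕ} {ws : List V} {ls : List ℕ} {vs : List Tri}
    {N r0 r1 : ℕ} (h0 : r0 < N) (h1 : r1 < N) (h01 : r0 ≠ r1)
    (R : Ro G u lam ws ls vs (N + 2) (N + 1) r1) :
    Ro (cs G u bs 2) (Sum.inr 1) (Sum.elim lam (m4 N r0 (N + 1) N))
      ([0].map Sum.inr ++ ws.map Sum.inl) (N :: ls) ((N, r0, N + 1) :: vs) N r0 r1 := by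
  have e1 : (cs G u bs 2).e (Sum.inr 1) = Sum.inl (G.e u) := cs_eea G u bs 2
  have e2 : (cs G u bs 2).e (Sum.inl u) = Sum.inr 2 := cs_eu G u bs 2
  have e3 : (cs G u bs 2).e (Sum.inr 2) = Sum.inl u := cs_ea G u bs 2
  have e4 : (cs G u bs 2).e (Sum.inr 0) = Sum.inr 3 := cs_er (by decide) (by decide)
  have e5 : (cs G u bs 2).e (Sum.inr 3) = Sum.inr 0 := cs_er (by decide) (by decide)
  have m0 : m4 N r0 (N + 1) N 0 = N := rfl
  have m1 : m4 N r0 (N + 1) N 1 = r0 := rfl
  have m2 : m4 N r0 (N + 1) N 2 = N + 1 := rfl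
  have m3 : m4 N r0 (N + 1) N 3 = N := rfl
  refine ⟨(R.rv.cs (rv_bs _)), rfl, ?_, ?_, ?_, ?_, ?_⟩
  · rw [e1]
    exact R.u1
  · rintro (v | w) h
    · have h' : lam v = r0 := h
      rcases R.cases v with ⟨_, h2⟩ | ⟨_, h2⟩ | ⟨_, _, h2⟩ <;> omega
    · have h' : m4 N r0 (N + 1) N w = r0 := h
      fin_cases w
      · exact absurd (m0.symm.trans h') (by omega)
      · rfl
      · exact absurd (m2.symm.trans h') (by omega)
      · exact absurd (m3.symm.trans h') (by omega)
  · rw [e1]
    rintro (v | w) h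
    · have h' : lam v = r1 := h
      rw [R.le v h']
    · have h' : m4 N r0 (N + 1) N w = r1 := h
      fin_cases w
      · exact absurd (m0.symm.trans h') (by omega)
      · exact absurd (m1.symm.trans h') h01
      · exact absurd (m2.symm.trans h') (by omega)
      · exact absurd (m3.symm.trans h') (by omega)
  · rw [e1]
    rintro (v | v) w hv hv'
    · have nv : v ≠ G.e u := fun h => hv' (congrArg Sum.inl h)
      by_cases hu : v = u
      · subst hu
        rw [e2]
        rcases w with w | w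
        · constructor
          · intro h
            have h' : lam v = lam w := h
            left
            rw [R.lu w (h'.symm.trans R.u0)]
          · rintro (h | h)
            · rw [h]
            · exact absurd h Sum.inl_ne_inr
        · have h2 : (Sum.elim lam (m4 N r0 (N + 1) N) (Sum.inl v) =
              Sum.elim lam (m4 N r0 (N + 1) N) (Sum.inr w)) ↔
              N + 1 = m4 N r0 (N + 1) N w := by
            show lam v = _ ↔ _
            rw [R.u0]
            exact Iff.rfl
          rw [h2]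
          constructor
          · intro h
            right
            fin_cases w
            · exact absurd (h.trans m0) (by omega)
            · exact absurd (h.trans m1) (by omega)
            · rfl
            · exact absurd (h.trans m3) (by omega)
          · rintro (h | h)
            · exact absurd h Sum.inr_ne_inl
            · rw [Sum.inr_injective h, m2]
      · rw [cs_el hu nv]
        have hN := R.ge v hu nv
        rcases w with w | w
        · have h2 := R.lb v w hu nv
          constructor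
          · intro h
            rcases h2.1 h with h3 | h3
            · exact Or.inl (congrArg Sum.inl h3)
            · exact Or.inr (congrArg Sum.inl h3)
          · rintro (h | h)
            · exact h2.2 (Or.inl (Sum.inl_injective h))
            · exact h2.2 (Or.inr (Sum.inl_injective h))
        · constructor
          · intro h
            exfalso
            have h' : lam v = m4 N r0 (N + 1) N w := h
            fin_cases w
            · have := h'.trans m0
              omega
            · have := h'.trans m1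
              omega
            · have := h'.trans m2
              omega
            · have := h'.trans m3
              omega
          · rintro (h | h)
            · exact absurd h Sum.inr_ne_inl
            · exact absurd h Sum.inr_ne_inl
    · rcases w with w | w
      · have h2 : (Sum.elim lam (m4 N r0 (N + 1) N) (Sum.inr v) =
            Sum.elim lam (m4 N r0 (N + 1) N) (Sum.inl w)) ↔ m4 N r0 (N + 1) N v = lam w := Iff.rfl
        rw [h2]
        have hw := R.cases w
        fin_cases v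
        · show m4 N r0 (N + 1) N 0 = _ ↔ Sum.inl w = Sum.inr 0 ∨ _ = (cs G u bs 2).e (Sum.inr 0)
          rw [e4, m0]
          refine iff_of_false (by omega) ?_
          rintro (h | h)
          · exact absurd h Sum.inl_ne_inr
          · exact absurd h Sum.inl_ne_inr
        · exact absurd rfl hv
        · show m4 N r0 (N + 1) N 2 = _ ↔ Sum.inl w = Sum.inr 2 ∨ _ = (cs G u bs 2).e (Sum.inr 2)
          rw [e3, m2]
          constructor
          · intro h
            rw [R.lu w h.symm]
            exact Or.inr rfl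
          · rintro (h | h)
            · exact absurd h Sum.inl_ne_inr
            · rw [Sum.inl_injective h, R.u0]
        · show m4 N r0 (N + 1) N 3 = _ ↔ Sum.inl w = Sum.inr 3 ∨ _ = (cs G u bs 2).e (Sum.inr 3)
          rw [e5, m3]
          refine iff_of_false (by omega) ?_
          rintro (h | h)
          · exact absurd h Sum.inl_ne_inr
          · exact absurd h Sum.inl_ne_inr
      · have h2 : (Sum.elim lam (m4 N r0 (N + 1) N) (Sum.inr v) =
            Sum.elim lam (m4 N r0 (N + 1) N) (Sum.inr w)) ↔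
            m4 N r0 (N + 1) N v = m4 N r0 (N + 1) N w := Iff.rfl
        rw [h2]
        have h3 : ∀ x y : Fin 4, (Sum.inr x : V ⊕ Fin 4) = Sum.inr y ↔ x = y :=
          fun x y => Sum.inr.inj_iff
        fin_cases v
        · show m4 N r0 (N + 1) N 0 = _ ↔ Sum.inr w = Sum.inr 0 ∨ _ = (cs G u bs 2).e (Sum.inr 0)
          rw [e4, h3, h3]
          fin_cases w <;> (simp [m4]; try omega)
        · exact absurd rfl hv
        · show m4 N r0 (N + 1) N 2 = _ ↔ Sum.inr w = Sum.inr 2 ∨ _ = (cs G u bs 2).e (Sum.inr 2)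
          rw [e3, h3]
          fin_cases w <;> (simp [m4]; try omega)
        · show m4 N r0 (N + 1) N 3 = _ ↔ Sum.inr w = Sum.inr 3 ∨ _ = (cs G u bs 2).e (Sum.inr 3)
          rw [e5, h3, h3]
          fin_cases w <;> (simp [m4]; try omega)
  · rw [e1]
    rintro (v | w) hw hw'
    · show N ≤ lam v
      have h2 : v ≠ G.e u := fun h => hw' (congrArg Sum.inl h)
      rcases R.cases v with ⟨_, h2⟩ | ⟨h3, _⟩ | ⟨_, _, h2⟩
      · omega
      · exact absurd h3 h2
      · omega
    · show N ≤ m4 N r0 (N + 1) N w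
      fin_cases w
      · exact le_of_eq m0.symm
      · exact absurd rfl hw
      · exact (Nat.le_succ N).trans (le_of_eq m2.symm)
      · exact le_of_eq m3.symm

theorem Ro.rung {G : Gr V n} {u : V} {lam : V → ℕ} {ws : List V} {ls : List ℕ} {vs : List Tri}
    {N r0 r1 : ℕ} (h0 : r0 < N) (h1 : r1 < N) (h01 : r0 ≠ r1)
    (R : Ro G u lam ws ls vs (N + 3) (N + 1) (N + 2)) :
    Ro (cs G u th 2) (Sum.inr 1) (Sum.elim lam (m6 N r0 (N + 1) N r1 (N + 2)))
      ([0, 3].map Sum.inr ++ ws.map Sum.inl) ls ((N, r0, N + 1) :: (N, r1, N + 2) :: vs)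
      N r0 r1 := by
  have e1 : (cs G u th 2).e (Sum.inr 1) = Sum.inr 4 := cs_er (by decide) (by decide)
  have e2 : (cs G u th 2).e (Sum.inl u) = Sum.inr 2 := cs_eu G u th 2
  have e3 : (cs G u th 2).e (Sum.inl (G.e u)) = Sum.inr 5 := cs_eeu G u th 2
  have e4 : (cs G u th 2).e (Sum.inr 0) = Sum.inr 3 := cs_er (by decide) (by decide)
  have e5 : (cs G u th 2).e (Sum.inr 3) = Sum.inr 0 := cs_er (by decide) (by decide)
  have e6 : (cs G u th 2).e (Sum.inr 2) = Sum.inl u := cs_ea G u th 2
  have e7 : (cs G u th 2).e (Sum.inr 5) = Sum.inl (G.e u) := cs_eea G u th 2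
  have m0 : m6 N r0 (N + 1) N r1 (N + 2) 0 = N := rfl
  have m1 : m6 N r0 (N + 1) N r1 (N + 2) 1 = r0 := rfl
  have m2 : m6 N r0 (N + 1) N r1 (N + 2) 2 = N + 1 := rfl
  have m3 : m6 N r0 (N + 1) N r1 (N + 2) 3 = N := rfl
  have m4 : m6 N r0 (N + 1) N r1 (N + 2) 4 = r1 := rfl
  have m5 : m6 N r0 (N + 1) N r1 (N + 2) 5 = N + 2 := rfl
  generalize hmu : m6 N r0 (N + 1) N r1 (N + 2) = mu at *
  have hlr : ∀ (v : V) (w : Fin 6), lam v = mu w ↔ (v = u ∧ w = 2) ∨ (v = G.e u ∧ w = 5) := by
    intro v w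
    constructor
    · intro h
      rcases R.cases v with ⟨h3, h4⟩ | ⟨h3, h4⟩ | ⟨h3, h3', h4⟩
      · refine Or.inl ⟨h3, ?_⟩
        fin_cases w
        · exact absurd (h.trans m0) (by omega)
        · exact absurd (h.trans m1) (by omega)
        · rfl
        · exact absurd (h.trans m3) (by omega)
        · exact absurd (h.trans m4) (by omega)
        · exact absurd (h.trans m5) (by omega)
      · refine Or.inr ⟨h3, ?_⟩
        fin_cases w
        · exact absurd (h.trans m0) (by omega)
        · exact absurd (h.trans m1) (by omega)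
        · exact absurd (h.trans m2) (by omega)
        · exact absurd (h.trans m3) (by omega)
        · exact absurd (h.trans m4) (by omega)
        · rfl
      · exfalso
        fin_cases w
        · exact absurd (h.trans m0) (by omega)
        · exact absurd (h.trans m1) (by omega)
        · exact absurd (h.trans m2) (by omega)
        · exact absurd (h.trans m3) (by omega)
        · exact absurd (h.trans m4) (by omega)
        · exact absurd (h.trans m5) (by omega)
    · rintro (⟨rfl, rfl⟩ | ⟨rfl, rfl⟩)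
      · rw [R.u0, m2]
      · rw [R.u1, m5]
  have hrr : ∀ v w : Fin 6, mu v = mu w ↔ v = w ∨ (v = 0 ∧ w = 3) ∨ (v = 3 ∧ w = 0) := by
    intro v w
    fin_cases v <;> fin_cases w <;>
      simp only [Fin.zero_eta, Fin.mk_one, Fin.reduceFinMk, m0, m1, m2, m3, m4, m5] <;>
      simp <;> omega
  have nel : ∀ (v : V) (w : Fin 6), (Sum.inl v : V ⊕ Fin 6) = Sum.inr w ↔ False :=
    fun _ _ => iff_of_false Sum.inl_ne_inr id
  have ner : ∀ (v : V) (w : Fin 6), (Sum.inr w : V ⊕ Fin 6) = Sum.inl v ↔ False :=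
    fun _ _ => iff_of_false Sum.inr_ne_inl id
  refine ⟨?_, ?_, ?_, ?_, ?_, ?_, ?_⟩
  · have h2 := R.rv.cs (u := u) (a := 2) (rv_th mu)
    rw [m0, m1, m2, m3, m4, m5] at h2
    exact h2
  · exact m1
  · rw [e1]
    exact m4
  · rintro (v | w) h
    · have h' : lam v = mu 1 := h.trans m1.symm
      rw [hlr] at h'
      rcases h' with ⟨_, h2⟩ | ⟨_, h2⟩ <;> exact absurd h2 (by decide)
    · have h' : mu w = mu 1 := h.trans m1.symm
      rw [hrr] at h'
      rcases h' with h2 | ⟨_, h2⟩ | ⟨_, h2⟩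
      · rw [h2]
      · exact absurd h2 (by decide)
      · exact absurd h2 (by decide)
  · rw [e1]
    rintro (v | w) h
    · have h' : lam v = mu 4 := h.trans m4.symm
      rw [hlr] at h'
      rcases h' with ⟨_, h2⟩ | ⟨_, h2⟩ <;> exact absurd h2 (by decide)
    · have h' : mu w = mu 4 := h.trans m4.symm
      rw [hrr] at h'
      rcases h' with h2 | ⟨_, h2⟩ | ⟨_, h2⟩
      · rw [h2]
      · exact absurd h2 (by decide)
      · exact absurd h2 (by decide)
  · rw [e1]
    rintro (v | v) (w | w) hv hv'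
    · show lam v = lam w ↔ _
      rw [Sum.inl.inj_iff]
      by_cases hu : v = u
      · subst hu
        rw [e2, nel, or_false, R.u0]
        exact ⟨fun h => R.lu w h.symm, fun h => by rw [h, R.u0]⟩
      by_cases hu' : v = G.e u
      · subst hu'
        rw [e3, nel, or_false, R.u1]
        exact ⟨fun h => R.le w h.symm, fun h => by rw [h, R.u1]⟩
      · rw [cs_el hu hu', Sum.inl.inj_iff]
        exact R.lb v w hu hu'
    · show lam v = mu w ↔ _
      rw [hlr, ner, false_or]
      by_cases hu : v = u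
      · subst hu
        rw [e2, Sum.inr.inj_iff]
        constructor
        · rintro (⟨_, h⟩ | ⟨h, _⟩)
          · exact h
          · exact absurd h.symm (G.e1 v)
        · intro h
          exact Or.inl ⟨rfl, h⟩
      by_cases hu' : v = G.e u
      · subst hu'
        rw [e3, Sum.inr.inj_iff]
        constructor
        · rintro (⟨h, _⟩ | ⟨_, h⟩)
          · exact absurd h (G.e1 u)
          · exact h
        · intro h
          exact Or.inr ⟨rfl, h⟩
      · rw [cs_el hu hu', ner]
        refine iff_of_false ?_ id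
        rintro (⟨h, _⟩ | ⟨h, _⟩)
        · exact hu h
        · exact hu' h
    · show mu v = lam w ↔ _
      rw [eq_comm, hlr, nel, false_or]
      have hv1 : v ≠ 1 := fun h => hv (congrArg Sum.inr h)
      have hv4 : v ≠ 4 := fun h => hv' (congrArg Sum.inr h)
      fin_cases v
      · show _ ↔ _ = (cs G u th 2).e (Sum.inr 0)
        rw [e4, nel]
        exact iff_of_false (by rintro (⟨_, h⟩ | ⟨_, h⟩) <;> exact absurd h (by decide)) id
      · exact absurd rfl hv1
      · show _ ↔ _ = (cs G u th 2).e (Sum.inr 2)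
        rw [e6, Sum.inl.inj_iff]
        constructor
        · rintro (⟨h, _⟩ | ⟨_, h⟩)
          · exact h
          · exact absurd h (by decide)
        · exact fun h => Or.inl ⟨h, rfl⟩
      · show _ ↔ _ = (cs G u th 2).e (Sum.inr 3)
        rw [e5, nel]
        exact iff_of_false (by rintro (⟨_, h⟩ | ⟨_, h⟩) <;> exact absurd h (by decide)) id
      · exact absurd rfl hv4
      · show _ ↔ _ = (cs G u th 2).e (Sum.inr 5)
        rw [e7, Sum.inl.inj_iff]
        constructor
        · rintro (⟨_, h⟩ | ⟨h, _⟩)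
          · exact absurd h (by decide)
          · exact h
        · exact fun h => Or.inr ⟨h, rfl⟩
    · show mu v = mu w ↔ _
      rw [hrr]
      have hv1 : v ≠ 1 := fun h => hv (congrArg Sum.inr h)
      have hv4 : v ≠ 4 := fun h => hv' (congrArg Sum.inr h)
      rw [Sum.inr.inj_iff]
      fin_cases v
      · show _ ↔ _ ∨ _ = (cs G u th 2).e (Sum.inr 0)
        rw [e4, Sum.inr.inj_iff]
        revert w
        decide
      · exact absurd rfl hv1
      · show _ ↔ _ ∨ _ = (cs G u th 2).e (Sum.inr 2)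
        rw [e6, ner]
        revert w
        decide
      · show _ ↔ _ ∨ _ = (cs G u th 2).e (Sum.inr 3)
        rw [e5, Sum.inr.inj_iff]
        revert w
        decide
      · exact absurd rfl hv4
      · show _ ↔ _ ∨ _ = (cs G u th 2).e (Sum.inr 5)
        rw [e7, ner]
        revert w
        decide
  · rw [e1]
    rintro (v | w) hw hw'
    · show N ≤ lam v
      rcases R.cases v with ⟨_, h2⟩ | ⟨_, h2⟩ | ⟨_, _, h2⟩ <;> omega
    · show N ≤ mu w
      fin_cases w
      · exact le_of_eq m0.symm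
      · exact absurd rfl hw
      · exact (Nat.le_add_right N 1).trans (le_of_eq m2.symm)
      · exact le_of_eq m3.symm
      · exact absurd rfl hw'
      · exact (Nat.le_add_right N 2).trans (le_of_eq m5.symm)

theorem Ro.bub {G : Gr V n} {u : V} {lam : V → ℕ} {ws : List V} {ls : List ℕ} {vs : List Tri}
    {N r0 r1 : ℕ} (h0 : r0 < N) (h1 : r1 < N) (h01 : r0 ≠ r1)
    (R : Ro G u lam ws ls vs (N + 3) (N + 2) r1) :
    Ro (cs G u th 3) (Sum.inr 0) (Sum.elim lam (m6 r0 N (N + 1) (N + 2) N (N + 1)))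
      ([0, 3].map Sum.inr ++ ws.map Sum.inl) ls ((r0, N, N + 1) :: (N + 2, N, N + 1) :: vs)
      N r0 r1 := by
  have e1 : (cs G u th 3).e (Sum.inr 0) = Sum.inl (G.e u) := cs_eea G u th 3
  have e2 : (cs G u th 3).e (Sum.inl u) = Sum.inr 3 := cs_eu G u th 3
  have e4 : (cs G u th 3).e (Sum.inr 3) = Sum.inl u := cs_ea G u th 3
  have e5 : (cs G u th 3).e (Sum.inr 1) = Sum.inr 4 := cs_er (by decide) (by decide)
  have e6 : (cs G u th 3).e (Sum.inr 4) = Sum.inr 1 := cs_er (by decide) (by decide)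
  have e7 : (cs G u th 3).e (Sum.inr 2) = Sum.inr 5 := cs_er (by decide) (by decide)
  have e8 : (cs G u th 3).e (Sum.inr 5) = Sum.inr 2 := cs_er (by decide) (by decide)
  have m0 : m6 r0 N (N + 1) (N + 2) N (N + 1) 0 = r0 := rfl
  have m1 : m6 r0 N (N + 1) (N + 2) N (N + 1) 1 = N := rfl
  have m2 : m6 r0 N (N + 1) (N + 2) N (N + 1) 2 = N + 1 := rfl
  have m3 : m6 r0 N (N + 1) (N + 2) N (N + 1) 3 = N + 2 := rfl
  have m4 : m6 r0 N (N + 1) (N + 2) N (N + 1) 4 = N := rfl
  have m5 : m6 r0 N (N + 1) (N + 2) N (N + 1) 5 = N + 1 := rfl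
  generalize hmu : m6 r0 N (N + 1) (N + 2) N (N + 1) = mu at *
  have hlr : ∀ (v : V) (w : Fin 6), lam v = mu w ↔ (v = u ∧ w = 3) := by
    intro v w
    constructor
    · intro h
      rcases R.cases v with ⟨h3, h4⟩ | ⟨h3, h4⟩ | ⟨h3, h3', h4⟩
      · refine ⟨h3, ?_⟩
        fin_cases w
        · exact absurd (h.trans m0) (by omega)
        · exact absurd (h.trans m1) (by omega)
        · exact absurd (h.trans m2) (by omega)
        · rfl
        · exact absurd (h.trans m4) (by omega)
        · exact absurd (h.trans m5) (by omega)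
      · exfalso
        fin_cases w
        · exact absurd (h.trans m0) (by omega)
        · exact absurd (h.trans m1) (by omega)
        · exact absurd (h.trans m2) (by omega)
        · exact absurd (h.trans m3) (by omega)
        · exact absurd (h.trans m4) (by omega)
        · exact absurd (h.trans m5) (by omega)
      · exfalso
        fin_cases w
        · exact absurd (h.trans m0) (by omega)
        · exact absurd (h.trans m1) (by omega)
        · exact absurd (h.trans m2) (by omega)
        · exact absurd (h.trans m3) (by omega)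
        · exact absurd (h.trans m4) (by omega)
        · exact absurd (h.trans m5) (by omega)
    · rintro ⟨rfl, rfl⟩
      rw [R.u0, m3]
  have hrr : ∀ v w : Fin 6, mu v = mu w ↔ v = w ∨ (v = 1 ∧ w = 4) ∨ (v = 4 ∧ w = 1) ∨
      (v = 2 ∧ w = 5) ∨ (v = 5 ∧ w = 2) := by
    intro v w
    fin_cases v <;> fin_cases w <;>
      simp only [Fin.zero_eta, Fin.mk_one, Fin.reduceFinMk, m0, m1, m2, m3, m4, m5] <;>
      simp <;> omega
  have nel : ∀ (v : V) (w : Fin 6), (Sum.inl v : V ⊕ Fin 6) = Sum.inr w ↔ False :=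
    fun _ _ => iff_of_false Sum.inl_ne_inr id
  have ner : ∀ (v : V) (w : Fin 6), (Sum.inr w : V ⊕ Fin 6) = Sum.inl v ↔ False :=
    fun _ _ => iff_of_false Sum.inr_ne_inl id
  refine ⟨?_, ?_, ?_, ?_, ?_, ?_, ?_⟩
  · have h2 := R.rv.cs (u := u) (a := 3) (rv_th mu)
    rw [m0, m1, m2, m3, m4, m5] at h2
    exact h2
  · exact m0
  · rw [e1]
    exact R.u1
  · rintro (v | w) h
    · have h' : lam v = mu 0 := h.trans m0.symm
      rw [hlr] at h'
      exact absurd h'.2 (by decide)
    · have h' : mu w = mu 0 := h.trans m0.symm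
      rw [hrr] at h'
      rcases h' with h2 | ⟨_, h2⟩ | ⟨_, h2⟩ | ⟨_, h2⟩ | ⟨_, h2⟩
      · rw [h2]
      all_goals exact absurd h2 (by decide)
  · rw [e1]
    rintro (v | w) h
    · have h' : lam v = r1 := h
      rw [R.le v h']
    · have h' : mu w = r1 := h
      fin_cases w
      · exact absurd (m0.symm.trans h') h01
      · exact absurd (m1.symm.trans h') (by omega)
      · exact absurd (m2.symm.trans h') (by omega)
      · exact absurd (m3.symm.trans h') (by omega)
      · exact absurd (m4.symm.trans h') (by omega)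
      · exact absurd (m5.symm.trans h') (by omega)
  · rw [e1]
    rintro (v | v) (w | w) hv hv'
    · show lam v = lam w ↔ _
      rw [Sum.inl.inj_iff]
      have hu' : v ≠ G.e u := fun h => hv' (congrArg Sum.inl h)
      by_cases hu : v = u
      · subst hu
        rw [e2, nel, or_false, R.u0]
        exact ⟨fun h => R.lu w h.symm, fun h => by rw [h, R.u0]⟩
      · rw [cs_el hu hu', Sum.inl.inj_iff]
        exact R.lb v w hu hu'
    · show lam v = mu w ↔ _
      rw [hlr, ner, false_or]
      have hu' : v ≠ G.e u := fun h => hv' (congrArg Sum.inl h)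
      by_cases hu : v = u
      · subst hu
        rw [e2, Sum.inr.inj_iff]
        exact ⟨fun h => h.2, fun h => ⟨rfl, h⟩⟩
      · rw [cs_el hu hu', ner]
        exact iff_of_false (fun h => hu h.1) id
    · show mu v = lam w ↔ _
      rw [eq_comm, hlr, nel, false_or]
      have hv0 : v ≠ 0 := fun h => hv (congrArg Sum.inr h)
      fin_cases v
      · exact absurd rfl hv0
      · show _ ↔ _ = (cs G u th 3).e (Sum.inr 1)
        rw [e5, nel]
        exact iff_of_false (fun h => absurd h.2 (by decide)) id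
      · show _ ↔ _ = (cs G u th 3).e (Sum.inr 2)
        rw [e7, nel]
        exact iff_of_false (fun h => absurd h.2 (by decide)) id
      · show _ ↔ _ = (cs G u th 3).e (Sum.inr 3)
        rw [e4, Sum.inl.inj_iff]
        exact ⟨fun h => h.1, fun h => ⟨h, rfl⟩⟩
      · show _ ↔ _ = (cs G u th 3).e (Sum.inr 4)
        rw [e6, nel]
        exact iff_of_false (fun h => absurd h.2 (by decide)) id
      · show _ ↔ _ = (cs G u th 3).e (Sum.inr 5)
        rw [e8, nel]
        exact iff_of_false (fun h => absurd h.2 (by decide)) id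
    · show mu v = mu w ↔ _
      rw [hrr]
      have hv0 : v ≠ 0 := fun h => hv (congrArg Sum.inr h)
      rw [Sum.inr.inj_iff]
      fin_cases v
      · exact absurd rfl hv0
      · show _ ↔ _ ∨ _ = (cs G u th 3).e (Sum.inr 1)
        rw [e5, Sum.inr.inj_iff]
        revert w
        decide
      · show _ ↔ _ ∨ _ = (cs G u th 3).e (Sum.inr 2)
        rw [e7, Sum.inr.inj_iff]
        revert w
        decide
      · show _ ↔ _ ∨ _ = (cs G u th 3).e (Sum.inr 3)
        rw [e4, ner]
        revert w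
        decide
      · show _ ↔ _ ∨ _ = (cs G u th 3).e (Sum.inr 4)
        rw [e6, Sum.inr.inj_iff]
        revert w
        decide
      · show _ ↔ _ ∨ _ = (cs G u th 3).e (Sum.inr 5)
        rw [e8, Sum.inr.inj_iff]
        revert w
        decide
  · rw [e1]
    rintro (v | w) hw hw'
    · show N ≤ lam v
      have h2 : v ≠ G.e u := fun h => hw' (congrArg Sum.inl h)
      rcases R.cases v with ⟨_, h3⟩ | ⟨h3, _⟩ | ⟨_, _, h3⟩
      · omega
      · exact absurd h3 h2
      · omega
    · show N ≤ mu w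
      fin_cases w
      · exact absurd rfl hw
      · exact le_of_eq m1.symm
      · exact (Nat.le_add_right N 1).trans (le_of_eq m2.symm)
      · exact (Nat.le_add_right N 2).trans (le_of_eq m3.symm)
      · exact le_of_eq m4.symm
      · exact (Nat.le_add_right N 1).trans (le_of_eq m5.symm)

theorem ro_base {N r0 r1 : ℕ} (h0 : r0 < N) (h1 : r1 < N) (h01 : r0 ≠ r1) :
    Ro bs 1 (m4 N r0 r1 N) [0] [N] [(N, r0, r1)] N r0 r1 := by
  have e1 : bs.e 1 = 2 := rfl
  refine ⟨rv_bs _, rfl, rfl, ?_, ?_, ?_, ?_⟩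
  · intro w h
    fin_cases w <;> simp [m4] at h ⊢ <;> omega
  · rw [e1]
    intro w h
    fin_cases w <;> simp [m4] at h ⊢ <;> omega
  · rw [e1]
    intro v w hv hv'
    have e0 : bs.e 0 = 3 := rfl
    have e3 : bs.e 3 = 0 := rfl
    fin_cases v
    · show m4 N r0 r1 N 0 = _ ↔ w = 0 ∨ w = bs.e 0
      rw [e0]
      fin_cases w <;> (simp [m4]; try omega)
    · exact absurd rfl hv
    · exact absurd rfl hv'
    · show m4 N r0 r1 N 3 = _ ↔ w = 3 ∨ w = bs.e 3
      rw [e3]
      fin_cases w <;> (simp [m4]; try omega)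
  · rw [e1]
    intro w hw hw'
    fin_cases w
    · exact le_rfl
    · exact absurd rfl hw
    · exact absurd rfl hw'
    · exact le_rfl

/-- The first vertex. -/
theorem Ro.close {G : Gr V n} {u : V} {lam : V → ℕ} {ws : List V} {ls : List ℕ} {vs : List Tri}
    (R : Ro G u lam ws ls vs 3 1 2) :
    Rg (cs G u bs 1) (Sum.elim lam (m4 0 1 2 0)) ([0].map Sum.inr ++ ws.map Sum.inl) (0 :: ls)
      ((0, 1, 2) :: vs) := by
  have e1 : (cs G u bs 1).e (Sum.inr 1) = Sum.inl u := cs_ea G u bs 1
  have e2 : (cs G u bs 1).e (Sum.inr 2) = Sum.inl (G.e u) := cs_eea G u bs 1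
  have e3 : (cs G u bs 1).e (Sum.inl u) = Sum.inr 1 := cs_eu G u bs 1
  have e4 : (cs G u bs 1).e (Sum.inl (G.e u)) = Sum.inr 2 := cs_eeu G u bs 1
  have e5 : (cs G u bs 1).e (Sum.inr 0) = Sum.inr 3 := cs_er (by decide) (by decide)
  have e6 : (cs G u bs 1).e (Sum.inr 3) = Sum.inr 0 := cs_er (by decide) (by decide)
  have h2 := R.rv.cs (u := u) (a := 1) (rv_bs (m4 0 1 2 0))
  refine ⟨h2.hl, h2.hv, h2.nf, h2.cov, h2.nd, ?_⟩
  have hlr : ∀ (v : V) (w : Fin 4), lam v = m4 0 1 2 0 w ↔
      (v = u ∧ w = 1) ∨ (v = G.e u ∧ w = 2) := by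
    intro v w
    constructor
    · intro h
      rcases R.cases v with ⟨h3, h4⟩ | ⟨h3, h4⟩ | ⟨h3, h3', h4⟩
      · refine Or.inl ⟨h3, ?_⟩
        rw [h4] at h
        revert h
        revert w
        decide
      · refine Or.inr ⟨h3, ?_⟩
        rw [h4] at h
        revert h
        revert w
        decide
      · exfalso
        have h5 : ∀ w : Fin 4, m4 0 1 2 0 w < 3 := by decide
        have := h5 w
        omega
    · rintro (⟨rfl, rfl⟩ | ⟨rfl, rfl⟩)
      · rw [R.u0]
        rfl
      · rw [R.u1]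
        rfl
  have nel : ∀ (v : V) (w : Fin 4), (Sum.inl v : V ⊕ Fin 4) = Sum.inr w ↔ False :=
    fun _ _ => iff_of_false Sum.inl_ne_inr id
  have ner : ∀ (v : V) (w : Fin 4), (Sum.inr w : V ⊕ Fin 4) = Sum.inl v ↔ False :=
    fun _ _ => iff_of_false Sum.inr_ne_inl id
  rintro (v | v) (w | w)
  · show lam v = lam w ↔ _
    rw [Sum.inl.inj_iff]
    by_cases hu : v = u
    · subst hu
      rw [e3, nel, or_false, R.u0]
      exact ⟨fun h => R.lu w h.symm, fun h => by rw [h, R.u0]⟩
    by_cases hu' : v = G.e u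
    · subst hu'
      rw [e4, nel, or_false, R.u1]
      exact ⟨fun h => R.le w h.symm, fun h => by rw [h, R.u1]⟩
    · rw [cs_el hu hu', Sum.inl.inj_iff]
      exact R.lb v w hu hu'
  · show lam v = m4 0 1 2 0 w ↔ _
    rw [hlr, ner, false_or]
    by_cases hu : v = u
    · subst hu
      rw [e3, Sum.inr.inj_iff]
      constructor
      · rintro (⟨_, h⟩ | ⟨h, _⟩)
        · exact h
        · exact absurd h.symm (G.e1 v)
      · intro h
        exact Or.inl ⟨rfl, h⟩
    by_cases hu' : v = G.e u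
    · subst hu'
      rw [e4, Sum.inr.inj_iff]
      constructor
      · rintro (⟨h, _⟩ | ⟨_, h⟩)
        · exact absurd h (G.e1 u)
        · exact h
      · intro h
        exact Or.inr ⟨rfl, h⟩
    · rw [cs_el hu hu', ner]
      refine iff_of_false ?_ id
      rintro (⟨h, _⟩ | ⟨h, _⟩)
      · exact hu h
      · exact hu' h
  · show m4 0 1 2 0 v = lam w ↔ _
    rw [eq_comm, hlr, nel, false_or]
    fin_cases v
    · show _ ↔ _ = (cs G u bs 1).e (Sum.inr 0)
      rw [e5, nel]
      exact iff_of_false (by rintro (⟨_, h⟩ | ⟨_, h⟩) <;> exact absurd h (by decide)) id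
    · show _ ↔ _ = (cs G u bs 1).e (Sum.inr 1)
      rw [e1, Sum.inl.inj_iff]
      constructor
      · rintro (⟨h, _⟩ | ⟨_, h⟩)
        · exact h
        · exact absurd h (by decide)
      · exact fun h => Or.inl ⟨h, rfl⟩
    · show _ ↔ _ = (cs G u bs 1).e (Sum.inr 2)
      rw [e2, Sum.inl.inj_iff]
      constructor
      · rintro (⟨_, h⟩ | ⟨h, _⟩)
        · exact absurd h (by decide)
        · exact h
      · exact fun h => Or.inr ⟨h, rfl⟩
    · show _ ↔ _ = (cs G u bs 1).e (Sum.inr 3)
      rw [e6, nel]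
      exact iff_of_false (by rintro (⟨_, h⟩ | ⟨_, h⟩) <;> exact absurd h (by decide)) id
  · show m4 0 1 2 0 v = m4 0 1 2 0 w ↔ _
    rw [Sum.inr.inj_iff]
    fin_cases v
    · show _ ↔ _ ∨ _ = (cs G u bs 1).e (Sum.inr 0)
      rw [e5, Sum.inr.inj_iff]
      revert w
      decide
    · show _ ↔ _ ∨ _ = (cs G u bs 1).e (Sum.inr 1)
      rw [e1, ner]
      revert w
      decide
    · show _ ↔ _ ∨ _ = (cs G u bs 1).e (Sum.inr 2)
      rw [e2, ner]
      revert w
      decide
    · show _ ↔ _ ∨ _ = (cs G u bs 1).e (Sum.inr 3)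
      rw [e6, Sum.inr.inj_iff]
      revert w
      decide

/-! ### Connectedness -/

/-- The graph which is cut at the edge of `u` is connected. -/
def CC (G : Gr V n) (u : V) : Prop := ∀ S : Set V, (∀ v ∈ S, G.r v ∈ S) →
  (∀ v ∈ S, v ≠ u → v ≠ G.e u → G.e v ∈ S) → S.Nonempty → S = Set.univ

theorem CC.swap {G : Gr V n} {u : V} (h : CC G u) : CC G (G.e u) := by
  intro S h1 h2 h3
  refine h S h1 (fun v hv h4 h5 => h2 v hv h5 ?_) h3
  rw [G.e2]
  exact h4

/-- The graph is connected after the edges of `a` and `c` are cut. -/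
def CK (K : Gr W m) (a c : W) : Prop := ∀ S : Set W, (∀ v ∈ S, K.r v ∈ S) →
  (∀ v ∈ S, v ≠ a → v ≠ K.e a → v ≠ c → v ≠ K.e c → K.e v ∈ S) → S.Nonempty → S = Set.univ

theorem CC.cs {G : Gr V n} {u : V} {K : Gr W m} {a c : W} (hG : CC G u) (hK : CK K a c)
    (hc : c ≠ a) : CC (cs G u K a) (Sum.inr c) := by
  intro S h1 h2 h3
  have hec : ∀ v : V, v ≠ G.e u → (Sum.inl v : V ⊕ W) ≠ (SWT85.cs G u K a).e (Sum.inr c) := by
    intro v hv
    by_cases h : c = K.e a
    · rw [h, cs_eea]
      exact fun h' => hv (Sum.inl_injective h')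
    · rw [cs_er hc h]
      exact Sum.inl_ne_inr
  have hew : ∀ w : W, w ≠ K.e c → w ≠ c →
      (Sum.inr w : V ⊕ W) ≠ (SWT85.cs G u K a).e (Sum.inr c) := by
    intro w hw hw'
    by_cases h : c = K.e a
    · rw [h, cs_eea]
      exact Sum.inr_ne_inl
    · rw [cs_er hc h]
      exact fun h' => hw (Sum.inr_injective h')
  have hua : Sum.inl u ∈ S → Sum.inr a ∈ S := by
    intro h
    have h4 := h2 _ h Sum.inl_ne_inr (hec u (G.e1 u).symm)
    rw [cs_eu] at h4
    exact h4
  have hau : Sum.inr a ∈ S → Sum.inl u ∈ S := by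
    intro h
    have h4 := h2 _ h (fun h' => hc (Sum.inr_injective h').symm) (by
      by_cases h5 : c = K.e a
      · rw [h5, cs_eea]
        exact Sum.inr_ne_inl
      · rw [cs_er hc h5]
        intro h'
        apply h5
        rw [Sum.inr_injective h', K.e2])
    rw [cs_ea] at h4
    exact h4
  have sV : (Sum.inl ⁻¹' S : Set V).Nonempty → Sum.inl ⁻¹' S = (Set.univ : Set V) := by
    refine hG _ (fun v hv => h1 _ hv) fun v hv n1 n2 => ?_
    have h4 := h2 _ hv Sum.inl_ne_inr (hec v n2)
    rw [cs_el n1 n2] at h4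
    exact h4
  have sW : (Sum.inr ⁻¹' S : Set W).Nonempty → Sum.inr ⁻¹' S = (Set.univ : Set W) := by
    refine hK _ (fun w hw => h1 _ hw) fun w hw n1 n2 n3 n4 => ?_
    have h4 := h2 _ hw (fun h' => n3 (Sum.inr_injective h')) (hew w n4 n3)
    rw [cs_er n1 n2] at h4
    exact h4
  have hV : Sum.inl u ∈ S → Sum.inl ⁻¹' S = (Set.univ : Set V) := fun h => sV ⟨u, h⟩
  have hW : Sum.inr a ∈ S → Sum.inr ⁻¹' S = (Set.univ : Set W) := fun h => sW ⟨a, h⟩
  have hu : Sum.inl u ∈ S := by
    obtain ⟨v | w, hx⟩ := h3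
    · have h4 : u ∈ (Sum.inl ⁻¹' S : Set V) := by
        rw [sV ⟨v, hx⟩]
        trivial
      exact h4
    · have h4 : a ∈ (Sum.inr ⁻¹' S : Set W) := by
        rw [sW ⟨w, hx⟩]
        trivial
      exact hau h4
  ext x
  refine ⟨fun _ => trivial, fun _ => ?_⟩
  rcases x with v | w
  · have h4 : v ∈ (Sum.inl ⁻¹' S : Set V) := by
      rw [hV hu]
      trivial
    exact h4
  · have h4 : w ∈ (Sum.inr ⁻¹' S : Set W) := by
      rw [hW (hua hu)]
      trivial
    exact h4

theorem cc_bs : CC bs 1 := by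
  intro S h1 h2 h3
  have key : ∀ v ∈ S, v = 3 → (0 : Fin 4) ∈ S := fun v hv h => by
    subst h
    exact h2 3 hv (by decide) (by decide)
  have k0 : (0 : Fin 4) ∈ S := by
    obtain ⟨v, hv⟩ := h3
    fin_cases v
    · exact hv
    · exact h1 _ (h1 _ hv)
    · exact h1 _ hv
    · exact key _ hv rfl
  ext v
  refine ⟨fun _ => trivial, fun _ => ?_⟩
  fin_cases v
  · exact k0
  · exact h1 _ k0
  · exact h1 _ (h1 _ k0)
  · exact h2 0 k0 (by decide) (by decide)

theorem ck_bs : CK bs 2 1 := by
  intro S h1 h2 h3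
  refine cc_bs S h1 (fun v hv h4 h5 => h2 v hv h5 h4 h4 h5) h3

theorem ck_th : CK th 2 1 := by
  intro S h1 h2 h3
  have k0 : (0 : Fin 6) ∈ S := by
    obtain ⟨v, hv⟩ := h3
    fin_cases v
    · exact hv
    · exact h1 _ (h1 _ hv)
    · exact h1 _ hv
    · exact h2 3 hv (by decide) (by decide) (by decide) (by decide)
    · exact h2 3 (h1 _ (h1 _ hv)) (by decide) (by decide) (by decide) (by decide)
    · exact h2 3 (h1 _ hv) (by decide) (by decide) (by decide) (by decide)
  have k3 : (3 : Fin 6) ∈ S := h2 0 k0 (by decide) (by decide) (by decide) (by decide)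
  ext v
  refine ⟨fun _ => trivial, fun _ => ?_⟩
  fin_cases v
  · exact k0
  · exact h1 _ k0
  · exact h1 _ (h1 _ k0)
  · exact k3
  · exact h1 _ k3
  · exact h1 _ (h1 _ k3)

theorem ck_th3 : CK th 3 0 := by
  intro S h1 h2 h3
  have k0 : (0 : Fin 6) ∈ S := by
    obtain ⟨v, hv⟩ := h3
    fin_cases v
    · exact hv
    · exact h1 _ (h1 _ hv)
    · exact h1 _ hv
    · exact h1 _ (h1 _ (h2 4 (h1 _ hv) (by decide) (by decide) (by decide) (by decide)))
    · exact h1 _ (h1 _ (h2 4 hv (by decide) (by decide) (by decide) (by decide)))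
    · exact h1 _ (h2 5 hv (by decide) (by decide) (by decide) (by decide))
  have k4 : (4 : Fin 6) ∈ S :=
    h2 1 (h1 _ k0) (by decide) (by decide) (by decide) (by decide)
  ext v
  refine ⟨fun _ => trivial, fun _ => ?_⟩
  fin_cases v
  · exact k0
  · exact h1 _ k0
  · exact h1 _ (h1 _ k0)
  · exact h1 _ (h1 _ k4)
  · exact k4
  · exact h1 _ k4

theorem cs_swap (G : Gr V n) (u : V) (K : Gr W m) (a : W) :
    cs G (G.e u) K (K.e a) = cs G u K a := by
  refine Gr.ext (Equiv.ext fun x => ?_) rfl rfl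
  rw [cs_e, cs_e]
  rcases x with v | w
  · by_cases h : v = u
    · subst h
      have h1 := csf_eu G (G.e v) K (K.e a)
      rw [G.e2, K.e2] at h1
      rw [h1, csf_u]
    by_cases h' : v = G.e u
    · subst h'
      rw [csf_u, csf_eu]
    · rw [csf_l h h', csf_l h' (by rw [G.e2]; exact h)]
  · by_cases h : w = a
    · subst h
      have h1 := csf_ea G (G.e u) K (K.e w)
      rw [G.e2, K.e2] at h1
      rw [h1, csf_a]
    by_cases h' : w = K.e a
    · subst h'
      rw [csf_a, csf_ea]
    · rw [csf_r h h', csf_r h' (by rw [K.e2]; exact h)]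

theorem CC.conn {G : Gr V n} {u : V} (hG : CC G u) : GConn G :=
  fun S hS h => hG S (fun v hv => hS.r v hv) (fun v hv _ _ => hS.e v hv) h

theorem CC.close {G : Gr V n} {u : V} (hG : CC G u) : GConn (SWT85.cs G u bs 1) := by
  rw [← cs_swap G u bs 1]
  exact (hG.swap.cs ck_bs (by decide)).conn

/-! ### Ladders -/

/-- The letters: a leg on the rail `0`, a leg on the rail `1`, a rung, a bubble on the rail `0`,
a bubble on the rail `1`. -/
inductive Ll : Type
  | h
  | k
  | r
  | o
  | p
  deriving DecidableEq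

/-- The labels of the legs; at the end the rails are joined. -/
def lL : List Ll → ℕ → List ℕ
  | [], N => [N]
  | .h :: w, N => N :: lL w (N + 2)
  | .k :: w, N => N :: lL w (N + 2)
  | .r :: w, N => lL w (N + 3)
  | .o :: w, N => lL w (N + 3)
  | .p :: w, N => lL w (N + 3)

/-- The vertices. -/
def lV : List Ll → ℕ → ℕ → ℕ → List Tri
  | [], N, r0, r1 => [(N, r0, r1)]
  | .h :: w, N, r0, r1 => (N, r0, N + 1) :: lV w (N + 2) (N + 1) r1
  | .k :: w, N, r0, r1 => (N, r1, N + 1) :: lV w (N + 2) r0 (N + 1)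
  | .r :: w, N, r0, r1 => (N, r0, N + 1) :: (N, r1, N + 2) :: lV w (N + 3) (N + 1) (N + 2)
  | .o :: w, N, r0, r1 => (r0, N, N + 1) :: (N + 2, N, N + 1) :: lV w (N + 3) (N + 2) r1
  | .p :: w, N, r0, r1 => (r1, N, N + 1) :: (N + 2, N, N + 1) :: lV w (N + 3) r0 (N + 2)

/-- The state sum of `osp(1|2)`. -/
def oN : List Ll → (Fin 5 → ℤ) → ℤ
  | [], F => ∑ x, F x * w1 osp odu x
  | .h :: w, F => oN w (hB osp odu F)
  | .k :: w, F => oN w fun x => hB osp odu (fun y => F (odu y)) (odu x)
  | .r :: w, F => oN w (tB osp odu F)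
  | .o :: w, F => oN w (oB osp odu F)
  | .p :: w, F => oN w fun x => oB osp odu (fun y => F (odu y)) (odu x)

/-- The dual label of `gl(3)`. -/
def gd (x : Fin 3 × Fin 3) : Fin 3 × Fin 3 := (x.2, x.1)

/-- The state sum of `gl(3)`. -/
def gN : List Ll → (Fin 3 × Fin 3 → Fin 3 × Fin 3 → ℤ) → ℤ
  | [], F => ∑ x, ∑ y, F x y * gl.T none (some x) (some y)
  | .h :: w, F => gN w (hG gl gd F)
  | .k :: w, F => gN w fun x y => hG gl gd (fun x y => F y x) y x
  | .r :: w, F => gN w (tG gl gd F)
  | .o :: w, F => gN w (oG gl gd F)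
  | .p :: w, F => gN w fun x y => oG gl gd (fun x y => F y x) y x

/-- The graph of a ladder which is cut at the first segment. -/
structure Bt (w : List Ll) (N r0 r1 : ℕ) {V : Type} [Fintype V] {n : ℕ} (G : Gr V n) (u : V)
    (lam : V → ℕ) (ws : List V) : Prop where
  ro : Ro G u lam ws (lL w N) (lV w N r0 r1) N r0 r1
  lg : ¬ Lg G u
  cc : CC G u
  o : ∀ F, vB osp G u F = oN w F
  g : ∀ F, gB gl G u F = gN w F

theorem exists_bt (w : List Ll) : ∀ N r0 r1 : ℕ, r0 < N → r1 < N → r0 ≠ r1 →
    ∃ (V : Type) (_ : Fintype V) (n : ℕ) (G : Gr V n) (u : V) (lam : V → ℕ) (ws : List V),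
      Bt w N r0 r1 G u lam ws := by
  induction w with
  | nil =>
    intro N r0 r1 h0 h1 h01
    exact ⟨Fin 4, inferInstance, 1, bs, 1, _, _, ro_base h0 h1 h01, lb1, cc_bs,
      vB_base sys_osp, gB_base sys_gl⟩
  | cons l w ih =>
    intro N r0 r1 h0 h1 h01
    cases l with
    | h =>
      obtain ⟨V, _, n, G, u, lam, ws, H⟩ := ih (N + 2) (N + 1) r1 (by omega) (by omega) (by omega)
      refine ⟨V ⊕ Fin 4, inferInstance, 1 + n, cs G u bs 2, Sum.inr 1, _, _,
        H.ro.hair h0 h1 h01, ?_, H.cc.cs ck_bs (by decide), fun F => ?_, fun F => ?_⟩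
      · rw [lg_cs H.lg lb2]
        exact lb1
      · rw [vB_bs sys_osp (dual_osp_bs (Or.inr rfl)) H.lg, H.o]
        rfl
      · rw [gB_bs sys_gl H.lg, H.g]
        rfl
    | k =>
      obtain ⟨V, _, n, G, u, lam, ws, H⟩ := ih (N + 2) r0 (N + 1) (by omega) (by omega) (by omega)
      have hlg : ¬ Lg G (G.e u) := fun h => H.lg (lg_e.1 h)
      have hlg' : ¬ Lg (cs G (G.e u) bs 2) (Sum.inr 1) := by
        rw [lg_cs hlg lb2]
        exact lb1
      have e1 : (cs G (G.e u) bs 2).e (Sum.inr 1) = Sum.inl u := by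
        have h2 := cs_eea G (G.e u) bs 2
        rw [G.e2] at h2
        exact h2
      refine ⟨V ⊕ Fin 4, inferInstance, 1 + n, cs G (G.e u) bs 2, Sum.inl u,
        Sum.elim lam (m4 N r1 (N + 1) N), [0].map Sum.inr ++ ws.map Sum.inl, ?_, ?_, ?_,
        fun F => ?_, fun F => ?_⟩
      · have h2 := (H.ro.swap.hair h1 h0 h01.symm).swap
        rw [e1] at h2
        exact h2
      · rw [lg_cs hlg lb2]
        exact H.lg
      · have h2 := (H.cc.swap.cs ck_bs (by decide)).swap
        rw [e1] at h2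
        exact h2
      · rw [← e1, vB_e sys_osp hlg', vB_bs sys_osp (dual_osp_bs (Or.inr rfl)) hlg,
          vB_e sys_osp H.lg, H.o]
        rfl
      · rw [← e1, gB_e, gB_bs sys_gl hlg, gB_e, H.g]
        rfl
    | r =>
      obtain ⟨V, _, n, G, u, lam, ws, H⟩ :=
        ih (N + 3) (N + 1) (N + 2) (by omega) (by omega) (by omega)
      refine ⟨V ⊕ Fin 6, inferInstance, 0 + n, cs G u th 2, Sum.inr 1, _, _,
        H.ro.rung h0 h1 h01, ?_, H.cc.cs ck_th (by decide), fun F => ?_, fun F => ?_⟩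
      · rw [lg_cs H.lg (lg_th 2)]
        exact lg_th 1
      · rw [vB_th sys_osp dual_osp_th H.lg, H.o]
        rfl
      · rw [gB_th sys_gl H.lg, H.g]
        rfl
    | o =>
      obtain ⟨V, _, n, G, u, lam, ws, H⟩ := ih (N + 3) (N + 2) r1 (by omega) (by omega) (by omega)
      refine ⟨V ⊕ Fin 6, inferInstance, 0 + n, cs G u th 3, Sum.inr 0, _, _,
        H.ro.bub h0 h1 h01, ?_, H.cc.cs ck_th3 (by decide), fun F => ?_, fun F => ?_⟩
      · rw [lg_cs H.lg (lg_th 3)]
        exact lg_th 0
      · rw [vB_o sys_osp dual_osp_th3 H.lg, H.o]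
        rfl
      · rw [gB_o sys_gl H.lg, H.g]
        rfl
    | p =>
      obtain ⟨V, _, n, G, u, lam, ws, H⟩ := ih (N + 3) r0 (N + 2) (by omega) (by omega) (by omega)
      have hlg : ¬ Lg G (G.e u) := fun h => H.lg (lg_e.1 h)
      have hlg' : ¬ Lg (cs G (G.e u) th 3) (Sum.inr 0) := by
        rw [lg_cs hlg (lg_th 3)]
        exact lg_th 0
      have e1 : (cs G (G.e u) th 3).e (Sum.inr 0) = Sum.inl u := by
        have h2 := cs_eea G (G.e u) th 3
        rw [G.e2] at h2
        exact h2
      refine ⟨V ⊕ Fin 6, inferInstance, 0 + n, cs G (G.e u) th 3, Sum.inl u,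
        Sum.elim lam (m6 r1 N (N + 1) (N + 2) N (N + 1)), [0, 3].map Sum.inr ++ ws.map Sum.inl,
        ?_, ?_, ?_, fun F => ?_, fun F => ?_⟩
      · have h2 := (H.ro.swap.bub h1 h0 h01.symm).swap
        rw [e1] at h2
        exact h2
      · rw [lg_cs hlg (lg_th 3)]
        exact H.lg
      · have h2 := (H.cc.swap.cs ck_th3 (by decide)).swap
        rw [e1] at h2
        exact h2
      · rw [← e1, vB_e sys_osp hlg', vB_o sys_osp dual_osp_th3 hlg, vB_e sys_osp H.lg, H.o]
        rfl
      · rw [← e1, gB_e, gB_o sys_gl hlg, gB_e, H.g]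
        rfl

/-- The legs and the vertices of a ladder with its first vertex. -/
def fL (w : List Ll) : List ℕ := 0 :: lL w 3

def fV (w : List Ll) : List Tri := (0, 1, 2) :: lV w 3 1 2

/-- The difference of the state sums. -/
def nN (w : List Ll) : ℤ := oN w (cB osp odu) - gN w (cG gl gd)

/-- **The graph of a ladder.** -/
theorem exists_ladder (w : List Ll) : ∃ (V : Type) (_ : Fintype V) (n : ℕ) (G : Gr V n)
    (lam : V → ℕ) (ws : List V), Rg G lam ws (fL w) (fV w) ∧ GConn G ∧
      vZ osp G - vZ gl G = nN w := by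
  obtain ⟨V, _, n, G, u, lam, ws, H⟩ := exists_bt w 3 1 2 (by omega) (by omega) (by omega)
  refine ⟨V ⊕ Fin 4, inferInstance, 1 + n, cs G u bs 1, _, _, H.ro.close, H.cc.close, ?_⟩
  rw [vZ_gl, vZ_cs sys_osp (dual_osp_bs (Or.inl rfl)) H.lg, gZ_cs sys_gl H.lg, H.o, H.g]
  rfl

end Pool.Agent.SWT85
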