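import Mathlib
import Pool.Agent.SWT45.In8
import Pool.Agent.SWT67.Flip

/-!
# Connected sums of based graphs

The edges `{u, e u}` of `G` and `{a, e a}` of `K` are replaced by the edges `{u, a}` and
`{e u, e a}`.
-/

set_option autoImplicit false

namespace Pool.Agent.SWT85

open Equiv Pool.Agent.SWT80 Pool.Agent.SWT45 Pool.Agent.SWT67 Pool.Agent.SWT93
open scoped Classical

variable {V W : Type} {n m : ℕ}

/-- The edges of the connected sum. -/
noncomputable def csf (G : Gr V n) (u : V) (K : Gr W m) (a : W) : V ⊕ W → V ⊕ W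
  | Sum.inl v => if v = u then Sum.inr a else if v = G.e u then Sum.inr (K.e a)
      else Sum.inl (G.e v)
  | Sum.inr w => if w = a then Sum.inl u else if w = K.e a then Sum.inl (G.e u)
      else Sum.inr (K.e w)

section

variable (G : Gr V n) (u : V) (K : Gr W m) (a : W)

theorem csf_u : csf G u K a (Sum.inl u) = Sum.inr a := if_pos rfl

theorem csf_eu : csf G u K a (Sum.inl (G.e u)) = Sum.inr (K.e a) := by
  show (if G.e u = u then Sum.inr a else if G.e u = G.e u then Sum.inr (K.e a)
    else Sum.inl (G.e (G.e u))) = Sum.inr (K.e a)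
  rw [if_neg (G.e1 u), if_pos rfl]

theorem csf_a : csf G u K a (Sum.inr a) = Sum.inl u := if_pos rfl

theorem csf_ea : csf G u K a (Sum.inr (K.e a)) = Sum.inl (G.e u) := by
  show (if K.e a = a then Sum.inl u else if K.e a = K.e a then Sum.inl (G.e u)
    else Sum.inr (K.e (K.e a))) = Sum.inl (G.e u)
  rw [if_neg (K.e1 a), if_pos rfl]

variable {G u K a}

theorem csf_l {v : V} (h : v ≠ u) (h' : v ≠ G.e u) :
    csf G u K a (Sum.inl v) = Sum.inl (G.e v) := by
  unfold csf
  simp only
  rw [if_neg h, if_neg h']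

theorem csf_r {w : W} (h : w ≠ a) (h' : w ≠ K.e a) :
    csf G u K a (Sum.inr w) = Sum.inr (K.e w) := by
  unfold csf
  simp only
  rw [if_neg h, if_neg h']

theorem e_ne {v : V} (h : v ≠ u) (h' : v ≠ G.e u) : G.e v ≠ u ∧ G.e v ≠ G.e u :=
  ⟨fun h1 => h' (by rw [← h1, G.e2]), fun h1 => h (G.e_inj h1)⟩

theorem csf_csf (x : V ⊕ W) : csf G u K a (csf G u K a x) = x := by
  rcases x with v | w
  · by_cases h : v = u
    · rw [h, csf_u, csf_a]
    by_cases h' : v = G.e u
    · rw [h', csf_eu, csf_ea]
    · rw [csf_l h h', csf_l (e_ne h h').1 (e_ne h h').2, G.e2]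
  · by_cases h : w = a
    · rw [h, csf_a, csf_u]
    by_cases h' : w = K.e a
    · rw [h', csf_ea, csf_eu]
    · rw [csf_r h h', csf_r (e_ne h h').1 (e_ne h h').2, K.e2]

theorem csf_ne (x : V ⊕ W) : csf G u K a x ≠ x := by
  rcases x with v | w
  · by_cases h : v = u
    · rw [h, csf_u]
      exact Sum.inr_ne_inl
    by_cases h' : v = G.e u
    · rw [h', csf_eu]
      exact Sum.inr_ne_inl
    · rw [csf_l h h']
      exact fun h1 => G.e1 v (Sum.inl_injective h1)
  · by_cases h : w = a
    · rw [h, csf_a]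
      exact Sum.inl_ne_inr
    by_cases h' : w = K.e a
    · rw [h', csf_ea]
      exact Sum.inl_ne_inr
    · rw [csf_r h h']
      exact fun h1 => K.e1 w (Sum.inr_injective h1)

end

/-- The connected sum. The legs of `K` are the first ones. -/
noncomputable def cs (G : Gr V n) (u : V) (K : Gr W m) (a : W) : Gr (V ⊕ W) (m + n) where
  e := ⟨csf G u K a, csf G u K a, csf_csf, csf_csf⟩
  r := Perm.sumCongr G.r K.r
  leg := Fin.append (fun i => Sum.inr (K.leg i)) (fun i => Sum.inl (G.leg i))
  e2 := csf_csf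
  e1 := csf_ne
  r3 := by
    rintro (v | w)
    · exact congrArg Sum.inl (G.r3 v)
    · exact congrArg Sum.inr (K.r3 w)
  inj := by
    intro i j
    refine Fin.addCases (fun i => ?_) (fun i => ?_) i <;>
      refine Fin.addCases (fun j => ?_) (fun j => ?_) j
    · rw [Fin.append_left, Fin.append_left]
      intro h
      rw [K.inj (Sum.inr_injective h)]
    · rw [Fin.append_left, Fin.append_right]
      exact fun h => absurd h Sum.inr_ne_inl
    · rw [Fin.append_left, Fin.append_right]
      exact fun h => absurd h Sum.inl_ne_inr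
    · rw [Fin.append_right, Fin.append_right]
      intro h
      rw [G.inj (Sum.inl_injective h)]
  fix := by
    rintro (v | w)
    · constructor
      · intro h
        obtain ⟨i, hi⟩ := (G.fix v).1 (Sum.inl_injective h)
        exact ⟨Fin.natAdd m i, by rw [Fin.append_right, hi]⟩
      · rintro ⟨i, hi⟩
        refine congrArg Sum.inl ((G.fix v).2 ?_)
        revert hi
        refine Fin.addCases (fun i => ?_) (fun i => ?_) i
        · rw [Fin.append_left]
          exact fun h => absurd h Sum.inr_ne_inl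
        · rw [Fin.append_right]
          exact fun h => ⟨i, Sum.inl_injective h⟩
    · constructor
      · intro h
        obtain ⟨i, hi⟩ := (K.fix w).1 (Sum.inr_injective h)
        exact ⟨Fin.castAdd n i, by rw [Fin.append_left, hi]⟩
      · rintro ⟨i, hi⟩
        refine congrArg Sum.inr ((K.fix w).2 ?_)
        revert hi
        refine Fin.addCases (fun i => ?_) (fun i => ?_) i
        · rw [Fin.append_left]
          exact fun h => ⟨i, Sum.inr_injective h⟩
        · rw [Fin.append_right]
          exact fun h => absurd h Sum.inl_ne_inr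

section

variable (G : Gr V n) (u : V) (K : Gr W m) (a : W)

theorem cs_e (x : V ⊕ W) : (cs G u K a).e x = csf G u K a x := rfl

theorem cs_eu : (cs G u K a).e (Sum.inl u) = Sum.inr a := csf_u G u K a

theorem cs_eeu : (cs G u K a).e (Sum.inl (G.e u)) = Sum.inr (K.e a) := csf_eu G u K a

theorem cs_ea : (cs G u K a).e (Sum.inr a) = Sum.inl u := csf_a G u K a

theorem cs_eea : (cs G u K a).e (Sum.inr (K.e a)) = Sum.inl (G.e u) := csf_ea G u K a

theorem cs_rl (v : V) : (cs G u K a).r (Sum.inl v) = Sum.inl (G.r v) := rfl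

theorem cs_rr (w : W) : (cs G u K a).r (Sum.inr w) = Sum.inr (K.r w) := rfl

variable {G u K a}

theorem cs_el {v : V} (h : v ≠ u) (h' : v ≠ G.e u) :
    (cs G u K a).e (Sum.inl v) = Sum.inl (G.e v) := csf_l h h'

theorem cs_er {w : W} (h : w ≠ a) (h' : w ≠ K.e a) :
    (cs G u K a).e (Sum.inr w) = Sum.inr (K.e w) := csf_r h h'

end

/-! ### The legs -/

theorem lg_e {G : Gr V n} {v : V} : Lg G (G.e v) ↔ Lg G v := by
  unfold Lg
  rw [G.e2]
  exact or_comm

section

variable {G : Gr V n} {u : V} {K : Gr W m} {a : W}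

theorem inl_fix {v : V} : (cs G u K a).r (Sum.inl v) = Sum.inl v ↔ G.r v = v :=
  ⟨fun h => Sum.inl_injective h, fun h => congrArg Sum.inl h⟩

theorem inr_fix {w : W} : (cs G u K a).r (Sum.inr w) = Sum.inr w ↔ K.r w = w :=
  ⟨fun h => Sum.inr_injective h, fun h => congrArg Sum.inr h⟩

theorem lg_cs (hu : ¬ Lg G u) (ha : ¬ Lg K a) (x : V ⊕ W) :
    Lg (cs G u K a) x ↔ Sum.elim (Lg G) (Lg K) x := by
  have hu' : ¬ Lg G (G.e u) := fun h => hu (lg_e.1 h)
  have ha' : ¬ Lg K (K.e a) := fun h => ha (lg_e.1 h)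
  have nr : ∀ {v : V}, ¬ Lg G v → ¬ (G.r v = v) := fun h h' => h (Or.inl h')
  have nk : ∀ {w : W}, ¬ Lg K w → ¬ (K.r w = w) := fun h h' => h (Or.inl h')
  rcases x with v | w
  · show Lg (cs G u K a) (Sum.inl v) ↔ Lg G v
    by_cases h : v = u
    · subst h
      refine iff_of_false ?_ hu
      rintro (h | h)
      · exact nr hu (inl_fix.1 h)
      · rw [cs_eu] at h
        exact nk ha (inr_fix.1 h)
    by_cases h' : v = G.e u
    · subst h'
      refine iff_of_false ?_ hu'
      rintro (h | h)
      · exact nr hu' (inl_fix.1 h)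
      · rw [cs_eeu] at h
        exact nk ha' (inr_fix.1 h)
    · unfold Lg
      rw [cs_el h h', inl_fix, inl_fix]
  · show Lg (cs G u K a) (Sum.inr w) ↔ Lg K w
    by_cases h : w = a
    · subst h
      refine iff_of_false ?_ ha
      rintro (h | h)
      · exact nk ha (inr_fix.1 h)
      · rw [cs_ea] at h
        exact nr hu (inl_fix.1 h)
    by_cases h' : w = K.e a
    · subst h'
      refine iff_of_false ?_ ha'
      rintro (h | h)
      · exact nk ha' (inr_fix.1 h)
      · rw [cs_eea] at h
        exact nr hu' (inl_fix.1 h)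
    · unfold Lg
      rw [cs_er h h', inr_fix, inr_fix]

end

/-! ### The vertices -/

section

variable {G : Gr V n} {u : V} {K : Gr W m} {a : W}

theorem rep_cs {Q : Finset V} {P : Finset W} (hQ : IsRep G.r Q) (hP : IsRep K.r P) :
    IsRep (cs G u K a).r (Q.disjSum P) := by
  refine ⟨?_, ?_, ?_⟩
  · rintro (v | w) h
    · exact fun h' => hQ.nf v (Finset.inl_mem_disjSum.1 h) (Sum.inl_injective h')
    · exact fun h' => hP.nf w (Finset.inr_mem_disjSum.1 h) (Sum.inr_injective h')
  · rintro (v | w) h
    · have h1 := hQ.ex v fun h' => h (congrArg Sum.inl h')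
      show Sum.inl v ∈ _ ∨ Sum.inl (G.r v) ∈ _ ∨ Sum.inl (G.r (G.r v)) ∈ _
      rw [Finset.inl_mem_disjSum, Finset.inl_mem_disjSum, Finset.inl_mem_disjSum]
      exact h1
    · have h1 := hP.ex w fun h' => h (congrArg Sum.inr h')
      show Sum.inr w ∈ _ ∨ Sum.inr (K.r w) ∈ _ ∨ Sum.inr (K.r (K.r w)) ∈ _
      rw [Finset.inr_mem_disjSum, Finset.inr_mem_disjSum, Finset.inr_mem_disjSum]
      exact h1
  · rintro (v | w) h
    · have h1 := hQ.un v (Finset.inl_mem_disjSum.1 h)
      show Sum.inl (G.r v) ∉ _ ∧ Sum.inl (G.r (G.r v)) ∉ _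
      rw [Finset.inl_mem_disjSum, Finset.inl_mem_disjSum]
      exact h1
    · have h1 := hP.un w (Finset.inr_mem_disjSum.1 h)
      show Sum.inr (K.r w) ∉ _ ∧ Sum.inr (K.r (K.r w)) ∉ _
      rw [Finset.inr_mem_disjSum, Finset.inr_mem_disjSum]
      exact h1

theorem vp_cs [Fintype V] [Fintype W] {f : V ⊕ W → ℤ} (hf : ∀ x, f ((cs G u K a).r x) = f x) :
    vp (cs G u K a).r f = vp G.r (fun v => f (Sum.inl v)) * vp K.r (fun w => f (Sum.inr w)) := by
  obtain ⟨Q, hQ⟩ := rep V G.r G.r3
  obtain ⟨P, hP⟩ := rep W K.r K.r3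
  rw [vp_eq _ _ _ _ (cs G u K a).r3 (rep_cs hQ hP) hf, vp_eq _ _ _ _ G.r3 hQ fun v => hf (Sum.inl v),
    vp_eq _ _ _ _ K.r3 hP fun w => hf (Sum.inr w), Finset.prod_disjSum]

end

/-! ### The sign -/

section

variable {G : Gr V n} {u : V} {K : Gr W m} {a : W}

/-- The correction of `κ`. -/
noncomputable def csc (G : Gr V n) (u : V) (K : Gr W m) (a : W) (o p : V ⊕ W → Bool) :
    Perm (V ⊕ W) :=
  if o (Sum.inl u) = true then
    (if p (Sum.inl u) = true then swap (Sum.inl (G.e u)) (Sum.inr a)
      else swap (Sum.inl u) (Sum.inr (K.e a)))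
  else 1

theorem csc_l {o p : V ⊕ W → Bool} {v : V} (h : v ≠ u) (h' : v ≠ G.e u) :
    csc G u K a o p (Sum.inl v) = Sum.inl v := by
  have h1 : (Sum.inl v : V ⊕ W) ≠ Sum.inl u := fun h1 => h (Sum.inl_injective h1)
  have h2 : (Sum.inl v : V ⊕ W) ≠ Sum.inl (G.e u) := fun h1 => h' (Sum.inl_injective h1)
  unfold csc
  split_ifs
  · exact swap_apply_of_ne_of_ne h2 Sum.inl_ne_inr
  · exact swap_apply_of_ne_of_ne h1 Sum.inl_ne_inr
  · rfl

theorem csc_r {o p : V ⊕ W → Bool} {w : W} (h : w ≠ a) (h' : w ≠ K.e a) :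
    csc G u K a o p (Sum.inr w) = Sum.inr w := by
  have h1 : (Sum.inr w : V ⊕ W) ≠ Sum.inr a := fun h1 => h (Sum.inr_injective h1)
  have h2 : (Sum.inr w : V ⊕ W) ≠ Sum.inr (K.e a) := fun h1 => h' (Sum.inr_injective h1)
  unfold csc
  split_ifs
  · exact swap_apply_of_ne_of_ne Sum.inr_ne_inl h1
  · exact swap_apply_of_ne_of_ne Sum.inr_ne_inl h2
  · rfl

/-- The parities at the cut. -/
structure Cutp (G : Gr V n) (u : V) (K : Gr W m) (a : W) (o p : V ⊕ W → Bool) : Prop where
  og : ∀ v, o (Sum.inl (G.e v)) = o (Sum.inl v)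
  pg : ∀ v, o (Sum.inl v) = true → p (Sum.inl (G.e v)) = !(p (Sum.inl v))
  ok : ∀ w, o (Sum.inr (K.e w)) = o (Sum.inr w)
  pk : ∀ w, o (Sum.inr w) = true → p (Sum.inr (K.e w)) = !(p (Sum.inr w))
  ou : o (Sum.inr a) = o (Sum.inl u)
  pu : o (Sum.inl u) = true → p (Sum.inr a) = !(p (Sum.inl u))

theorem Cutp.oe {o p : V ⊕ W → Bool} (h : Cutp G u K a o p) (x : V ⊕ W) :
    o ((cs G u K a).e x) = o x := by
  rcases x with v | w
  · by_cases h1 : v = u
    · rw [h1, cs_eu, h.ou]
    by_cases h2 : v = G.e u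
    · rw [h2, cs_eeu, h.ok, h.og, h.ou]
    · rw [cs_el h1 h2, h.og]
  · by_cases h1 : w = a
    · rw [h1, cs_ea, h.ou]
    by_cases h2 : w = K.e a
    · rw [h2, cs_eea, h.ok, h.og, h.ou]
    · rw [cs_er h1 h2, h.ok]

theorem Cutp.pe {o p : V ⊕ W → Bool} (h : Cutp G u K a o p) (x : V ⊕ W) (hx : o x = true) :
    p ((cs G u K a).e x) = !(p x) := by
  rcases x with v | w
  · by_cases h1 : v = u
    · subst h1
      rw [cs_eu, h.pu hx]
    by_cases h2 : v = G.e u
    · subst h2
      rw [h.og] at hx
      rw [cs_eeu, h.pk a (by rw [h.ou, hx]), h.pg u hx, h.pu hx]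
    · rw [cs_el h1 h2, h.pg v hx]
  · by_cases h1 : w = a
    · subst h1
      rw [h.ou] at hx
      rw [cs_ea, h.pu hx, Bool.not_not]
    by_cases h2 : w = K.e a
    · subst h2
      rw [h.ok, h.ou] at hx
      rw [cs_eea, h.pk a (by rw [h.ou, hx]), h.pg u hx, h.pu hx, Bool.not_not]
    · rw [cs_er h1 h2, h.pk w hx]

theorem isK_cs {o p : V ⊕ W → Bool} (h : Cutp G u K a o p) {κ : Perm V} {μ : Perm W}
    (hκ : IsK G.e G.r (fun v => o (Sum.inl v)) (fun v => p (Sum.inl v)) κ)
    (hμ : IsK K.e K.r (fun w => o (Sum.inr w)) (fun w => p (Sum.inr w)) μ) :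
    IsK (cs G u K a).e (cs G u K a).r o p (Perm.sumCongr κ μ * csc G u K a o p) := by
  have el : ∀ v, Perm.sumCongr κ μ (Sum.inl v) = Sum.inl (κ v) := fun _ => rfl
  have er : ∀ w, Perm.sumCongr κ μ (Sum.inr w) = Sum.inr (μ w) := fun _ => rfl
  by_cases hou : o (Sum.inl u) = true
  · by_cases hpu : p (Sum.inl u) = true
    · -- `u` is positive
      have hc : csc G u K a o p = swap (Sum.inl (G.e u)) (Sum.inr a) := by
        unfold csc
        rw [if_pos hou, if_pos hpu]
      have c1 : csc G u K a o p (Sum.inl u) = Sum.inl u := by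
        rw [hc]
        exact swap_apply_of_ne_of_ne (fun h1 => G.e1 u (Sum.inl_injective h1).symm)
          Sum.inl_ne_inr
      have c2 : csc G u K a o p (Sum.inl (G.e u)) = Sum.inr a := by
        rw [hc]
        exact swap_apply_left _ _
      have c3 : csc G u K a o p (Sum.inr a) = Sum.inl (G.e u) := by
        rw [hc]
        exact swap_apply_right _ _
      have c4 : csc G u K a o p (Sum.inr (K.e a)) = Sum.inr (K.e a) := by
        rw [hc]
        exact swap_apply_of_ne_of_ne Sum.inr_ne_inl fun h1 => K.e1 a (Sum.inr_injective h1)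
      have g1 := hκ.map u hou hpu
      have g2 := hμ.map (K.e a) (by rw [h.ok, h.ou, hou]) (by
        rw [h.pk a (by rw [h.ou, hou]), h.pu hou, hpu]
        rfl)
      rw [K.e2] at g2
      refine ⟨?_, ?_⟩
      · intro x hx
        rw [Perm.mul_apply]
        rcases x with v | w
        · have n1 : v ≠ u := by
            rintro rfl
            rw [hx] at hou
            cases hou
          have n2 : v ≠ G.e u := by
            rintro rfl
            rw [h.og, hou] at hx
            cases hx
          rw [csc_l n1 n2, el, hκ.fix v hx]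
        · have n1 : w ≠ a := by
            rintro rfl
            rw [h.ou, hou] at hx
            cases hx
          have n2 : w ≠ K.e a := by
            rintro rfl
            rw [h.ok, h.ou, hou] at hx
            cases hx
          rw [csc_r n1 n2, er, hμ.fix w hx]
      · intro x hx hp
        rw [Perm.mul_apply, Perm.mul_apply]
        rcases x with v | w
        · by_cases n1 : v = u
          · subst n1
            rw [c1, cs_eu, c3, el, el, cs_rl]
            exact ⟨g1.1, g1.2.1, congrArg Sum.inl g1.2.2⟩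
          by_cases n2 : v = G.e u
          · subst n2
            rw [h.pg u hou, hpu] at hp
            cases hp
          · rw [csc_l n1 n2, cs_el n1 n2, csc_l (e_ne n1 n2).1 (e_ne n1 n2).2, el, el, cs_rl]
            have g3 := hκ.map v hx hp
            exact ⟨g3.1, g3.2.1, congrArg Sum.inl g3.2.2⟩
        · by_cases n1 : w = a
          · subst n1
            rw [h.pu hou, hpu] at hp
            cases hp
          by_cases n2 : w = K.e a
          · subst n2
            rw [c4, cs_eea, c2, er, er, cs_rr]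
            exact ⟨g2.1, g2.2.1, congrArg Sum.inr g2.2.2⟩
          · rw [csc_r n1 n2, cs_er n1 n2, csc_r (e_ne n1 n2).1 (e_ne n1 n2).2, er, er, cs_rr]
            have g3 := hμ.map w hx hp
            exact ⟨g3.1, g3.2.1, congrArg Sum.inr g3.2.2⟩
    · -- `u` is negative
      have hpu' : p (Sum.inl u) = false := by simpa using hpu
      have hc : csc G u K a o p = swap (Sum.inl u) (Sum.inr (K.e a)) := by
        unfold csc
        rw [if_pos hou, if_neg hpu]
      have c1 : csc G u K a o p (Sum.inl (G.e u)) = Sum.inl (G.e u) := by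
        rw [hc]
        exact swap_apply_of_ne_of_ne (fun h1 => G.e1 u (Sum.inl_injective h1))
          Sum.inl_ne_inr
      have c2 : csc G u K a o p (Sum.inl u) = Sum.inr (K.e a) := by
        rw [hc]
        exact swap_apply_left _ _
      have c3 : csc G u K a o p (Sum.inr (K.e a)) = Sum.inl u := by
        rw [hc]
        exact swap_apply_right _ _
      have c4 : csc G u K a o p (Sum.inr a) = Sum.inr a := by
        rw [hc]
        exact swap_apply_of_ne_of_ne Sum.inr_ne_inl fun h1 => K.e1 a (Sum.inr_injective h1).symm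
      have g1 := hκ.map (G.e u) (by rw [h.og, hou]) (by rw [h.pg u hou, hpu']; rfl)
      rw [G.e2] at g1
      have g2 := hμ.map a (by rw [h.ou, hou]) (by rw [h.pu hou, hpu']; rfl)
      refine ⟨?_, ?_⟩
      · intro x hx
        rw [Perm.mul_apply]
        rcases x with v | w
        · have n1 : v ≠ u := by
            rintro rfl
            rw [hx] at hou
            cases hou
          have n2 : v ≠ G.e u := by
            rintro rfl
            rw [h.og, hou] at hx
            cases hx
          rw [csc_l n1 n2, el, hκ.fix v hx]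
        · have n1 : w ≠ a := by
            rintro rfl
            rw [h.ou, hou] at hx
            cases hx
          have n2 : w ≠ K.e a := by
            rintro rfl
            rw [h.ok, h.ou, hou] at hx
            cases hx
          rw [csc_r n1 n2, er, hμ.fix w hx]
      · intro x hx hp
        rw [Perm.mul_apply, Perm.mul_apply]
        rcases x with v | w
        · by_cases n1 : v = u
          · subst n1
            rw [hpu'] at hp
            cases hp
          by_cases n2 : v = G.e u
          · subst n2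
            rw [c1, cs_eeu, c3, el, el, cs_rl]
            exact ⟨g1.1, g1.2.1, congrArg Sum.inl g1.2.2⟩
          · rw [csc_l n1 n2, cs_el n1 n2, csc_l (e_ne n1 n2).1 (e_ne n1 n2).2, el, el, cs_rl]
            have g3 := hκ.map v hx hp
            exact ⟨g3.1, g3.2.1, congrArg Sum.inl g3.2.2⟩
        · by_cases n1 : w = a
          · subst n1
            rw [c4, cs_ea, c2, er, er, cs_rr]
            exact ⟨g2.1, g2.2.1, congrArg Sum.inr g2.2.2⟩
          by_cases n2 : w = K.e a
          · subst n2
            rw [h.pk a (by rw [h.ou, hou]), h.pu hou, hpu'] at hp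
            cases hp
          · rw [csc_r n1 n2, cs_er n1 n2, csc_r (e_ne n1 n2).1 (e_ne n1 n2).2, er, er, cs_rr]
            have g3 := hμ.map w hx hp
            exact ⟨g3.1, g3.2.1, congrArg Sum.inr g3.2.2⟩
  · -- `u` is even
    have hou' : o (Sum.inl u) = false := by simpa using hou
    have hc : csc G u K a o p = 1 := by
      unfold csc
      rw [if_neg hou]
    rw [hc, mul_one]
    refine ⟨?_, ?_⟩
    · rintro (v | w) hx
      · rw [el, hκ.fix v hx]
      · rw [er, hμ.fix w hx]
    · rintro (v | w) hx hp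
      · have n1 : v ≠ u := by
          rintro rfl
          exact hou hx
        have n2 : v ≠ G.e u := by
          rintro rfl
          rw [h.og] at hx
          exact hou hx
        rw [cs_el n1 n2, el, el, cs_rl]
        have g3 := hκ.map v hx hp
        exact ⟨g3.1, g3.2.1, congrArg Sum.inl g3.2.2⟩
      · have n1 : w ≠ a := by
          rintro rfl
          rw [h.ou] at hx
          exact hou hx
        have n2 : w ≠ K.e a := by
          rintro rfl
          rw [h.ok, h.ou] at hx
          exact hou hx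
        rw [cs_er n1 n2, er, er, cs_rr]
        have g3 := hμ.map w hx hp
        exact ⟨g3.1, g3.2.1, congrArg Sum.inr g3.2.2⟩

theorem sign_inst {α : Type} [Fintype α] (i j : DecidableEq α) (σ : Perm α) :
    @Perm.sign α i _ σ = @Perm.sign α j _ σ := by
  rw [Subsingleton.elim i j]

theorem sign_sw {α : Type} [Fintype α] (i j : DecidableEq α) {x y : α} (h : x ≠ y) :
    @Perm.sign α i _ (@swap α j x y) = -1 := by
  rw [Subsingleton.elim i j]
  exact Perm.sign_swap h

theorem sign_csc [Fintype V] [Fintype W] (i : DecidableEq (V ⊕ W)) {o p : V ⊕ W → Bool} :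
    ((@Perm.sign _ i _ (csc G u K a o p) : ℤˣ) : ℤ) = if o (Sum.inl u) = true then -1 else 1 := by
  unfold csc
  split_ifs
  · rw [sign_sw _ _ Sum.inl_ne_inr]
    rfl
  · rw [sign_sw _ _ Sum.inl_ne_inr]
    rfl
  · rw [map_one]
    rfl

/-- **The sign of a labelling of a connected sum.** -/
theorem sg_cs [Fintype V] [Fintype W] {o p : V ⊕ W → Bool} (h : Cutp G u K a o p)
    (h1 : ∃ κ, IsK G.e G.r (fun v => o (Sum.inl v)) (fun v => p (Sum.inl v)) κ)
    (h2 : ∃ μ, IsK K.e K.r (fun w => o (Sum.inr w)) (fun w => p (Sum.inr w)) μ) :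
    sg (cs G u K a).e (cs G u K a).r o p = (if o (Sum.inl u) = true then -1 else 1) *
      (sg G.e G.r (fun v => o (Sum.inl v)) (fun v => p (Sum.inl v)) *
        sg K.e K.r (fun w => o (Sum.inr w)) (fun w => p (Sum.inr w))) := by
  obtain ⟨κ, hκ⟩ := h1
  obtain ⟨μ, hμ⟩ := h2
  rw [sg_eq' (cs G u K a).e2 (cs G u K a).r3 h.oe h.pe (isK_cs h hκ hμ),
    sg_eq' G.e2 G.r3 h.og h.pg hκ, sg_eq' K.e2 K.r3 h.ok h.pk hμ, map_mul, Units.val_mul,
    sign_csc, sign_inst _ inferInstance (Perm.sumCongr κ μ), Perm.sign_sumCongr, Units.val_mul]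
  ring

end

end Pool.Agent.SWT85
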