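import Pool.Agent.SWT85.Ts
import Pool.Agent.SWT67.LocK

/-!
# The graphs which are inserted: the loop with a leg and the theta graph
-/

set_option autoImplicit false

namespace Pool.Agent.SWT85

open Equiv Pool.Agent.SWT80 Pool.Agent.SWT45 Pool.Agent.SWT67 Pool.Agent.SWT93
open scoped Classical

/-- The loop with a leg: the vertex `(0, 1, 2)`, the leg `3`, the edges `{0, 3}`, `{1, 2}`. -/
def bs : Gr (Fin 4) 1 where
  e := ⟨![3, 2, 1, 0], ![3, 2, 1, 0], by decide, by decide⟩
  r := ⟨![1, 2, 0, 3], ![2, 0, 1, 3], by decide, by decide⟩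
  leg := ![3]
  e2 := by decide
  e1 := by decide
  r3 := by decide
  inj := by decide
  fix := by decide

/-- The theta graph: the vertices `(0, 1, 2)`, `(3, 4, 5)`, the edges `{0, 3}`, `{1, 4}`,
`{2, 5}`. -/
def th : Gr (Fin 6) 0 where
  e := ⟨![3, 4, 5, 0, 1, 2], ![3, 4, 5, 0, 1, 2], by decide, by decide⟩
  r := ⟨![1, 2, 0, 4, 5, 3], ![2, 0, 1, 5, 3, 4], by decide, by decide⟩
  leg := ![]
  e2 := by decide
  e1 := by decide
  r3 := by decide
  inj := by decide
  fix := by decide

theorem lg_bs (w : Fin 4) : Lg bs w ↔ w = 0 ∨ w = 3 := by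
  unfold Lg
  revert w
  decide

theorem lg_th (w : Fin 6) : ¬ Lg th w := by
  unfold Lg
  revert w
  decide

theorem rep_bs : IsRep bs.r {0} := by
  refine ⟨?_, ?_, ?_⟩ <;> decide

theorem rep_th : IsRep th.r {0, 3} := by
  refine ⟨?_, ?_, ?_⟩ <;> decide

/-- A label system with a label for the legs. -/
structure Sys {B : Type} (S : LS (Option B)) (d : B → B) : Prop where
  ok : S.Ok
  n : S.du none = none
  s : ∀ b, S.du (some b) = some (d b)
  o : S.odd none = false

variable {B : Type} {S : LS (Option B)} {d : B → B}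

theorem Sys.dd (h : Sys S d) (b : B) : d (d b) = b := by
  have h1 := h.ok.du_du (some b)
  rw [h.s, h.s] at h1
  exact Option.some_injective _ h1

theorem tp_bs (hS : Sys S d) (t : Fin 4 → Option B) : tq S bs t = S.T (t 0) (t 1) (t 2) := by
  unfold tq
  rw [vp_eq _ _ _ _ bs.r3 rep_bs fun v => cst' hS.ok bs t v, Finset.prod_singleton]
  rfl

theorem tp_th (hS : Sys S d) (t : Fin 6 → Option B) :
    tq S th t = S.T (t 0) (t 1) (t 2) * S.T (t 3) (t 4) (t 5) := by
  unfold tq
  rw [vp_eq _ _ _ _ th.r3 rep_th fun v => cst' hS.ok th t v, Finset.prod_pair (by decide)]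
  rfl

/-! ### The states -/

/-- The state of `bs` with given labels. -/
def tb (x y : B) : Fin 4 → Option B := ![none, some x, some y, none]

theorem tb_cut (hS : Sys S d) {a : Fin 4} (ha : a = 1 ∨ a = 2) (t : Fin 4 → Option B) :
    Cut S bs a t ↔ ∃ p : B × B, tb p.1 p.2 = t := by
  constructor
  · intro h
    have h0 : t 0 = none := (h.lg 0).2 ((lg_bs 0).2 (Or.inl rfl))
    have h3 : t 3 = none := (h.lg 3).2 ((lg_bs 3).2 (Or.inr rfl))
    have h1 : t 1 ≠ none := fun h' => by
      have := (lg_bs 1).1 ((h.lg 1).1 h')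
      revert this
      decide
    have h2 : t 2 ≠ none := fun h' => by
      have := (lg_bs 2).1 ((h.lg 2).1 h')
      revert this
      decide
    obtain ⟨x, hx⟩ := Option.ne_none_iff_exists'.1 h1
    obtain ⟨y, hy⟩ := Option.ne_none_iff_exists'.1 h2
    refine ⟨(x, y), ?_⟩
    funext w
    fin_cases w
    · exact h0.symm
    · exact hx.symm
    · exact hy.symm
    · exact h3.symm
  · rintro ⟨p, rfl⟩
    refine ⟨fun w => ?_, fun w h1 h2 => ?_⟩
    · rw [lg_bs]
      fin_cases w <;> simp [tb]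
    · have h3 : w = 0 ∨ w = 3 := by
        revert w
        rcases ha with rfl | rfl <;> decide
      rcases h3 with rfl | rfl
      · exact hS.n.symm
      · exact hS.n.symm

theorem tb_clo (hS : Sys S d) (t : Fin 4 → Option B) :
    Clo S bs t ↔ ∃ x : B, tb x (d x) = t := by
  constructor
  · intro h
    obtain ⟨p, hp⟩ := (tb_cut hS (Or.inl rfl) t).1 (h.cut 1)
    refine ⟨p.1, ?_⟩
    have h1 : t 2 = S.du (t 1) := h.e 1
    rw [← hp] at h1 ⊢
    have h2 : some p.2 = S.du (some p.1) := h1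
    rw [hS.s] at h2
    rw [← Option.some_injective _ h2]
  · rintro ⟨x, rfl⟩
    refine Cut.clo hS.ok (u := 1) ((tb_cut hS (Or.inl rfl) _).2 ⟨(x, d x), rfl⟩) ?_
    exact (hS.s x).symm

theorem tb_inj {x y x' y' : B} (h : tb x y = tb x' y') : x = x' ∧ y = y' :=
  ⟨Option.some_injective _ (congrFun h 1), Option.some_injective _ (congrFun h 2)⟩

/-- The state of `th` with given labels. -/
def tt (q k x q' k' x' : B) : Fin 6 → Option B := ![some q, some k, some x, some q', some k', some x']

theorem tt_ex {t : Fin 6 → Option B} (h : ∀ w, t w ≠ none) :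
    ∃ q k x q' k' x', tt q k x q' k' x' = t := by
  have h1 := fun w => Option.ne_none_iff_exists'.1 (h w)
  choose f hf using h1
  refine ⟨f 0, f 1, f 2, f 3, f 4, f 5, ?_⟩
  funext w
  fin_cases w
  · exact (hf 0).symm
  · exact (hf 1).symm
  · exact (hf 2).symm
  · exact (hf 3).symm
  · exact (hf 4).symm
  · exact (hf 5).symm

theorem tt_lg (q k x q' k' x' : B) (w : Fin 6) : tt q k x q' k' x' w = none ↔ Lg th w := by
  refine iff_of_false ?_ (lg_th w)
  fin_cases w <;> simp [tt]

theorem tt_cut2 (hS : Sys S d) (t : Fin 6 → Option B) :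
    Cut2 S th 2 1 t ↔ ∃ q k x k' x', tt q k x (d q) k' x' = t := by
  constructor
  · intro h
    obtain ⟨q, k, x, q', k', x', rfl⟩ := tt_ex fun w h1 => lg_th w ((h.lg w).1 h1)
    refine ⟨q, k, x, k', x', ?_⟩
    have h1 := h.e 0 (by decide) (by decide) (by decide) (by decide)
    have h2 : some q' = S.du (some q) := h1
    rw [hS.s] at h2
    rw [Option.some_injective _ h2]
  · rintro ⟨q, k, x, k', x', rfl⟩
    refine ⟨tt_lg _ _ _ _ _ _, fun w h1 h2 h3 h4 => ?_⟩
    have h5 : w = 0 ∨ w = 3 := by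
      revert w
      decide
    rcases h5 with rfl | rfl
    · exact (hS.s q).symm
    · show some q = S.du (some (d q))
      rw [hS.s, hS.dd]

theorem tt_cut (hS : Sys S d) (t : Fin 6 → Option B) :
    Cut S th 2 t ↔ ∃ q k x x', tt q k x (d q) (d k) x' = t := by
  constructor
  · intro h
    obtain ⟨q, k, x, k', x', rfl⟩ := (tt_cut2 hS t).1 ⟨h.lg, fun w h1 h2 _ _ => h.e w h1 h2⟩
    refine ⟨q, k, x, x', ?_⟩
    have h1 := h.e 1 (by decide) (by decide)
    have h2 : some k' = S.du (some k) := h1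
    rw [hS.s] at h2
    rw [Option.some_injective _ h2]
  · rintro ⟨q, k, x, x', rfl⟩
    refine ⟨tt_lg _ _ _ _ _ _, fun w h1 h2 => ?_⟩
    have h5 : w = 0 ∨ w = 3 ∨ w = 1 ∨ w = 4 := by
      revert w
      decide
    rcases h5 with rfl | rfl | rfl | rfl
    · exact (hS.s q).symm
    · show some q = S.du (some (d q))
      rw [hS.s, hS.dd]
    · exact (hS.s k).symm
    · show some k = S.du (some (d k))
      rw [hS.s, hS.dd]

theorem tt_cut3 (hS : Sys S d) (t : Fin 6 → Option B) :
    Cut S th 3 t ↔ ∃ q q' k x, tt q k x q' (d k) (d x) = t := by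
  constructor
  · intro h
    obtain ⟨q, k, x, q', k', x', rfl⟩ := tt_ex fun w h1 => lg_th w ((h.lg w).1 h1)
    refine ⟨q, q', k, x, ?_⟩
    have h1 := h.e 1 (by decide) (by decide)
    have h2 : some k' = S.du (some k) := h1
    have h3 := h.e 2 (by decide) (by decide)
    have h4 : some x' = S.du (some x) := h3
    rw [hS.s] at h2 h4
    rw [Option.some_injective _ h2, Option.some_injective _ h4]
  · rintro ⟨q, q', k, x, rfl⟩
    refine ⟨tt_lg _ _ _ _ _ _, fun w h1 h2 => ?_⟩
    have h5 : w = 1 ∨ w = 4 ∨ w = 2 ∨ w = 5 := by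
      revert w
      decide
    rcases h5 with rfl | rfl | rfl | rfl
    · exact (hS.s k).symm
    · show some k = S.du (some (d k))
      rw [hS.s, hS.dd]
    · exact (hS.s x).symm
    · show some x = S.du (some (d x))
      rw [hS.s, hS.dd]

theorem tt_clo (hS : Sys S d) (t : Fin 6 → Option B) :
    Clo S th t ↔ ∃ q k x, tt q k x (d q) (d k) (d x) = t := by
  constructor
  · intro h
    obtain ⟨q, k, x, x', rfl⟩ := (tt_cut hS t).1 (h.cut 2)
    refine ⟨q, k, x, ?_⟩
    have h1 := h.e 2
    have h2 : some x' = S.du (some x) := h1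
    rw [hS.s] at h2
    rw [Option.some_injective _ h2]
  · rintro ⟨q, k, x, rfl⟩
    refine Cut.clo hS.ok (u := 2) ((tt_cut hS _).2 ⟨q, k, x, d x, rfl⟩) ?_
    exact (hS.s x).symm

theorem tt_inj {q k x q' k' x' p l y p' l' y' : B}
    (h : tt q k x q' k' x' = tt p l y p' l' y') :
    q = p ∧ k = l ∧ x = y ∧ q' = p' ∧ k' = l' ∧ x' = y' :=
  ⟨Option.some_injective _ (congrFun h 0), Option.some_injective _ (congrFun h 1),
    Option.some_injective _ (congrFun h 2), Option.some_injective _ (congrFun h 3),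
    Option.some_injective _ (congrFun h 4), Option.some_injective _ (congrFun h 5)⟩

/-! ### The signs -/

theorem isK_mono {V : Type} {e r κ : Perm V} {o p p' : V → Bool}
    (hp : ∀ v, o v = true → p v = p' v) (h : IsK e r o p' κ) : IsK e r o p κ :=
  ⟨h.fix, fun v h1 h2 => h.map v h1 (by rw [← hp v h1, h2])⟩

/-- The sign of the state of `bs`. -/
def s1 (o p : Bool) : ℤ := if o && !p then -1 else 1

theorem sg_bs {o p : Fin 4 → Bool} (h0 : o 0 = false) (h3 : o 3 = false) (h2 : o 2 = o 1)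
    (hp : o 1 = true → p 2 = !(p 1)) : sg bs.e bs.r o p = s1 (o 1) (p 1) := by
  have oe : ∀ v, o (bs.e v) = o v := by
    intro v
    fin_cases v
    · exact h3.trans h0.symm
    · exact h2
    · exact h2.symm
    · exact h0.trans h3.symm
  have pe : ∀ v, o v = true → p (bs.e v) = !(p v) := by
    intro v hv
    fin_cases v
    · exact absurd (h0.symm.trans hv) (by decide)
    · exact hp hv
    · have hv' : o 2 = true := hv
      have h4 := hp (by rw [← h2, hv'])
      show p 1 = !(p 2)
      rw [h4, Bool.not_not]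
    · exact absurd (h3.symm.trans hv) (by decide)
  have key : ∀ κ : Perm (Fin 4),
      IsK bs.e bs.r ![false, o 1, o 1, false] ![false, p 1, !(p 1), false] κ →
      sg bs.e bs.r o p = ((Perm.sign κ : ℤˣ) : ℤ) := by
    intro κ hκ
    rw [sign_inst inferInstance fun x y => Classical.propDecidable (x = y)]
    refine sg_eq' bs.e2 bs.r3 oe pe ?_
    have ho : o = ![false, o 1, o 1, false] := by
      funext v
      fin_cases v
      · exact h0
      · rfl
      · exact h2
      · exact h3
    rw [← ho] at hκ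
    refine isK_mono ?_ hκ
    intro v hv
    fin_cases v
    · exact absurd (h0.symm.trans hv) (by decide)
    · rfl
    · have hv' : o 2 = true := hv
      exact hp (by rw [← h2, hv'])
    · exact absurd (h3.symm.trans hv) (by decide)
  cases h1 : o 1
  · rw [key 1 (by rw [h1]; refine ⟨?_, ?_⟩ <;> cases p 1 <;> decide), map_one]
    rfl
  · cases h4 : p 1
    · rw [key (swap 1 2) (by rw [h1, h4]; refine ⟨?_, ?_⟩ <;> decide), sign_sw _ _ (by decide)]
      rfl
    · rw [key 1 (by rw [h1, h4]; refine ⟨?_, ?_⟩ <;> decide), map_one]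
      rfl

/-- The sign of the state of `th`. -/
def s3 (oq ok ox pq pk px : Bool) : ℤ :=
  if oq && ok then (if pq = pk then -1 else 1)
  else if ok && ox then (if pk = px then -1 else 1)
  else if ox && oq then (if px = pq then -1 else 1)
  else 1

/-- The permutation for the odd labels at `a`, `b`. -/
def t3l (a a' b b' : Fin 6) (p q : Bool) : List (Fin 6 × Fin 6) :=
  match p, q with
  | true, true => [(b, a')]
  | true, false => [(a', b'), (a', b)]
  | false, true => [(a', b), (a', a)]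
  | false, false => [(a', b'), (a', b), (a', a)]

def t3 (oq ok ox pq pk px : Bool) : List (Fin 6 × Fin 6) :=
  if oq && ok then t3l 0 3 1 4 pq pk
  else if ok && ox then t3l 1 4 2 5 pk px
  else if ox && oq then t3l 2 5 0 3 px pq
  else []

theorem t3_ne : ∀ oq ok ox pq pk px : Bool, ∀ q ∈ t3 oq ok ox pq pk px, q.1 ≠ q.2 := by
  decide +kernel

theorem t3_len : ∀ oq ok ox pq pk px : Bool,
    (-1 : ℤ) ^ (t3 oq ok ox pq pk px).length = s3 oq ok ox pq pk px := by
  decide +kernel

theorem t3_ok : ∀ oq ok ox pq pk px : Bool, (oq ^^ (ok ^^ ox)) = false → ∀ v : Fin 6,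
    ((![oq, ok, ox, oq, ok, ox] : Fin 6 → Bool) v = false → SWT67.sw (t3 oq ok ox pq pk px) v = v) ∧
    ((![oq, ok, ox, oq, ok, ox] : Fin 6 → Bool) v = true →
      (![pq, pk, px, !pq, !pk, !px] : Fin 6 → Bool) v = true →
      (![oq, ok, ox, oq, ok, ox] : Fin 6 → Bool) (SWT67.sw (t3 oq ok ox pq pk px) v) = true ∧
      (![oq, ok, ox, oq, ok, ox] : Fin 6 → Bool) (th.r (SWT67.sw (t3 oq ok ox pq pk px) v)) = true ∧
      SWT67.sw (t3 oq ok ox pq pk px) (th.e v) = th.r (SWT67.sw (t3 oq ok ox pq pk px) v)) := by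
  decide +kernel

theorem sg_th {o p : Fin 6 → Bool} (oe : ∀ v, o (th.e v) = o v)
    (pe : ∀ v, o v = true → p (th.e v) = !(p v)) (hpar : (o 0 ^^ (o 1 ^^ o 2)) = false) :
    sg th.e th.r o p = s3 (o 0) (o 1) (o 2) (p 0) (p 1) (p 2) := by
  have ho : o = ![o 0, o 1, o 2, o 0, o 1, o 2] := by
    funext v
    fin_cases v
    · rfl
    · rfl
    · rfl
    · exact oe 0
    · exact oe 1
    · exact oe 2
  have hp : ∀ v, o v = true → p v = (![p 0, p 1, p 2, !(p 0), !(p 1), !(p 2)] : Fin 6 → Bool) v := by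
    intro v hv
    fin_cases v
    · rfl
    · rfl
    · rfl
    · exact pe 0 ((oe 0).symm.trans hv)
    · exact pe 1 ((oe 1).symm.trans hv)
    · exact pe 2 ((oe 2).symm.trans hv)
  have hκ : IsK th.e th.r o ![p 0, p 1, p 2, !(p 0), !(p 1), !(p 2)]
      (SWT67.sw (t3 (o 0) (o 1) (o 2) (p 0) (p 1) (p 2))) := by
    have h1 := t3_ok (o 0) (o 1) (o 2) (p 0) (p 1) (p 2) hpar
    rw [← ho] at h1
    exact ⟨fun v => (h1 v).1, fun v => (h1 v).2⟩
  rw [sg_eq' th.e2 th.r3 oe pe (isK_mono hp hκ), ← t3_len,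
    sign_inst _ (instDecidableEqFin 6)]
  exact SWT67.sign_sw _ (t3_ne _ _ _ _ _ _)

end Pool.Agent.SWT85
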