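import Pool.Agent.SWT85.Kg

/-!
# State sums and the insertion of a leg or of a rung
-/

set_option autoImplicit false

namespace Pool.Agent.SWT85

open Equiv Pool.Agent.SWT80 Pool.Agent.SWT45 Pool.Agent.SWT67 Pool.Agent.SWT93
open scoped Classical

variable {V W B : Type} {n m : ℕ}

theorem sum_one {α : Type} (i : Fintype α) {c : α → Prop} (D : ∀ x, Decidable (c x)) (x : α)
    (h : ∀ y, c y ↔ y = x) (w : α → ℤ) :
    @Finset.sum _ _ _ (@Finset.univ _ i) (fun y => @ite _ (c y) (D y) (w y) 0) = w x := by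
  rw [Finset.sum_eq_single x]
  · rw [if_pos ((h x).2 rfl)]
  · intro y _ hy
    rw [if_neg fun h' => hy ((h y).1 h')]
  · intro hx
    exact absurd (Finset.mem_univ x) hx

theorem sum_par {α β : Type} (i : Fintype α) [Fintype β] {c : α → Prop}
    (D : ∀ x, Decidable (c x)) (g : β → α) (hg : Function.Injective g)
    (h : ∀ x, c x ↔ ∃ y, g y = x) (w : α → ℤ) :
    @Finset.sum _ _ _ (@Finset.univ _ i) (fun x => @ite _ (c x) (D x) (w x) 0) =
      ∑ y, w (g y) := by
  rw [← Finset.sum_filter]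
  have h1 : Finset.univ.filter c = Finset.univ.image g := by
    ext x
    rw [Finset.mem_filter, Finset.mem_image, h x]
    simp
  rw [h1, Finset.sum_image fun x _ y _ hxy => hg hxy]

/-- A function on the labels different from `none`. -/
def up (F : B → ℤ) : Option B → ℤ
  | none => 0
  | some x => F x

def up2 (F : B → B → ℤ) : Option B → Option B → ℤ
  | some x, some y => F x y
  | _, _ => 0

/-- The state sum with a weight at the label of `u`. -/
noncomputable def vB [Fintype V] [Fintype B] (S : LS (Option B)) (G : Gr V n) (u : V)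
    (F : B → ℤ) : ℤ := vF S G u (up F)

/-- The state sum of the graph which is cut at the edge of `u`. -/
noncomputable def gB [Fintype V] [Fintype B] (S : LS (Option B)) (G : Gr V n) (u : V)
    (F : B → B → ℤ) : ℤ := gF S G u (up2 F)

/-- The state sum. -/
noncomputable def vZ [Fintype V] [Fintype B] (S : LS (Option B)) (G : Gr V n) : ℤ :=
  ∑ s : V → Option B, if Clo S G s then wt S G s else 0

section

variable [Fintype V] [Fintype W] [Fintype B] {G : Gr V n} {u : V} {S : LS (Option B)} {d : B → B}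

theorem vF_congr (hu : ¬ Lg G u) {F F' : Option B → ℤ} (h : ∀ x : B, F (some x) = F' (some x)) :
    vF S G u F = vF S G u F' := by
  unfold vF
  refine Finset.sum_congr rfl fun s _ => ?_
  by_cases hs : Clo S G s
  · obtain ⟨x, hx⟩ := Option.ne_none_iff_exists'.1 fun h' => hu ((hs.lg u).1 h')
    rw [if_pos hs, if_pos hs, hx, h]
  · rw [if_neg hs, if_neg hs]

theorem gF_congr (hu : ¬ Lg G u) {F F' : Option B → Option B → ℤ}
    (h : ∀ x y : B, F (some x) (some y) = F' (some x) (some y)) :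
    gF S G u F = gF S G u F' := by
  unfold gF
  refine Finset.sum_congr rfl fun s _ => ?_
  by_cases hs : Cut S G u s
  · obtain ⟨x, hx⟩ := Option.ne_none_iff_exists'.1 fun h' => hu ((hs.lg u).1 h')
    obtain ⟨y, hy⟩ := Option.ne_none_iff_exists'.1 fun h' => hu (lg_e.1 ((hs.lg (G.e u)).1 h'))
    rw [if_pos hs, if_pos hs, hx, hy, h]
  · rw [if_neg hs, if_neg hs]

theorem vZ_eq (G : Gr V n) (u : V) : vZ S G = vF S G u fun _ => 1 := by
  unfold vZ vF
  simp only [one_mul]

/-! ### The weights of the inserted graphs -/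

/-- The weight of a state of `bs`. -/
def w1 (S : LS (Option B)) (d : B → B) (x : B) : ℤ :=
  s1 (S.odd (some x)) (S.pos (some x)) * S.T none (some x) (some (d x))

/-- The weight of a state of `th`. -/
def w3 (S : LS (Option B)) (d : B → B) (q k x : B) : ℤ :=
  s3 (S.odd (some q)) (S.odd (some k)) (S.odd (some x)) (S.pos (some q)) (S.pos (some k))
    (S.pos (some x)) * (S.T (some q) (some k) (some x) * S.T (some (d q)) (some (d k)) (some (d x)))

omit [Fintype B] in
theorem wt_bs (hS : Sys S d) (x : B) : wt S bs (tb x (d x)) = w1 S d x := by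
  rw [wt_eq, tp_bs hS]
  unfold w1
  congr 1
  have h1 : S.odd (some (d x)) = S.odd (some x) := by rw [← hS.s, hS.ok.odd_du]
  refine sg_bs hS.o hS.o h1 ?_
  intro h2
  show S.pos (some (d x)) = !(S.pos (some x))
  rw [← hS.s]
  exact hS.ok.pos_du _ h2

omit [Fintype B] in
theorem wt_th (hS : Sys S d) (q k x : B) :
    wt S th (tt q k x (d q) (d k) (d x)) = w3 S d q k x := by
  have ht : Clo S th (tt q k x (d q) (d k) (d x)) := (tt_clo hS _).2 ⟨q, k, x, rfl⟩
  rw [wt_eq, tp_th hS]
  unfold w3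
  show sg th.e th.r (fun v => S.odd (tt q k x (d q) (d k) (d x) v))
      (fun v => S.pos (tt q k x (d q) (d k) (d x) v)) *
    (S.T (some q) (some k) (some x) * S.T (some (d q)) (some (d k)) (some (d x))) = _
  by_cases h0 : S.T (some q) (some k) (some x) = 0
  · rw [h0]
    ring
  · congr 1
    refine sg_th (fun v => ?_) (fun v hv => ?_) (hS.ok.par _ _ _ h0)
    · show S.odd (tt q k x (d q) (d k) (d x) (th.e v)) = _
      rw [ht.e, hS.ok.odd_du]
    · show S.pos (tt q k x (d q) (d k) (d x) (th.e v)) = _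
      rw [ht.e]
      exact hS.ok.pos_du _ hv

/-! ### State sums with signs -/

/-- The effect of a leg on the weight. -/
def hB (S : LS (Option B)) (d : B → B) (F : B → ℤ) (x : B) : ℤ :=
  so S (some x) * (F x * w1 S d x)

/-- The effect of a rung on the weight. -/
def tB (S : LS (Option B)) (d : B → B) (F : B → ℤ) (x : B) : ℤ :=
  so S (some x) * ∑ q : B, ∑ k : B, F k * w3 S d q k (d x)

/-- The weight for the first vertex. -/
def cB (S : LS (Option B)) (d : B → B) (x : B) : ℤ := so S (some x) * w1 S d (d x)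

theorem lb1 : ¬ Lg bs 1 := by
  rw [lg_bs]
  decide

theorem lb2 : ¬ Lg bs 2 := by
  rw [lg_bs]
  decide

theorem vB_bs (hS : Sys S d) (hd : Dual S bs 2) (hu : ¬ Lg G u) (F : B → ℤ) :
    vB S (cs G u bs 2) (Sum.inr 1) F = vB S G u (hB S d F) := by
  unfold vB
  rw [vF_cs hS.ok hS.o hd hu lb2]
  refine vF_congr hu fun x => ?_
  show so S (some x) * _ = so S (some x) * (F x * w1 S d x)
  congr 1
  rw [sum_one _ _ (tb x (d x)), wt_bs hS]
  · rfl
  · intro t
    rw [tb_clo hS]
    constructor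
    · rintro ⟨⟨y, rfl⟩, h1⟩
      have h2 : some (d y) = S.du (some x) := h1
      rw [hS.s] at h2
      have h3 := Option.some_injective _ h2
      rw [← hS.dd y, h3, hS.dd]
    · rintro rfl
      exact ⟨⟨x, rfl⟩, (hS.s x).symm⟩

theorem vB_th (hS : Sys S d) (hd : Dual S th 2) (hu : ¬ Lg G u) (F : B → ℤ) :
    vB S (cs G u th 2) (Sum.inr 1) F = vB S G u (tB S d F) := by
  unfold vB
  rw [vF_cs hS.ok hS.o hd hu (lg_th 2)]
  refine vF_congr hu fun x => ?_
  show so S (some x) * _ = so S (some x) * ∑ q : B, ∑ k : B, F k * w3 S d q k (d x)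
  congr 1
  rw [sum_par _ _ (fun p : B × B => tt p.1 p.2 (d x) (d p.1) (d p.2) x), ← Fintype.sum_prod_type']
  · refine Finset.sum_congr rfl fun p _ => ?_
    have h1 := wt_th hS p.1 p.2 (d x)
    rw [hS.dd] at h1
    rw [h1]
    rfl
  · intro p p' h
    obtain ⟨h1, h2, _⟩ := tt_inj h
    exact Prod.ext h1 h2
  · intro t
    rw [tt_clo hS]
    constructor
    · rintro ⟨⟨q, k, y, rfl⟩, h1⟩
      have h2 : some y = S.du (some x) := h1
      rw [hS.s] at h2
      have h3 := Option.some_injective _ h2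
      subst h3
      exact ⟨(q, k), by simp only [hS.dd]⟩
    · rintro ⟨p, rfl⟩
      exact ⟨⟨p.1, p.2, d x, by simp only [hS.dd]⟩, (hS.s x).symm⟩

/-- The effect of a bubble on the weight. -/
def oB (S : LS (Option B)) (d : B → B) (F : B → ℤ) (x : B) : ℤ :=
  so S (some x) * ∑ k : B, ∑ y : B, F x * w3 S d x k y

theorem vB_o (hS : Sys S d) (hd : Dual S th 3) (hu : ¬ Lg G u) (F : B → ℤ) :
    vB S (cs G u th 3) (Sum.inr 0) F = vB S G u (oB S d F) := by
  unfold vB
  rw [vF_cs hS.ok hS.o hd hu (lg_th 3)]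
  refine vF_congr hu fun x => ?_
  show so S (some x) * _ = so S (some x) * ∑ k : B, ∑ y : B, F x * w3 S d x k y
  congr 1
  rw [sum_par _ _ (fun p : B × B => tt x p.1 p.2 (d x) (d p.1) (d p.2)),
    ← Fintype.sum_prod_type']
  · refine Finset.sum_congr rfl fun p _ => ?_
    rw [wt_th hS x p.1 p.2]
    rfl
  · intro p p' h
    obtain ⟨_, h1, h2, _⟩ := tt_inj h
    exact Prod.ext h1 h2
  · intro t
    rw [tt_clo hS]
    constructor
    · rintro ⟨⟨q, k, y, rfl⟩, h1⟩
      have h2 : some (d q) = S.du (some x) := h1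
      rw [hS.s] at h2
      have h3 := Option.some_injective _ h2
      have h4 : q = x := by rw [← hS.dd q, h3, hS.dd]
      subst h4
      exact ⟨(k, y), rfl⟩
    · rintro ⟨p, rfl⟩
      exact ⟨⟨x, p.1, p.2, rfl⟩, (hS.s x).symm⟩

theorem vZ_cs (hS : Sys S d) (hd : Dual S bs 1) (hu : ¬ Lg G u) :
    vZ S (cs G u bs 1) = vB S G u (cB S d) := by
  rw [vZ_eq _ (Sum.inr 1)]
  unfold vB
  rw [vF_cs hS.ok hS.o hd hu lb1]
  refine vF_congr hu fun x => ?_
  show so S (some x) * _ = so S (some x) * w1 S d (d x)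
  congr 1
  rw [sum_one _ _ (tb (d x) x)]
  · have h1 := wt_bs hS (d x)
    rw [hS.dd] at h1
    rw [h1, one_mul]
  · intro t
    rw [tb_clo hS]
    constructor
    · rintro ⟨⟨y, rfl⟩, h1⟩
      have h2 : some y = S.du (some x) := h1
      rw [hS.s] at h2
      rw [Option.some_injective _ h2, hS.dd]
    · rintro rfl
      exact ⟨⟨d x, by simp only [hS.dd]⟩, (hS.s x).symm⟩

theorem vB_base (hS : Sys S d) (F : B → ℤ) : vB S bs 1 F = ∑ x : B, F x * w1 S d x := by
  unfold vB vF
  rw [sum_par _ _ (fun x : B => tb x (d x))]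
  · refine Finset.sum_congr rfl fun x _ => ?_
    rw [wt_bs hS]
    rfl
  · intro x y h
    exact (tb_inj h).1
  · exact tb_clo hS

/-! ### State sums without signs -/

/-- The effect of a leg on the weight. -/
def hG (S : LS (Option B)) (d : B → B) (F : B → B → ℤ) (x y : B) : ℤ :=
  ∑ k : B, F k y * S.T none (some k) (some (d x))

/-- The effect of a rung on the weight. -/
def tG (S : LS (Option B)) (d : B → B) (F : B → B → ℤ) (x y : B) : ℤ :=
  ∑ q : B, ∑ k : B, ∑ k' : B, F k k' *
    (S.T (some q) (some k) (some (d x)) * S.T (some (d q)) (some k') (some (d y)))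

/-- The weight for the first vertex. -/
def cG (S : LS (Option B)) (d : B → B) (x y : B) : ℤ := S.T none (some (d x)) (some (d y))

theorem gB_bs (hS : Sys S d) (hu : ¬ Lg G u) (F : B → B → ℤ) :
    gB S (cs G u bs 2) (Sum.inr 1) F = gB S G u (hG S d F) := by
  unfold gB
  rw [show (Sum.inr 1 : V ⊕ Fin 4) = Sum.inr (bs.e 2) from rfl, gF_cs hS.ok hu lb2]
  refine gF_congr hu fun x y => ?_
  show _ = ∑ k : B, F k y * S.T none (some k) (some (d x))
  rw [sum_par _ _ (fun k : B => tb k (d x))]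
  · refine Finset.sum_congr rfl fun k _ => ?_
    rw [tp_bs hS]
    rfl
  · intro k k' h
    exact (tb_inj h).1
  · intro t
    rw [tb_cut hS (Or.inr rfl)]
    constructor
    · rintro ⟨⟨p, rfl⟩, h1⟩
      have h2 : some p.2 = S.du (some x) := h1
      rw [hS.s] at h2
      exact ⟨p.1, by rw [← Option.some_injective _ h2]⟩
    · rintro ⟨k, rfl⟩
      exact ⟨⟨(k, d x), rfl⟩, (hS.s x).symm⟩

theorem gB_th (hS : Sys S d) (hu : ¬ Lg G u) (F : B → B → ℤ) :
    gB S (cs G u th 2) (Sum.inr 1) F = gB S G u (tG S d F) := by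
  unfold gB
  rw [gF_cs2 hS.ok hu (lg_th 2) (by decide) (by decide)]
  refine gF_congr hu fun x y => ?_
  show _ = ∑ q : B, ∑ k : B, ∑ k' : B, F k k' *
    (S.T (some q) (some k) (some (d x)) * S.T (some (d q)) (some k') (some (d y)))
  rw [sum_par _ _ (fun p : B × B × B => tt p.1 p.2.1 (d x) (d p.1) p.2.2 (d y)),
    Fintype.sum_prod_type]
  · refine Finset.sum_congr rfl fun q _ => ?_
    rw [Fintype.sum_prod_type]
    refine Finset.sum_congr rfl fun k _ => Finset.sum_congr rfl fun k' _ => ?_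
    rw [tp_th hS]
    rfl
  · intro p p' h
    obtain ⟨h1, h2, _, _, h3, _⟩ := tt_inj h
    exact Prod.ext h1 (Prod.ext h2 h3)
  · intro t
    rw [tt_cut2 hS]
    constructor
    · rintro ⟨⟨q, k, z, k', z', rfl⟩, h1, h2⟩
      have h3 : some z = S.du (some x) := h1
      have h4 : some z' = S.du (some y) := h2
      rw [hS.s] at h3 h4
      exact ⟨(q, k, k'), by
        rw [← Option.some_injective _ h3, ← Option.some_injective _ h4]⟩
    · rintro ⟨p, rfl⟩
      exact ⟨⟨p.1, p.2.1, d x, p.2.2, d y, rfl⟩, (hS.s x).symm, (hS.s y).symm⟩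

/-- The effect of a bubble on the weight. -/
def oG (S : LS (Option B)) (d : B → B) (F : B → B → ℤ) (x y : B) : ℤ :=
  ∑ q : B, ∑ k : B, ∑ z : B, F q y *
    (S.T (some q) (some k) (some z) * S.T (some (d x)) (some (d k)) (some (d z)))

theorem gB_o (hS : Sys S d) (hu : ¬ Lg G u) (F : B → B → ℤ) :
    gB S (cs G u th 3) (Sum.inr 0) F = gB S G u (oG S d F) := by
  unfold gB
  rw [show (Sum.inr 0 : V ⊕ Fin 6) = Sum.inr (th.e 3) from rfl, gF_cs hS.ok hu (lg_th 3)]
  refine gF_congr hu fun x y => ?_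
  show _ = ∑ q : B, ∑ k : B, ∑ z : B, F q y *
    (S.T (some q) (some k) (some z) * S.T (some (d x)) (some (d k)) (some (d z)))
  rw [sum_par _ _ (fun p : B × B × B => tt p.1 p.2.1 p.2.2 (d x) (d p.2.1) (d p.2.2)),
    Fintype.sum_prod_type]
  · refine Finset.sum_congr rfl fun q _ => ?_
    rw [Fintype.sum_prod_type]
    refine Finset.sum_congr rfl fun k _ => Finset.sum_congr rfl fun k' _ => ?_
    rw [tp_th hS]
    rfl
  · intro p p' h
    obtain ⟨h1, h2, h3, _⟩ := tt_inj h
    exact Prod.ext h1 (Prod.ext h2 h3)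
  · intro t
    rw [tt_cut3 hS]
    constructor
    · rintro ⟨⟨q, q', k, z, rfl⟩, h1⟩
      have h3 : some q' = S.du (some x) := h1
      rw [hS.s] at h3
      exact ⟨(q, k, z), by rw [← Option.some_injective _ h3]⟩
    · rintro ⟨p, rfl⟩
      exact ⟨⟨p.1, d x, p.2.1, p.2.2, rfl⟩, (hS.s x).symm⟩

theorem gZ_cs (hS : Sys S d) (hu : ¬ Lg G u) :
    tZ S (cs G u bs 1) = gB S G u (cG S d) := by
  rw [gF_cs0 hS.ok hu lb1]
  unfold gB
  refine gF_congr hu fun x y => ?_
  show _ = S.T none (some (d x)) (some (d y))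
  rw [sum_one _ _ (tb (d x) (d y)), tp_bs hS]
  · rfl
  · intro t
    rw [tb_cut hS (Or.inl rfl)]
    constructor
    · rintro ⟨⟨p, rfl⟩, h1, h2⟩
      have h3 : some p.1 = S.du (some x) := h1
      have h4 : some p.2 = S.du (some y) := h2
      rw [hS.s] at h3 h4
      rw [Option.some_injective _ h3, Option.some_injective _ h4]
    · rintro rfl
      exact ⟨⟨(d x, d y), rfl⟩, (hS.s x).symm, (hS.s y).symm⟩

theorem gB_base (hS : Sys S d) (F : B → B → ℤ) :
    gB S bs 1 F = ∑ x : B, ∑ y : B, F x y * S.T none (some x) (some y) := by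
  unfold gB gF
  rw [sum_par _ _ (fun p : B × B => tb p.1 p.2), ← Fintype.sum_prod_type']
  · refine Finset.sum_congr rfl fun p _ => ?_
    rw [tp_bs hS]
    rfl
  · intro p p' h
    obtain ⟨h1, h2⟩ := tb_inj h
    exact Prod.ext h1 h2
  · exact tb_cut hS (Or.inl rfl)

/-! ### The other half-edge -/

theorem vB_e (hS : Sys S d) (hu : ¬ Lg G u) (F : B → ℤ) :
    vB S G (G.e u) F = vB S G u fun x => F (d x) := by
  unfold vB vF
  refine Finset.sum_congr rfl fun s _ => ?_
  by_cases hs : Clo S G s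
  · obtain ⟨x, hx⟩ := Option.ne_none_iff_exists'.1 fun h' => hu ((hs.lg u).1 h')
    rw [if_pos hs, if_pos hs, hs.e, hx, hS.s]
    rfl
  · rw [if_neg hs, if_neg hs]

theorem gB_e (F : B → B → ℤ) : gB S G (G.e u) F = gB S G u fun x y => F y x := by
  unfold gB gF
  refine Finset.sum_congr rfl fun s _ => ?_
  have h1 : Cut S G (G.e u) s ↔ Cut S G u s := by
    constructor
    · exact fun h => ⟨h.lg, fun v h1 h2 => h.e v h2 (by rw [G.e2]; exact h1)⟩
    · exact fun h => ⟨h.lg, fun v h1 h2 => h.e v (by rw [G.e2] at h2; exact h2) h1⟩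
  rw [G.e2]
  by_cases hs : Cut S G u s
  · rw [if_pos hs, if_pos (h1.2 hs)]
    congr 1
    cases s u <;> cases s (G.e u) <;> rfl
  · rw [if_neg hs, if_neg fun h => hs (h1.1 h)]

end

end Pool.Agent.SWT85
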