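import Mathlib
import Pool.Agent.SWT85.Merge

/-!
# The diagram of a code
-/

set_option autoImplicit false

namespace Pool.Agent.SWT85

open Pool.Agent.Jac70

/-- Transport of a diagram to another set of half-edges. -/
def tp {H H' : Type} [DecidableEq H] [DecidableEq H'] (D : JD H) (φ : H ≃ H') : JD H' where
  e := (φ.symm.trans D.e).trans φ
  r := (φ.symm.trans D.r).trans φ
  K := D.K.map φ.toEmbedding
  e2 h := by simp [D.e2]
  e1 h := by
    intro hh
    have := D.e1 (φ.symm h)
    apply this
    apply φ.injective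
    simpa using hh
  r3 h := by simp [D.r3]
  r1 h := by
    intro hh
    have := D.r1 (φ.symm h)
    apply this
    apply φ.injective
    simpa using hh
  out h hh := by
    obtain ⟨u, hu, rfl⟩ := Finset.mem_map.1 hh
    simpa using D.out u hu
  ke h hh := by
    obtain ⟨u, hu, rfl⟩ := Finset.mem_map.1 hh
    simpa using D.ke u hu
  leg h hh := by
    obtain ⟨u, hu, rfl⟩ := Finset.mem_map.1 hh
    simpa using D.leg u hu
  cyc S h1 h2 := by
    have h3 := D.cyc (φ ⁻¹' S) (by
      obtain ⟨h, hh, hs⟩ := h1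
      obtain ⟨u, hu, rfl⟩ := Finset.mem_map.1 hh
      exact ⟨u, hu, hs⟩) (by
      intro u hu hs
      have := h2 (φ u) (Finset.mem_map_of_mem _ hu) hs
      simpa using this)
    intro h hh
    obtain ⟨u, hu, rfl⟩ := Finset.mem_map.1 hh
    exact h3 u hu
  conn S h1 h2 h3 := by
    have h4 := D.conn (φ ⁻¹' S) (by
      obtain ⟨h, hs⟩ := h1
      exact ⟨φ.symm h, by simpa using hs⟩) (by
      intro u hs
      have := h2 (φ u) hs
      simpa using this) (by
      intro u hs
      have := h3 (φ u) hs
      simpa using this)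
    ext h
    have h5 : φ.symm h ∈ φ ⁻¹' S := by rw [h4]; trivial
    simpa using h5
  ne h := by
    obtain ⟨u, hu⟩ := D.ne (φ.symm h)
    exact ⟨φ u, Finset.mem_map_of_mem _ hu⟩

section

variable {H H' : Type} [DecidableEq H] [DecidableEq H'] (D : JD H) (φ : H ≃ H')

theorem tp_e (h : H) : (tp D φ).e (φ h) = φ (D.e h) := by simp [tp]

theorem tp_r (h : H) : (tp D φ).r (φ h) = φ (D.r h) := by simp [tp]

theorem tp_K (h : H) : φ h ∈ (tp D φ).K ↔ h ∈ D.K := by simp [tp]

theorem tp_onC (h : H) : (tp D φ).onC (φ h) ↔ D.onC h := by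
  unfold JD.onC
  rw [tp_e, tp_K, tp_K]

theorem tp_vt (v h : H) : (tp D φ).vt (φ v) (φ h) ↔ D.vt v h := by
  unfold JD.vt
  rw [tp_r, tp_r]
  simp only [EmbeddingLike.apply_eq_iff_eq]

variable {D}

theorem Rz.tp {lam : H → ℕ} {cs ws : List H} {ls : List ℕ} {vs : List Tri}
    (R : Rz D lam cs ws ls vs) :
    Rz (SWT85.tp D φ) (fun h => lam (φ.symm h)) (cs.map φ) (ws.map φ) ls vs := by
  refine ⟨?_, ?_, ?_, ?_, ?_, ?_, ?_⟩
  · rw [← R.hl, List.map_map]
    refine List.map_congr_left fun c _ => ?_
    simp only [Function.comp, tp_r, Equiv.symm_apply_apply]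
  · rw [← R.hv, List.map_map]
    refine List.map_congr_left fun c _ => ?_
    simp only [Function.comp, tr, tp_r, Equiv.symm_apply_apply]
  · intro h
    obtain ⟨u, rfl⟩ := φ.surjective h
    rw [tp_K, R.hK, List.mem_map_of_injective φ.injective]
  · rw [List.map_map, ← List.map_rotate, ← R.cy, List.map_map]
    refine List.map_congr_left fun c _ => ?_
    simp only [Function.comp, tp_r, tp_e]
  · intro h
    obtain ⟨u, rfl⟩ := φ.surjective h
    obtain ⟨v, hv, hx⟩ := R.cov u
    refine ⟨φ v, ?_, (tp_vt D φ v u).2 hx⟩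
    rw [← List.map_append]
    exact List.mem_map_of_mem hv
  · rw [← List.map_append, List.pairwise_map]
    exact R.nd.imp fun {a b} h h' => h ((tp_vt D φ a b).1 h')
  · intro h h' h1 h2
    obtain ⟨u, rfl⟩ := φ.surjective h
    obtain ⟨u', rfl⟩ := φ.surjective h'
    rw [tp_onC] at h1 h2
    rw [tp_e]
    simp only [Equiv.symm_apply_apply, EmbeddingLike.apply_eq_iff_eq]
    exact R.lb u u' h1 h2

end

/-! ### Positions -/

section

variable (ls : List ℕ) (vs : List Tri)

/-- The positions of the half-edges. -/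
abbrev Pn : Type := Fin (ls.length + vs.length) × Fin 3

/-- The positions which have a label. -/
def lp (p : Pn ls vs) : Prop := ¬ (p.1.val < ls.length ∧ p.2 ≠ 2)

instance (p : Pn ls vs) : Decidable (lp ls vs p) := by
  unfold lp
  infer_instance

/-- Every label occurs at exactly two positions. -/
def Wf : Prop := ∀ p : Pn ls vs, lp ls vs p → ∃ q, lp ls vs q ∧ q ≠ p ∧ lab ls vs q = lab ls vs p ∧
  ∀ q', lp ls vs q' → lab ls vs q' = lab ls vs p → q' = p ∨ q' = q

/-- Every label is reached from the circle. -/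
def Cn : Prop := ∀ S : ℕ → Prop, (∀ x ∈ ls, S x) →
  (∀ t ∈ vs, S t.1 ∨ S t.2.1 ∨ S t.2.2 → S t.1 ∧ S t.2.1 ∧ S t.2.2) → ∀ x ∈ lbs ls vs, S x

/-- The cyclic orders. -/
def rP : Equiv.Perm (Pn ls vs) where
  toFun p := (p.1, p.2 + 1)
  invFun p := (p.1, p.2 - 1)
  left_inv p := by simp
  right_inv p := by simp

/-- The next vertex on the circle. -/
def sc (i : Fin (ls.length + vs.length)) : Fin (ls.length + vs.length) :=
  if h : i.val < ls.length then ⟨(i.val + 1) % ls.length,
    (Nat.mod_lt _ (by omega)).trans_le (Nat.le_add_right _ _)⟩ else i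

/-- The preceding vertex on the circle. -/
def pc (i : Fin (ls.length + vs.length)) : Fin (ls.length + vs.length) :=
  if h : i.val < ls.length then ⟨(i.val + (ls.length - 1)) % ls.length,
    (Nat.mod_lt _ (by omega)).trans_le (Nat.le_add_right _ _)⟩ else i

theorem sc_lt {i : Fin (ls.length + vs.length)} (h : i.val < ls.length) :
    (sc ls vs i).val < ls.length := by
  unfold sc
  rw [dif_pos h]
  exact Nat.mod_lt _ (by omega)

theorem pc_lt {i : Fin (ls.length + vs.length)} (h : i.val < ls.length) :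
    (pc ls vs i).val < ls.length := by
  unfold pc
  rw [dif_pos h]
  exact Nat.mod_lt _ (by omega)

theorem sc_val {i : Fin (ls.length + vs.length)} (h : i.val < ls.length) :
    (sc ls vs i).val = (i.val + 1) % ls.length := by
  unfold sc
  rw [dif_pos h]

theorem pc_val {i : Fin (ls.length + vs.length)} (h : i.val < ls.length) :
    (pc ls vs i).val = (i.val + (ls.length - 1)) % ls.length := by
  unfold pc
  rw [dif_pos h]

theorem pc_sc {i : Fin (ls.length + vs.length)} (h : i.val < ls.length) :
    pc ls vs (sc ls vs i) = i := by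
  apply Fin.ext
  rw [pc_val ls vs (sc_lt ls vs h), sc_val ls vs h, Nat.mod_add_mod]
  have h1 : i.val + 1 + (ls.length - 1) = i.val + ls.length := by omega
  rw [h1, Nat.add_mod_right, Nat.mod_eq_of_lt h]

theorem sc_pc {i : Fin (ls.length + vs.length)} (h : i.val < ls.length) :
    sc ls vs (pc ls vs i) = i := by
  apply Fin.ext
  rw [sc_val ls vs (pc_lt ls vs h), pc_val ls vs h, Nat.mod_add_mod]
  have h1 : i.val + (ls.length - 1) + 1 = i.val + ls.length := by omega
  rw [h1, Nat.add_mod_right, Nat.mod_eq_of_lt h]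

variable {ls vs}

/-- The other position with the same label. -/
noncomputable def pt (W : Wf ls vs) (p : Pn ls vs) (h : lp ls vs p) : Pn ls vs := (W p h).choose

theorem pt_lp (W : Wf ls vs) {p : Pn ls vs} (h : lp ls vs p) : lp ls vs (pt W p h) :=
  (W p h).choose_spec.1

theorem pt_ne (W : Wf ls vs) {p : Pn ls vs} (h : lp ls vs p) : pt W p h ≠ p :=
  (W p h).choose_spec.2.1

theorem pt_lab (W : Wf ls vs) {p : Pn ls vs} (h : lp ls vs p) :
    lab ls vs (pt W p h) = lab ls vs p := (W p h).choose_spec.2.2.1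

theorem pt_uniq (W : Wf ls vs) {p q : Pn ls vs} (h : lp ls vs p) (hq : lp ls vs q)
    (hl : lab ls vs q = lab ls vs p) : q = p ∨ q = pt W p h :=
  (W p h).choose_spec.2.2.2 q hq hl

theorem pt_pt (W : Wf ls vs) {p : Pn ls vs} (h : lp ls vs p) :
    pt W (pt W p h) (pt_lp W h) = p := by
  rcases pt_uniq W (pt_lp W h) h (pt_lab W h).symm with h1 | h1
  · exact absurd h1.symm (pt_ne W h)
  · exact h1.symm

/-- The edges. -/
noncomputable def ef (W : Wf ls vs) (p : Pn ls vs) : Pn ls vs :=
  if h : lp ls vs p then pt W p h else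
    if p.2 = 0 then (pc ls vs p.1, 1) else (sc ls vs p.1, 0)

theorem ef_lp (W : Wf ls vs) {p : Pn ls vs} (h : lp ls vs p) : ef W p = pt W p h := dif_pos h

theorem nlp {i : Fin (ls.length + vs.length)} {j : Fin 3} (h : i.val < ls.length) (hj : j ≠ 2) :
    ¬ lp ls vs (i, j) := fun h' => h' ⟨h, hj⟩

theorem ef_zero (W : Wf ls vs) {i : Fin (ls.length + vs.length)} (h : i.val < ls.length) :
    ef W (i, 0) = (pc ls vs i, 1) := by
  unfold ef
  rw [dif_neg (nlp h (by decide)), if_pos rfl]

theorem ef_one (W : Wf ls vs) {i : Fin (ls.length + vs.length)} (h : i.val < ls.length) :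
    ef W (i, 1) = (sc ls vs i, 0) := by
  unfold ef
  rw [dif_neg (nlp h (by decide)), if_neg]
  exact (by decide : (1 : Fin 3) ≠ 0)

theorem cases_p (p : Pn ls vs) : lp ls vs p ∨ (p.1.val < ls.length ∧ p = (p.1, 0)) ∨
    (p.1.val < ls.length ∧ p = (p.1, 1)) := by
  by_cases h : lp ls vs p
  · exact Or.inl h
  · right
    unfold lp at h
    rw [not_not] at h
    obtain ⟨i, j⟩ := p
    obtain ⟨h1, h2⟩ := h
    simp only at h1 h2 ⊢
    fin_cases j
    · exact Or.inl ⟨h1, rfl⟩
    · exact Or.inr ⟨h1, rfl⟩
    · exact absurd rfl h2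

theorem ef_ef (W : Wf ls vs) (p : Pn ls vs) : ef W (ef W p) = p := by
  rcases cases_p p with h | ⟨h, hp⟩ | ⟨h, hp⟩
  · rw [ef_lp W h, ef_lp W (pt_lp W h), pt_pt]
  · rw [hp, ef_zero W h, ef_one W (pc_lt ls vs h), sc_pc ls vs h]
  · rw [hp, ef_one W h, ef_zero W (sc_lt ls vs h), pc_sc ls vs h]

theorem ef_ne (W : Wf ls vs) (p : Pn ls vs) : ef W p ≠ p := by
  rcases cases_p p with h | ⟨h, hp⟩ | ⟨h, hp⟩
  · rw [ef_lp W h]
    exact pt_ne W h
  · rw [hp, ef_zero W h]
    intro h'
    exact absurd (congrArg Prod.snd h') (by decide : (1 : Fin 3) ≠ 0)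
  · rw [hp, ef_one W h]
    intro h'
    exact absurd (congrArg Prod.snd h') (by decide : (0 : Fin 3) ≠ 1)

/-- The incoming half-arcs. -/
def KP (ls : List ℕ) (vs : List Tri) : Finset (Pn ls vs) :=
  Finset.univ.filter fun p => p.1.val < ls.length ∧ p.2 = 0

theorem mem_KP {p : Pn ls vs} : p ∈ KP ls vs ↔ p.1.val < ls.length ∧ p.2 = 0 := by
  simp [KP]

theorem circ {S : Set (Pn ls vs)} (hc : ∀ i : Fin (ls.length + vs.length), i.val < ls.length →
    (i, (0 : Fin 3)) ∈ S → (sc ls vs i, (0 : Fin 3)) ∈ S) {i : Fin (ls.length + vs.length)}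
    (hi : i.val < ls.length) (h0 : (i, (0 : Fin 3)) ∈ S) (j : Fin (ls.length + vs.length))
    (hj : j.val < ls.length) : (j, (0 : Fin 3)) ∈ S := by
  have key : ∀ m : ℕ, ∀ k : Fin (ls.length + vs.length), k.val = (i.val + m) % ls.length →
      (k, (0 : Fin 3)) ∈ S := by
    intro m
    induction m with
    | zero =>
      intro k hk
      have h1 : k = i := Fin.ext (by rw [hk, Nat.add_zero, Nat.mod_eq_of_lt hi])
      rw [h1]
      exact h0
    | succ m ih =>
      intro k hk
      have hl : 0 < ls.length := by omega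
      have hk' : (i.val + m) % ls.length < ls.length := Nat.mod_lt _ hl
      have h1 := hc ⟨(i.val + m) % ls.length, by omega⟩ hk' (ih _ rfl)
      have h2 : sc ls vs ⟨(i.val + m) % ls.length, by omega⟩ = k := by
        apply Fin.ext
        rw [sc_val ls vs hk', hk]
        simp only [Nat.mod_add_mod]
        rfl
      rw [h2] at h1
      exact h1
  refine key (j.val + (ls.length - i.val)) j ?_
  have h1 : i.val + (j.val + (ls.length - i.val)) = j.val + ls.length := by omega
  rw [h1, Nat.add_mod_right, Nat.mod_eq_of_lt hj]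

/-- The diagram of the code. -/
noncomputable def mk (W : Wf ls vs) (C : Cn ls vs) (h0 : ls ≠ []) : JD (Pn ls vs) where
  e := Function.Involutive.toPerm (ef W) (ef_ef W)
  r := rP ls vs
  K := KP ls vs
  e2 := ef_ef W
  e1 := ef_ne W
  r3 p := by
    show (p.1, p.2 + 1 + 1 + 1) = p
    rw [add_assoc, add_assoc, (by decide : (1 : Fin 3) + (1 + 1) = 0), add_zero]
  r1 p := by
    intro h
    have h1 : p.2 + 1 = p.2 := congrArg Prod.snd h
    have h2 : ∀ j : Fin 3, j + 1 ≠ j := by decide
    exact h2 _ h1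
  out p hp := by
    obtain ⟨h1, h2⟩ := mem_KP.1 hp
    obtain ⟨i, j⟩ := p
    simp only at h1 h2
    subst h2
    show ef W (i, 1) ∈ _
    rw [ef_one W h1]
    exact mem_KP.2 ⟨sc_lt ls vs h1, rfl⟩
  ke p hp := by
    obtain ⟨h1, h2⟩ := mem_KP.1 hp
    obtain ⟨i, j⟩ := p
    simp only at h1 h2
    subst h2
    show ef W (i, 0) ∉ _
    rw [ef_zero W h1]
    intro h3
    exact absurd (mem_KP.1 h3).2 (by decide : (1 : Fin 3) ≠ 0)
  leg p hp := by
    obtain ⟨h1, h2⟩ := mem_KP.1 hp
    obtain ⟨i, j⟩ := p
    simp only at h1 h2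
    subst h2
    show (i, (2 : Fin 3)) ∉ _ ∧ ef W (i, 2) ∉ _
    have hl : lp ls vs (i, 2) := fun h => h.2 rfl
    refine ⟨fun h3 => absurd (mem_KP.1 h3).2 (by decide : (2 : Fin 3) ≠ 0), fun h3 => ?_⟩
    rw [ef_lp W hl] at h3
    obtain ⟨h4, h5⟩ := mem_KP.1 h3
    exact pt_lp W hl ⟨h4, by rw [h5]; decide⟩
  cyc S h1 h2 := by
    obtain ⟨⟨i, j⟩, hp, hs⟩ := h1
    obtain ⟨h3, h4⟩ := mem_KP.1 hp
    simp only at h3 h4
    subst h4
    rintro ⟨i', j'⟩ hp'
    obtain ⟨h5, h6⟩ := mem_KP.1 hp'
    simp only at h5 h6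
    subst h6
    refine circ (fun k hk hks => ?_) h3 hs i' h5
    have h7 := h2 (k, 0) (mem_KP.2 ⟨hk, rfl⟩) hks
    have h8 : ef W (k, 1) ∈ S := h7
    rwa [ef_one W hk] at h8
  conn S h1 h2 h3 := by
    have h2' : ∀ p ∈ S, ef W p ∈ S := h2
    have h3' : ∀ p ∈ S, (p.1, p.2 + 1) ∈ S := h3
    have hk : 0 < ls.length := List.length_pos_iff.2 h0
    have all : ∀ T : Set (Pn ls vs), (∀ p ∈ T, ef W p ∈ T) → (∀ p ∈ T, (p.1, p.2 + 1) ∈ T) →
        ((⟨0, by omega⟩ : Fin (ls.length + vs.length)), (0 : Fin 3)) ∈ T → T = Set.univ := by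
      intro T t1 t2 t3
      have r0 : ∀ i j j', (i, j) ∈ T → (i, j') ∈ T := by
        intro i j j' h
        have g1 := t2 _ h
        have g2 := t2 _ g1
        simp only at g1 g2
        have hj : j' = j ∨ j' = j + 1 ∨ j' = j + 1 + 1 := by
          clear g1 g2 h
          revert j j'
          decide
        rcases hj with rfl | rfl | rfl
        · exact h
        · exact g1
        · exact g2
      have c0 : ∀ i : Fin (ls.length + vs.length), i.val < ls.length → ∀ j, (i, j) ∈ T := by
        intro i hi j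
        refine r0 i 0 j (circ (fun k hk hks => ?_) (i := ⟨0, by omega⟩) hk t3 i hi)
        have g1 := t1 _ (r0 k 0 1 hks)
        rwa [ef_one W hk] at g1
      have lbl : ∀ x ∈ lbs ls vs, ∀ p, lp ls vs p → lab ls vs p = x → p ∈ T := by
        have hup : ∀ p, lp ls vs p → p ∈ T → ∀ q, lp ls vs q → lab ls vs q = lab ls vs p →
            q ∈ T := by
          intro p hp hpT q hq hl
          rcases pt_uniq W hp hq hl with h | h
          · rw [h]; exact hpT
          · have := t1 p hpT
            rw [ef_lp W hp] at this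
            rw [h]; exact this
        refine C _ ?_ ?_
        · intro x hx q hq hl
          obtain ⟨i, hi, rfl⟩ := List.getElem_of_mem hx
          have hp : lp ls vs (⟨i, by omega⟩, 2) := fun h => h.2 rfl
          refine hup _ hp (c0 _ hi 2) q hq ?_
          rw [hl]
          unfold lab
          simp only
          rw [List.getElem_append_left (by rw [List.length_map]; exact hi), List.getElem_map]
          rfl
        · intro t ht hS
          obtain ⟨i, hi, rfl⟩ := List.getElem_of_mem ht
          have hlab : ∀ j : Fin 3, lab ls vs (⟨ls.length + i, by omega⟩, j) = cp j vs[i] := by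
            intro j
            unfold lab
            simp only
            rw [List.getElem_append_right (by rw [List.length_map]; omega)]
            simp only [List.length_map, Nat.add_sub_cancel_left]
          have hpl : ∀ j : Fin 3, lp ls vs (⟨ls.length + i, by omega⟩, j) := by
            intro j h
            have := h.1
            simp only at this
            omega
          have hin : ∀ j : Fin 3, (⟨ls.length + i, by omega⟩, j) ∈ T := by
            intro j
            rcases hS with h | h | h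
            · exact r0 _ 0 j (h _ (hpl 0) (hlab 0))
            · exact r0 _ 1 j (h _ (hpl 1) (hlab 1))
            · exact r0 _ 2 j (h _ (hpl 2) (hlab 2))
          exact ⟨fun q hq hl => hup _ (hpl 0) (hin 0) q hq (hl.trans (hlab 0).symm),
            fun q hq hl => hup _ (hpl 1) (hin 1) q hq (hl.trans (hlab 1).symm),
            fun q hq hl => hup _ (hpl 2) (hin 2) q hq (hl.trans (hlab 2).symm)⟩
      ext p
      simp only [Set.mem_univ, iff_true]
      by_cases hp : lp ls vs p
      · refine lbl (lab ls vs p) ?_ p hp rfl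
        obtain ⟨i, j⟩ := p
        unfold lab lbs
        simp only
        by_cases hi : i.val < ls.length
        · rw [List.getElem_append_left (by rw [List.length_map]; exact hi), List.getElem_map]
          refine List.mem_append_left _ ?_
          have : cp j ((ls[i.val], ls[i.val], ls[i.val]) : Tri) = ls[i.val] := by
            fin_cases j <;> rfl
          rw [this]
          exact List.getElem_mem _
        · rw [List.getElem_append_right (by rw [List.length_map]; omega)]
          have hb : i.val - (ls.map (fun l => ((l, l, l) : Tri))).length < vs.length := by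
            rw [List.length_map]
            have := i.2
            omega
          obtain ⟨t, ht, e⟩ : ∃ t ∈ vs, vs[i.val -
              (ls.map (fun l => ((l, l, l) : Tri))).length] = t := ⟨_, List.getElem_mem hb, rfl⟩
          rw [e]
          refine List.mem_append_right _ (List.mem_flatMap.2 ⟨t, ht, ?_⟩)
          fin_cases j <;> simp [cp]
      · unfold lp at hp
        rw [not_not] at hp
        exact c0 p.1 hp.1 p.2
    by_cases hc : ((⟨0, by omega⟩ : Fin (ls.length + vs.length)), (0 : Fin 3)) ∈ S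
    · exact all S h2' h3' hc
    · exfalso
      have h4 := all Sᶜ (fun p hp h => hp (by
        have := h2' _ h
        rwa [ef_ef] at this)) (fun p hp h => hp (by
        have g1 := h3' _ h
        have g2 := h3' _ g1
        simp only at g1 g2
        rwa [add_assoc, add_assoc, (by decide : (1 : Fin 3) + (1 + 1) = 0), add_zero] at g2)) hc
      obtain ⟨p, hp⟩ := h1
      have : p ∈ Sᶜ := by rw [h4]; trivial
      exact this hp
  ne _ := ⟨(⟨0, by
    have := List.length_pos_iff.2 h0
    omega⟩, 0), mem_KP.2 ⟨List.length_pos_iff.2 h0, rfl⟩⟩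

end

end Pool.Agent.SWT85
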