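import Mathlib
import Pool.Agent.SWT85.Mkd

/-!
# Every well formed connected code describes a diagram
-/

set_option autoImplicit false

namespace Pool.Agent.SWT85

open Pool.Agent.Jac70

section

variable {ls : List ℕ} {vs : List Tri}

/-- The vertices on the circle. -/
def csP (ls : List ℕ) (vs : List Tri) : List (Pn ls vs) :=
  List.ofFn fun i : Fin ls.length => (⟨i.val, by have := i.2; omega⟩, 0)

/-- The other vertices. -/
def wsP (ls : List ℕ) (vs : List Tri) : List (Pn ls vs) :=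
  List.ofFn fun i : Fin vs.length => (⟨ls.length + i.val, by have := i.2; omega⟩, 0)

theorem mk_r (W : Wf ls vs) (C : Cn ls vs) (h0 : ls ≠ []) (p : Pn ls vs) :
    (mk W C h0).r p = (p.1, p.2 + 1) := rfl

theorem mk_e (W : Wf ls vs) (C : Cn ls vs) (h0 : ls ≠ []) (p : Pn ls vs) :
    (mk W C h0).e p = ef W p := rfl

theorem mk_vt (W : Wf ls vs) (C : Cn ls vs) (h0 : ls ≠ []) (p q : Pn ls vs) :
    (mk W C h0).vt p q ↔ q.1 = p.1 := by
  unfold JD.vt
  rw [mk_r, mk_r]
  obtain ⟨i, j⟩ := p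
  obtain ⟨i', j'⟩ := q
  simp only [Prod.mk.injEq]
  constructor
  · rintro (h | h | h) <;> exact h.1
  · intro h
    have hj : j' = j ∨ j' = j + 1 ∨ j' = j + 1 + 1 := by
      clear h
      revert j j'
      decide
    tauto

theorem mk_onC (W : Wf ls vs) (C : Cn ls vs) (h0 : ls ≠ []) (p : Pn ls vs) :
    (mk W C h0).onC p ↔ ¬ lp ls vs p := by
  rw [onC_iff]
  unfold lp
  rw [not_not]
  constructor
  · rintro ⟨u, hu, h | h⟩
    · have h1 := mem_KP.1 hu
      rw [h]
      exact ⟨h1.1, by rw [h1.2]; decide⟩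
    · have h1 := mem_KP.1 hu
      rw [h, mk_r]
      exact ⟨h1.1, by simp only [h1.2]; decide⟩
  · rintro ⟨h1, h2⟩
    refine ⟨(p.1, 0), mem_KP.2 ⟨h1, rfl⟩, ?_⟩
    rw [mk_r]
    obtain ⟨i, j⟩ := p
    fin_cases j
    · exact Or.inl rfl
    · exact Or.inr rfl
    · exact absurd rfl h2

theorem lab_lt {i : ℕ} (hi : i < ls.length) (j : Fin 3) :
    lab ls vs (⟨i, by omega⟩, j) = ls[i] := by
  unfold lab
  simp only
  rw [List.getElem_append_left (by rw [List.length_map]; exact hi), List.getElem_map]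
  fin_cases j <;> rfl

theorem lab_ge {i : ℕ} (hi : i < vs.length) (j : Fin 3) :
    lab ls vs (⟨ls.length + i, by omega⟩, j) = cp j vs[i] := by
  unfold lab
  simp only
  rw [List.getElem_append_right (by rw [List.length_map]; omega)]
  simp only [List.length_map, Nat.add_sub_cancel_left]

theorem mk_rz (W : Wf ls vs) (C : Cn ls vs) (h0 : ls ≠ []) :
    Rz (mk W C h0) (lab ls vs) (csP ls vs) (wsP ls vs) ls vs := by
  have hcs : ∀ p : Pn ls vs, p ∈ csP ls vs ↔ p.1.val < ls.length ∧ p.2 = 0 := by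
    intro p
    unfold csP
    rw [List.mem_ofFn]
    constructor
    · rintro ⟨i, rfl⟩
      exact ⟨i.2, rfl⟩
    · rintro ⟨h1, h2⟩
      exact ⟨⟨p.1.val, h1⟩, Prod.ext rfl h2.symm⟩
  have hws : ∀ p : Pn ls vs, p ∈ wsP ls vs ↔ ls.length ≤ p.1.val ∧ p.2 = 0 := by
    intro p
    unfold wsP
    rw [List.mem_ofFn]
    constructor
    · rintro ⟨i, rfl⟩
      exact ⟨Nat.le_add_right _ _, rfl⟩
    · rintro ⟨h1, h2⟩
      have h3 := p.1.2
      refine ⟨⟨p.1.val - ls.length, by omega⟩, Prod.ext (Fin.ext ?_) h2.symm⟩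
      simp only
      omega
  refine ⟨?_, ?_, ?_, ?_, ?_, ?_, ?_⟩
  · unfold csP
    rw [List.map_ofFn]
    refine List.ext_getElem (by simp) fun i h1 h2 => ?_
    rw [List.getElem_ofFn]
    exact lab_lt h2 _
  · unfold wsP
    rw [List.map_ofFn]
    refine List.ext_getElem (by simp) fun i h1 h2 => ?_
    rw [List.getElem_ofFn]
    show (lab ls vs _, lab ls vs _, lab ls vs _) = _
    rw [mk_r, mk_r]
    have e1 := lab_ge (ls := ls) (vs := vs) h2 0
    have e2 := lab_ge (ls := ls) (vs := vs) h2 1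
    have e3 := lab_ge (ls := ls) (vs := vs) h2 2
    simp only
    refine (congrArg₂ Prod.mk e1 (congrArg₂ Prod.mk e2 e3)).trans ?_
    rfl
  · intro p
    rw [hcs]
    exact mem_KP
  · refine List.ext_getElem (by simp) fun i h1 h2 => ?_
    have hi : i < ls.length := by simpa [csP] using h1
    rw [List.getElem_map, List.getElem_rotate]
    unfold csP
    simp only [List.getElem_ofFn, List.length_ofFn]
    rw [mk_r, mk_e]
    show ef W (⟨i, _⟩, 1) = _
    rw [ef_one W hi]
    exact Prod.ext (Fin.ext (sc_val ls vs hi)) rfl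
  · intro p
    by_cases hp : p.1.val < ls.length
    · exact ⟨(p.1, 0), List.mem_append_left _ ((hcs _).2 ⟨hp, rfl⟩), (mk_vt W C h0 _ _).2 rfl⟩
    · exact ⟨(p.1, 0), List.mem_append_right _ ((hws _).2 ⟨not_lt.1 hp, rfl⟩),
        (mk_vt W C h0 _ _).2 rfl⟩
  · rw [List.pairwise_append]
    refine ⟨?_, ?_, ?_⟩
    · unfold csP
      rw [List.pairwise_ofFn]
      intro i j hij h
      have h1 := (mk_vt W C h0 _ _).1 h
      simp only [Fin.mk.injEq] at h1
      exact absurd (Fin.ext h1) hij.ne'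
    · unfold wsP
      rw [List.pairwise_ofFn]
      intro i j hij h
      have h1 := (mk_vt W C h0 _ _).1 h
      simp only [Fin.mk.injEq, Nat.add_left_cancel_iff] at h1
      exact absurd (Fin.ext h1) hij.ne'
    · intro a ha b hb h
      have h1 := (mk_vt W C h0 _ _).1 h
      have h2 := ((hcs a).1 ha).1
      have h3 := ((hws b).1 hb).1
      rw [h1] at h3
      omega
  · intro p q hp hq
    rw [mk_onC, not_not] at hp hq
    rw [mk_e, ef_lp W hp]
    constructor
    · intro h
      exact pt_uniq W hp hq h.symm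
    · rintro (h | h)
      · rw [h]
      · rw [h, pt_lab]

theorem good_of {H : Type} [DecidableEq H] (W : Wf ls vs) (C : Cn ls vs) (h0 : ls ≠ [])
    (φ : Pn ls vs ≃ H) : Good H ls vs := ((mk_rz W C h0).tp φ).good

end

end Pool.Agent.SWT85
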