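import Pool.Agent.SWT85.Bd

/-!
# Ladders: the numbers
-/

set_option autoImplicit false

namespace Pool.Agent.SWT85

open Equiv Pool.Agent.SWT80 Pool.Agent.SWT45 Pool.Agent.SWT67 Pool.Agent.SWT93

/-! ### `osp(1|2)` -/

/-- The matrix of a rung. -/
def mO (x k : Fin 5) : ℤ :=
  (![![0, 1, -4, 1, -4], ![-1, -1, 0, -2, -2], ![-4, 0, -4, 2, 0], ![-1, -2, -2, -1, 0],
    ![-4, 2, 0, 0, -4]] : Fin 5 → Fin 5 → ℤ) x k

theorem mO_eq : ∀ x k : Fin 5, so osp (some x) * ∑ q : Fin 5, w3 osp odu q k (odu x) = mO x k := by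
  decide +kernel

theorem tB_eq (F : Fin 5 → ℤ) (x : Fin 5) : tB osp odu F x = ∑ k, F k * mO x k := by
  unfold tB
  rw [Finset.sum_comm, Finset.mul_sum]
  refine Finset.sum_congr rfl fun k _ => ?_
  rw [← mO_eq, ← Finset.mul_sum]
  ring

theorem hO_eq : ∀ x : Fin 5, so osp (some x) * w1 osp odu x =
    (![0, 1, 1, -1, -1] : Fin 5 → ℤ) x := by
  decide +kernel

theorem hB_eq (F : Fin 5 → ℤ) (x : Fin 5) :
    hB osp odu F x = F x * (![0, 1, 1, -1, -1] : Fin 5 → ℤ) x := by
  unfold hB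
  rw [← hO_eq]
  ring

theorem cO_eq : ∀ x : Fin 5, cB osp odu x = (![0, -1, -1, 1, 1] : Fin 5 → ℤ) x := by
  decide +kernel

theorem bO_eq : ∀ x : Fin 5, w1 osp odu x = (![0, -1, 1, 1, -1] : Fin 5 → ℤ) x := by
  decide +kernel

theorem oO_eq : ∀ x : Fin 5, so osp (some x) * ∑ k : Fin 5, ∑ y : Fin 5, w3 osp odu x k y = -6 := by
  decide +kernel

theorem oB_eq (F : Fin 5 → ℤ) (x : Fin 5) : oB osp odu F x = F x * (-6) := by
  unfold oB
  rw [← oO_eq x]
  simp only [Finset.mul_sum]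
  refine Finset.sum_congr rfl fun k _ => Finset.sum_congr rfl fun y _ => ?_
  ring

/-- The numbers for `osp(1|2)`. -/
def oV : List Ll → ℤ → ℤ → ℤ → ℤ → ℤ → ℤ
  | [], _, b, c, d, e => - b + c + d - e
  | .h :: w, _, b, c, d, e => oV w 0 b c (-d) (-e)
  | .k :: w, _, b, c, d, e => oV w 0 (-b) (-c) d e
  | .r :: w, a, b, c, d, e => oV w (b - 4 * c + d - 4 * e) (- a - b - 2 * d - 2 * e)
      (-4 * a - 4 * c + 2 * d) (- a - 2 * b - 2 * c - d) (-4 * a + 2 * b - 4 * e)
  | .o :: w, a, b, c, d, e => oV w (a * (-6)) (b * (-6)) (c * (-6)) (d * (-6)) (e * (-6))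
  | .p :: w, a, b, c, d, e => oV w (a * (-6)) (b * (-6)) (c * (-6)) (d * (-6)) (e * (-6))

theorem oN_eq (w : List Ll) : ∀ a b c d e : ℤ, oN w ![a, b, c, d, e] = oV w a b c d e := by
  induction w with
  | nil =>
    intro a b c d e
    simp only [oN, oV, Fin.sum_univ_five, bO_eq]
    simp
    ring
  | cons l w ih =>
    intro a b c d e
    cases l with
    | h =>
      show oN w (hB osp odu ![a, b, c, d, e]) = oV w 0 b c (-d) (-e)
      rw [← ih]
      congr 1
      funext x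
      rw [hB_eq]
      fin_cases x <;> simp
    | k =>
      show oN w (fun x => hB osp odu (fun y => (![a, b, c, d, e] : Fin 5 → ℤ) (odu y)) (odu x)) =
        oV w 0 (-b) (-c) d e
      rw [← ih]
      congr 1
      funext x
      rw [hB_eq]
      fin_cases x <;> simp [odu]
    | r =>
      show oN w (tB osp odu ![a, b, c, d, e]) = oV w (b - 4 * c + d - 4 * e)
        (- a - b - 2 * d - 2 * e) (-4 * a - 4 * c + 2 * d) (- a - 2 * b - 2 * c - d)
        (-4 * a + 2 * b - 4 * e)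
      rw [← ih]
      congr 1
      funext x
      rw [tB_eq, Fin.sum_univ_five]
      fin_cases x <;> simp [mO] <;> ring
    | o =>
      show oN w (oB osp odu ![a, b, c, d, e]) = oV w (a * (-6)) (b * (-6)) (c * (-6)) (d * (-6))
        (e * (-6))
      rw [← ih]
      congr 1
      funext x
      rw [oB_eq]
      fin_cases x <;> simp
    | p =>
      show oN w (fun x => oB osp odu (fun y => (![a, b, c, d, e] : Fin 5 → ℤ) (odu y)) (odu x)) =
        oV w (a * (-6)) (b * (-6)) (c * (-6)) (d * (-6)) (e * (-6))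
      rw [← ih]
      congr 1
      funext x
      rw [oB_eq]
      fin_cases x <;> simp [odu]

/-! ### `gl(3)` -/

/-- The weights which depend only on the class and on the difference of the first indices. -/
def em (v : Fin 3 → Fin 3 → ℤ) (x y : Fin 3 × Fin 3) : ℤ :=
  if (x.2 - x.1) + (y.2 - y.1) = 0 then v (x.2 - x.1) (y.1 - x.1) else 0

theorem gh_eq (k z : Fin 3 × Fin 3) : gh k z =
    if k = (z.2, z.1) then (![0, 1, -1] : Fin 3 → ℤ) (k.2 - k.1) else 0 := by
  revert k z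
  decide +kernel

theorem hG_eq (F : Fin 3 × Fin 3 → Fin 3 × Fin 3 → ℤ) (x y : Fin 3 × Fin 3) :
    hG gl gd F x y = F x y * (![0, 1, -1] : Fin 3 → ℤ) (x.2 - x.1) := by
  show ∑ k, F k y * gh k (gd x) = _
  rw [Finset.sum_eq_single x]
  · rw [gh_eq]
    exact congrArg (F x y * ·) (if_pos rfl)
  · intro k _ hk
    rw [gh_eq]
    exact (congrArg (F k y * ·) (if_neg fun h => hk h)).trans (mul_zero _)
  · intro h
    exact absurd (Finset.mem_univ x) h

theorem sum_T (q z : Fin 3 × Fin 3) (g : Fin 3 × Fin 3 → ℤ) :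
    ∑ k, g k * gT3 q k z = (if z.2 = q.1 then g (q.2, z.1) else 0) -
      (if q.2 = z.1 then g (z.2, q.1) else 0) := by
  unfold gT3
  simp only [mul_sub, Finset.sum_sub_distrib, mul_ite, mul_one, mul_zero]
  congr 1
  · by_cases h : z.2 = q.1
    · rw [if_pos h, Finset.sum_eq_single (q.2, z.1)]
      · rw [if_pos ⟨rfl, rfl, h⟩]
      · intro k _ hk
        rw [if_neg fun h' => hk (Prod.ext h'.1.symm h'.2.1)]
      · intro h'
        exact absurd (Finset.mem_univ _) h'
    · rw [if_neg h]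
      exact Finset.sum_eq_zero fun k _ => if_neg fun h' => h h'.2.2
  · by_cases h : q.2 = z.1
    · rw [if_pos h, Finset.sum_eq_single (z.2, q.1)]
      · rw [if_pos ⟨h, rfl, rfl⟩]
      · intro k _ hk
        rw [if_neg fun h' => hk (Prod.ext h'.2.1.symm h'.2.2)]
      · intro h'
        exact absurd (Finset.mem_univ _) h'
    · rw [if_neg h]
      exact Finset.sum_eq_zero fun k _ => if_neg fun h' => h h'.1

theorem tG_eq (F : Fin 3 × Fin 3 → Fin 3 × Fin 3 → ℤ) (x y : Fin 3 × Fin 3) :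
    tG gl gd F x y = F (y.1, x.2) (x.1, y.2) + F (x.1, y.2) (y.1, x.2) -
      (if x.1 = y.2 then ∑ j, F (j, x.2) (y.1, j) else 0) -
      (if x.2 = y.1 then ∑ j, F (x.1, j) (j, y.2) else 0) := by
  have h1 : tG gl gd F x y = ∑ q : Fin 3 × Fin 3,
      ((if x.1 = q.1 then ∑ k', F (q.2, x.2) k' * gT3 (gd q) k' (gd y) else 0) -
        (if q.2 = x.2 then ∑ k', F (x.1, q.1) k' * gT3 (gd q) k' (gd y) else 0)) := by
    show ∑ q, ∑ k, ∑ k', F k k' * (gT3 q k (gd x) * gT3 (gd q) k' (gd y)) = _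
    refine Finset.sum_congr rfl fun q _ => ?_
    have h2 : ∀ k, ∑ k', F k k' * (gT3 q k (gd x) * gT3 (gd q) k' (gd y)) =
        (∑ k', F k k' * gT3 (gd q) k' (gd y)) * gT3 q k (gd x) := by
      intro k
      rw [Finset.sum_mul]
      exact Finset.sum_congr rfl fun k' _ => by ring
    rw [Finset.sum_congr rfl fun k _ => h2 k]
    exact sum_T q (gd x) fun k => ∑ k', F k k' * gT3 (gd q) k' (gd y)
  rw [h1, Fintype.sum_prod_type]
  simp only [sum_T]
  simp only [gd, Fin.sum_univ_three]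
  obtain ⟨x1, x2⟩ := x
  obtain ⟨y1, y2⟩ := y
  fin_cases x1 <;> fin_cases x2 <;> fin_cases y1 <;> fin_cases y2 <;> simp
  all_goals try ring

/-- The effect of a rung. -/
def t9 (v : Fin 3 → Fin 3 → ℤ) (c d : Fin 3) : ℤ :=
  v (c - d) (-d) + v (d - c) d - (if c = d then 2 * (v 0 0 + v 1 1 + v 2 2) else 0)

theorem em_t (v : Fin 3 → Fin 3 → ℤ) : tG gl gd (em v) = em (t9 v) := by
  funext x y
  rw [tG_eq]
  obtain ⟨x1, x2⟩ := x
  obtain ⟨y1, y2⟩ := y
  simp only [em, t9, Fin.sum_univ_three]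
  have n1 : (-1 : Fin 3) = 2 := by decide
  have n2 : (-2 : Fin 3) = 1 := by decide
  have a12 : (1 : Fin 3) + 2 = 0 := by decide
  have a21 : (2 : Fin 3) + 1 = 0 := by decide
  have a11 : (1 : Fin 3) + 1 = 2 := by decide
  have a22 : (2 : Fin 3) + 2 = 1 := by decide
  fin_cases x1 <;> fin_cases x2 <;> fin_cases y1 <;> fin_cases y2 <;>
    simp [n1, n2, a12, a21, a11, a22]
  all_goals try ring

/-- The contraction of a bubble. -/
theorem kg_eq : ∀ q x : Fin 3 × Fin 3, (∑ k : Fin 3 × Fin 3, ∑ z : Fin 3 × Fin 3,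
    gT3 q k z * gT3 (gd x) (gd k) (gd z)) = (if q = x then -6 else 0) +
      (if q.1 = q.2 ∧ x.1 = x.2 then 2 else 0) := by
  decide +kernel

theorem oG_eq (F : Fin 3 × Fin 3 → Fin 3 × Fin 3 → ℤ) (x y : Fin 3 × Fin 3) :
    oG gl gd F x y = F x y * (-6) +
      (if x.1 = x.2 then 2 * (F (0, 0) y + F (1, 1) y + F (2, 2) y) else 0) := by
  have h1 : oG gl gd F x y = ∑ q, F q y * ((if q = x then -6 else 0) +
      (if q.1 = q.2 ∧ x.1 = x.2 then 2 else 0)) := by
    show ∑ q, ∑ k, ∑ z, F q y * (gT3 q k z * gT3 (gd x) (gd k) (gd z)) = _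
    refine Finset.sum_congr rfl fun q _ => ?_
    rw [← kg_eq]
    simp only [Finset.mul_sum]
  rw [h1]
  simp only [mul_add, Finset.sum_add_distrib, mul_ite, mul_zero, Finset.sum_ite_eq',
    Finset.mem_univ, if_true, Fintype.sum_prod_type, Fin.sum_univ_three]
  by_cases h : x.1 = x.2
  · simp [h]
    ring
  · simp [h]

/-- The effect of a bubble. -/
def o9 (v : Fin 3 → Fin 3 → ℤ) (c d : Fin 3) : ℤ :=
  v c d * (-6) + (if c = 0 then 2 * (v 0 0 + v 0 1 + v 0 2) else 0)

theorem em_o (v : Fin 3 → Fin 3 → ℤ) : oG gl gd (em v) = em (o9 v) := by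
  funext x y
  rw [oG_eq]
  obtain ⟨x1, x2⟩ := x
  obtain ⟨y1, y2⟩ := y
  simp only [em, o9]
  have n1 : (-1 : Fin 3) = 2 := by decide
  have n2 : (-2 : Fin 3) = 1 := by decide
  have a12 : (1 : Fin 3) + 2 = 0 := by decide
  have a21 : (2 : Fin 3) + 1 = 0 := by decide
  have a11 : (1 : Fin 3) + 1 = 2 := by decide
  have a22 : (2 : Fin 3) + 2 = 1 := by decide
  fin_cases x1 <;> fin_cases x2 <;> fin_cases y1 <;> fin_cases y2 <;>
    simp [n1, n2, a12, a21, a11, a22]
  all_goals try ring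

theorem em_p (v : Fin 3 → Fin 3 → ℤ) :
    (fun x y => oG gl gd (fun x y => em v y x) y x) = em (o9 v) := by
  funext x y
  rw [oG_eq]
  obtain ⟨x1, x2⟩ := x
  obtain ⟨y1, y2⟩ := y
  simp only [em, o9]
  have n1 : (-1 : Fin 3) = 2 := by decide
  have n2 : (-2 : Fin 3) = 1 := by decide
  have a12 : (1 : Fin 3) + 2 = 0 := by decide
  have a21 : (2 : Fin 3) + 1 = 0 := by decide
  have a11 : (1 : Fin 3) + 1 = 2 := by decide
  have a22 : (2 : Fin 3) + 2 = 1 := by decide
  fin_cases x1 <;> fin_cases x2 <;> fin_cases y1 <;> fin_cases y2 <;>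
    simp [n1, n2, a12, a21, a11, a22]
  all_goals try ring

theorem em_h (v : Fin 3 → Fin 3 → ℤ) :
    hG gl gd (em v) = em fun c d => v c d * (![0, 1, -1] : Fin 3 → ℤ) c := by
  funext x y
  rw [hG_eq]
  unfold em
  split_ifs
  · rfl
  · rw [zero_mul]

theorem em_k (v : Fin 3 → Fin 3 → ℤ) :
    (fun x y => hG gl gd (fun x y => em v y x) y x) =
      em fun c d => v c d * (![0, -1, 1] : Fin 3 → ℤ) c := by
  funext x y
  rw [hG_eq]
  unfold em
  have key : ∀ a b : Fin 3, a + b = 0 → (![0, 1, -1] : Fin 3 → ℤ) b =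
      (![0, -1, 1] : Fin 3 → ℤ) a := by decide
  split_ifs with h
  · rw [key _ _ h]
  · rw [zero_mul]

theorem em_c : cG gl gd = em ![![0, 0, 0], ![0, -1, 0], ![0, 0, 1]] := by
  funext x y
  revert x y
  decide +kernel

theorem gh_base : ∀ x y : Fin 3 × Fin 3, gl.T none (some x) (some y) =
    if y = (x.2, x.1) then (![0, 1, -1] : Fin 3 → ℤ) (x.2 - x.1) else 0 := by
  decide +kernel

theorem em_b (v : Fin 3 → Fin 3 → ℤ) :
    (∑ x, ∑ y, em v x y * gl.T none (some x) (some y)) = 3 * v 1 1 - 3 * v 2 2 := by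
  simp only [gh_base, em, Fintype.sum_prod_type, Fin.sum_univ_three]
  have n1 : (-1 : Fin 3) = 2 := by decide
  have n2 : (-2 : Fin 3) = 1 := by decide
  simp [n1, n2]
  ring

/-- The numbers for `gl(3)`. -/
def gV : List Ll → ℤ → ℤ → ℤ → ℤ → ℤ → ℤ → ℤ → ℤ → ℤ → ℤ
  | [], _, _, _, _, v11, _, _, _, v22 => 3 * v11 - 3 * v22
  | .h :: w, _, _, _, v10, v11, v12, v20, v21, v22 =>
    gV w 0 0 0 v10 v11 v12 (-v20) (-v21) (-v22)
  | .k :: w, _, _, _, v10, v11, v12, v20, v21, v22 =>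
    gV w 0 0 0 (-v10) (-v11) (-v12) v20 v21 v22
  | .r :: w, v00, v01, v02, v10, v11, v12, v20, v21, v22 =>
    gV w (v00 + v00 - 2 * (v00 + v11 + v22)) (v22 + v11) (v11 + v22)
      (v10 + v20) (v02 + v01 - 2 * (v00 + v11 + v22)) (v21 + v12)
      (v20 + v10) (v12 + v21) (v01 + v02 - 2 * (v00 + v11 + v22))
  | .o :: w, v00, v01, v02, v10, v11, v12, v20, v21, v22 =>
    gV w (v00 * (-6) + 2 * (v00 + v01 + v02)) (v01 * (-6) + 2 * (v00 + v01 + v02))
      (v02 * (-6) + 2 * (v00 + v01 + v02)) (v10 * (-6)) (v11 * (-6)) (v12 * (-6)) (v20 * (-6))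
      (v21 * (-6)) (v22 * (-6))
  | .p :: w, v00, v01, v02, v10, v11, v12, v20, v21, v22 =>
    gV w (v00 * (-6) + 2 * (v00 + v01 + v02)) (v01 * (-6) + 2 * (v00 + v01 + v02))
      (v02 * (-6) + 2 * (v00 + v01 + v02)) (v10 * (-6)) (v11 * (-6)) (v12 * (-6)) (v20 * (-6))
      (v21 * (-6)) (v22 * (-6))

theorem gN_eq (w : List Ll) : ∀ v00 v01 v02 v10 v11 v12 v20 v21 v22 : ℤ,
    gN w (em ![![v00, v01, v02], ![v10, v11, v12], ![v20, v21, v22]]) =
      gV w v00 v01 v02 v10 v11 v12 v20 v21 v22 := by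
  induction w with
  | nil =>
    intro v00 v01 v02 v10 v11 v12 v20 v21 v22
    show (∑ x, ∑ y, em _ x y * gl.T none (some x) (some y)) = _
    rw [em_b]
    simp [gV]
  | cons l w ih =>
    intro v00 v01 v02 v10 v11 v12 v20 v21 v22
    cases l with
    | h =>
      show gN w (hG gl gd _) = _
      rw [em_h, gV, ← ih]
      congr 2
      funext c d
      fin_cases c <;> fin_cases d <;> simp
    | k =>
      show gN w (fun x y => hG gl gd (fun x y => em _ y x) y x) = _
      rw [em_k, gV, ← ih]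
      congr 2
      funext c d
      fin_cases c <;> fin_cases d <;> simp
    | r =>
      show gN w (tG gl gd _) = _
      rw [em_t, gV, ← ih]
      congr 2
      funext c d
      fin_cases c <;> fin_cases d <;> simp [t9]
    | o =>
      show gN w (oG gl gd _) = _
      rw [em_o, gV, ← ih]
      congr 2
      funext c d
      fin_cases c <;> fin_cases d <;> simp [o9]
    | p =>
      show gN w (fun x y => oG gl gd (fun x y => em _ y x) y x) = _
      rw [em_p, gV, ← ih]
      congr 2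
      funext c d
      fin_cases c <;> fin_cases d <;> simp [o9]

theorem nN_eq (w : List Ll) : nN w = oV w 0 (-1) (-1) 1 1 - gV w 0 0 0 0 (-1) 0 0 0 1 := by
  unfold nN
  rw [em_c, gN_eq, ← oN_eq]
  congr 2
  funext x
  exact cO_eq x

/-- The word of a list of bits: `false` is a rung. -/
def wd (l : List Bool) : List Ll := l.map fun b => if b then .h else .r

theorem val1 : nN (wd [false, false, false, false, true, true, true, true, true, true]) =
    9 * (-54) := by
  rw [nN_eq]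
  decide +kernel

theorem val5 : nN (wd [true, false, true, true, true, true, false, false, false, true]) =
    9 * 538 := by
  rw [nN_eq]
  decide +kernel

end Pool.Agent.SWT85
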