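import Mathlib
import Pool.Agent.SWT85.Code
import Pool.Agent.SWT80.Eval

/-!
# Based graphs described by codes
-/

set_option autoImplicit false

namespace Pool.Agent.SWT85

open Pool.Agent.Jac70 Pool.Agent.SWT80

variable {V W : Type} {n : ℕ}

/-- The labels at the vertex of `w`. -/
def trg (G : Gr V n) (lam : V → ℕ) (w : V) : Tri := (lam w, lam (G.r w), lam (G.r (G.r w)))

/-- The graph is described by `ls`, `vs`. -/
structure Rg (G : Gr V n) (lam : V → ℕ) (ws : List V) (ls : List ℕ) (vs : List Tri) : Prop where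
  hl : List.ofFn (fun i => lam (G.leg i)) = ls
  hv : ws.map (trg G lam) = vs
  nf : ∀ w ∈ ws, G.r w ≠ w
  cov : ∀ v, G.r v ≠ v → ∃ w ∈ ws, G.vt w v
  nd : ws.Pairwise fun v w => ¬ G.vt v w
  lb : ∀ v w, lam v = lam w ↔ w = v ∨ w = G.e v

/-- The half-edges of a vertex. -/
def rpg (G : Gr V n) (j : Fin 3) (v : V) : V := ![v, G.r v, G.r (G.r v)] j

theorem r_rpg (G : Gr V n) (j : Fin 3) (v : V) : G.r (rpg G j v) = rpg G (j + 1) v := by
  fin_cases j
  · rfl
  · rfl
  · exact G.r3 v

theorem gvt_symm {G : Gr V n} {a b : V} (h : G.vt a b) : G.vt b a := by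
  rcases h with h | h | h
  · exact Or.inl h.symm
  · right; right
    rw [h, G.r3]
  · right; left
    rw [h, G.r3]

theorem gvt_trans {G : Gr V n} {a b c : V} (h : G.vt a b) (h' : G.vt b c) : G.vt a c := by
  rcases h' with rfl | rfl | rfl
  · exact h
  · exact G.vt_r.2 h
  · exact G.vt_r.2 (G.vt_r.2 h)

theorem gvt_rp (G : Gr V n) (j : Fin 3) (h : V) : G.vt h (rpg G j h) := by
  fin_cases j
  · exact Or.inl rfl
  · exact Or.inr (Or.inl rfl)
  · exact Or.inr (Or.inr rfl)

theorem rpg_inj {G : Gr V n} {j j' : Fin 3} {v : V} (hv : G.r v ≠ v)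
    (h : rpg G j v = rpg G j' v) : j = j' := by
  have h1 : G.r v ≠ v := hv
  have h2 : G.r (G.r v) ≠ v := fun h => hv (G.r2 h)
  have h3 : G.r (G.r v) ≠ G.r v := fun h => hv (G.r_inj h)
  fin_cases j <;> fin_cases j' <;>
    simp only [rpg, Matrix.cons_val, Fin.zero_eta, Fin.mk_one, Fin.reduceFinMk] at h ⊢
  · exact absurd h.symm h1
  · exact absurd h.symm h2
  · exact absurd h h1
  · exact absurd h.symm h3
  · exact absurd h h2
  · exact absurd h h3

section

variable {G : Gr V n} {lam : V → ℕ} {ws : List V} {ls : List ℕ} {vs : List Tri}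

theorem Rg.len (R : Rg G lam ws ls vs) : ws.length = vs.length := by
  rw [← R.hv, List.length_map]

theorem Rg.lenl (R : Rg G lam ws ls vs) : ls.length = n := by
  rw [← R.hl, List.length_ofFn]

/-- The half-edge at a position. -/
def Rg.pos (R : Rg G lam ws ls vs) : Fin n ⊕ (Fin vs.length × Fin 3) → V
  | Sum.inl i => G.leg i
  | Sum.inr p => rpg G p.2 (ws[p.1.val]'(by rw [R.len]; exact p.1.2))

theorem Rg.vw_ne (R : Rg G lam ws ls vs) (k : Fin vs.length) :
    G.r (ws[k.val]'(by rw [R.len]; exact k.2)) ≠ ws[k.val]'(by rw [R.len]; exact k.2) :=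
  R.nf _ (List.getElem_mem _)

theorem rpg_ne {G : Gr V n} {j : Fin 3} {v : V} (hv : G.r v ≠ v) : G.r (rpg G j v) ≠ rpg G j v := by
  rw [r_rpg]
  intro h
  have h1 := rpg_inj hv h
  have key : ∀ i : Fin 3, i + 1 ≠ i := by decide
  exact key j h1

theorem Rg.bij (R : Rg G lam ws ls vs) : Function.Bijective R.pos := by
  constructor
  · rintro (i | ⟨k, j⟩) (i' | ⟨k', j'⟩) h
    · have h' : G.leg i = G.leg i' := h
      rw [G.inj h']
    · exfalso
      have h' : G.leg i = rpg G j' (ws[k'.val]'(by rw [R.len]; exact k'.2)) := h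
      have h1 := G.r_leg i
      rw [h'] at h1
      exact rpg_ne (R.vw_ne k') h1
    · exfalso
      have h' : rpg G j (ws[k.val]'(by rw [R.len]; exact k.2)) = G.leg i' := h
      have h1 := G.r_leg i'
      rw [← h'] at h1
      exact rpg_ne (R.vw_ne k) h1
    · have h' : rpg G j (ws[k.val]'(by rw [R.len]; exact k.2)) =
        rpg G j' (ws[k'.val]'(by rw [R.len]; exact k'.2)) := h
      have h1 : G.vt (ws[k.val]'(by rw [R.len]; exact k.2))
          (ws[k'.val]'(by rw [R.len]; exact k'.2)) := by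
        have h2 := gvt_rp G j (ws[k.val]'(by rw [R.len]; exact k.2))
        rw [h'] at h2
        exact gvt_trans h2 (gvt_symm (gvt_rp G j' _))
      have h2 : k = k' := by
        by_contra hne
        have hp := List.pairwise_iff_getElem.1 R.nd
        rcases lt_or_gt_of_ne hne with h3 | h3
        · exact hp k.val k'.val _ _ h3 h1
        · exact hp k'.val k.val _ _ h3 (gvt_symm h1)
      subst h2
      rw [rpg_inj (R.vw_ne k) h']
  · intro v
    by_cases hv : G.r v = v
    · obtain ⟨i, hi⟩ := (G.fix v).1 hv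
      exact ⟨Sum.inl i, hi⟩
    · obtain ⟨w, hw, hvt⟩ := R.cov v hv
      obtain ⟨k, hk, rfl⟩ := List.getElem_of_mem hw
      rw [R.len] at hk
      rcases hvt with h1 | h1 | h1
      · exact ⟨Sum.inr (⟨k, hk⟩, 0), h1.symm⟩
      · exact ⟨Sum.inr (⟨k, hk⟩, 1), h1.symm⟩
      · exact ⟨Sum.inr (⟨k, hk⟩, 2), h1.symm⟩

/-- The label of a position. -/
def labp (f : Fin n → ℕ) (vs : List Tri) : Fin n ⊕ (Fin vs.length × Fin 3) → ℕ
  | Sum.inl i => f i
  | Sum.inr p => cp p.2 vs[p.1.val]

theorem cp_trg (G : Gr V n) (lam : V → ℕ) (w : V) (j : Fin 3) :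
    cp j (trg G lam w) = lam (rpg G j w) := by
  fin_cases j <;> rfl

theorem Rg.lab (R : Rg G lam ws ls vs) (p : Fin n ⊕ (Fin vs.length × Fin 3)) :
    lam (R.pos p) = labp (fun i => lam (G.leg i)) vs p := by
  rcases p with i | ⟨k, j⟩
  · rfl
  · show lam (rpg G j (ws[k.val]'(by rw [R.len]; exact k.2))) = cp j vs[k.val]
    rw [← cp_trg G lam]
    congr 1
    have h1 : (ws.map (trg G lam))[k.val]'(by rw [List.length_map, R.len]; exact k.2) =
        vs[k.val] := by
      simp only [R.hv]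
    rw [List.getElem_map] at h1
    exact h1

/-- **Graphs with the same code are isomorphic.** -/
theorem Rg.iso (R : Rg G lam ws ls vs) {G' : Gr W n} {lam' : W → ℕ} {ws' : List W}
    (R' : Rg G' lam' ws' ls vs) : ∃ f : V ≃ W, G.map f = G' := by
  have hleg : (fun i => lam (G.leg i)) = fun i => lam' (G'.leg i) :=
    List.ofFn_injective (R.hl.trans R'.hl.symm)
  let P := Equiv.ofBijective _ R.bij
  let P' := Equiv.ofBijective _ R'.bij
  have hf : ∀ p, (P.symm.trans P') (R.pos p) = R'.pos p := by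
    intro p
    show P' (P.symm (P p)) = P' p
    rw [P.symm_apply_apply]
  have hlab : ∀ p, lam' (R'.pos p) = lam (R.pos p) := by
    intro p
    rw [R.lab, R'.lab, hleg]
  refine ⟨P.symm.trans P', Gr.map_eq ?_ ?_ ?_⟩
  · intro v
    obtain ⟨p, rfl⟩ := R.bij.2 v
    obtain ⟨q, hq⟩ := R.bij.2 (G.e (R.pos p))
    rw [← hq, hf, hf]
    have h1 : lam (R.pos p) = lam (R.pos q) := (R.lb _ _).2 (Or.inr hq)
    have h2 : lam' (R'.pos p) = lam' (R'.pos q) := by rw [hlab, hlab, h1]
    rcases (R'.lb _ _).1 h2 with h3 | h3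
    · exfalso
      have h4 := R'.bij.1 h3
      rw [h4] at hq
      exact G.e1 _ hq.symm
    · exact h3.symm
  · intro v
    obtain ⟨p, rfl⟩ := R.bij.2 v
    rw [hf]
    rcases p with i | ⟨k, j⟩
    · have h1 : G.r (R.pos (Sum.inl i)) = R.pos (Sum.inl i) := G.r_leg i
      have h2 : G'.r (R'.pos (Sum.inl i)) = R'.pos (Sum.inl i) := G'.r_leg i
      rw [h1, h2, hf]
    · have h1 : G.r (R.pos (Sum.inr (k, j))) = R.pos (Sum.inr (k, j + 1)) := r_rpg G j _
      have h2 : G'.r (R'.pos (Sum.inr (k, j))) = R'.pos (Sum.inr (k, j + 1)) := r_rpg G' j _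
      rw [h1, h2, hf]
  · intro i
    exact (hf (Sum.inl i)).symm

theorem Rg.card [Fintype V] (R : Rg G lam ws ls vs) :
    Fintype.card V = ls.length + 3 * vs.length := by
  rw [← Fintype.card_congr (Equiv.ofBijective _ R.bij), Fintype.card_sum, Fintype.card_prod,
    Fintype.card_fin, Fintype.card_fin, Fintype.card_fin, R.lenl]
  ring

end

/-! ### The based graph of a diagram -/

section

variable {H : Type} [DecidableEq H]

/-- The graph of the diagram `D` which is read from the vertex of `u`. -/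
structure IsRd (D : JD H) (u : H) (G : Gr {h : H // ¬ D.onC h} n) : Prop where
  e : ∀ v, ((G.e v) : H) = D.e v
  ri : ∀ v : {h : H // ¬ D.onC h}, D.inner v → ((G.r v) : H) = D.r v
  ro : ∀ v : {h : H // ¬ D.onC h}, ¬ D.inner v → G.r v = v
  leg : ∀ i, ((G.leg i) : H) = D.r (D.r ((fun c => D.e (D.r c))^[i] u))

variable {D : JD H} {lam : H → ℕ} {cs ws : List H} {ls : List ℕ} {vs : List Tri}

theorem Rz.walk (R : Rz D lam cs ws ls vs) {u : H} (hu : cs.head? = some u) (i : ℕ)
    (hi : i < cs.length) : (fun c => D.e (D.r c))^[i] u = cs[i] := by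
  induction i with
  | zero =>
    cases cs with
    | nil => simp at hi
    | cons c cs =>
      rw [List.head?_cons, Option.some.injEq] at hu
      exact hu.symm
  | succ i ih =>
    rw [Function.iterate_succ_apply', ih (by omega)]
    have h1 : (cs.map (fun c => D.e (D.r c)))[i]'(by rw [List.length_map]; omega) =
        (cs.rotate 1)[i]'(by rw [List.length_rotate]; omega) := by
      simp only [R.cy]
    rw [List.getElem_map, List.getElem_rotate] at h1
    rw [h1]
    congr 1
    exact Nat.mod_eq_of_lt hi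

theorem Rz.nodup (R : Rz D lam cs ws ls vs) : cs.Nodup := by
  have h1 := (List.pairwise_append.1 R.nd).1
  exact h1.imp fun h h' => h (Or.inl h'.symm)

theorem Rz.cardK (R : Rz D lam cs ws ls vs) : D.K.card = ls.length := by
  have h1 : D.K = ⟨(cs : Multiset H), R.nodup⟩ := by
    ext h
    rw [R.hK]
    rfl
  rw [h1, ← R.lenc]
  rfl

theorem Rz.inner (R : Rz D lam cs ws ls vs) {w : H} (hw : w ∈ ws) : D.inner w := by
  by_contra hc
  obtain ⟨u, hu, h3⟩ := D.not_inner_iff.1 hc
  exact (List.pairwise_append.1 R.nd).2.2 u ((R.hK u).1 hu) w hw h3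

theorem Rz.rg (R : Rz D lam cs ws ls vs) {u : H} (hu : cs.head? = some u)
    {G : Gr {h : H // ¬ D.onC h} n} (hn : n = ls.length) (hG : IsRd D u G) :
    ∃ ws' : List {h : H // ¬ D.onC h}, Rg G (fun v => lam v) ws' ls vs := by
  have key : ∀ w ∈ ws, ¬ D.onC w := fun w hw => (R.inner hw).1
  have hr : ∀ v : {h : H // ¬ D.onC h}, D.inner v → ((G.r (G.r v)) : H) = D.r (D.r v) := by
    intro v hv
    rw [hG.ri _ (by rw [hG.ri _ hv]; exact D.inner_r hv), hG.ri _ hv]
  have hvt : ∀ v w : {h : H // ¬ D.onC h}, D.inner v → (G.vt v w ↔ D.vt v w) := by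
    intro v w hv
    have h1 : ∀ x : {h : H // ¬ D.onC h}, w = x ↔ (w : H) = x := fun x => Subtype.ext_iff
    unfold Gr.vt JD.vt
    rw [h1, h1, h1, hG.ri _ hv, hr _ hv]
  refine ⟨ws.pmap (fun w hw => ⟨w, hw⟩) key, ?_, ?_, ?_, ?_, ?_, ?_⟩
  · subst hn
    refine List.ext_getElem (by rw [List.length_ofFn]) fun i h1 h2 => ?_
    have h3 : i < cs.length := by rw [R.lenc]; exact h2
    rw [List.getElem_ofFn, hG.leg]
    show lam (D.r (D.r ((fun c => D.e (D.r c))^[i] u))) = _
    rw [R.walk hu i h3]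
    simp only [← R.hl, List.getElem_map]
  · rw [← R.hv, List.map_pmap, ← List.pmap_eq_map (f := tr D lam) key]
    refine List.pmap_congr_left ws fun w hw h1 h2 => ?_
    have hi := R.inner hw
    show (lam w, lam ((G.r ⟨w, h1⟩ : {h : H // ¬ D.onC h}) : H),
      lam ((G.r (G.r ⟨w, h1⟩) : {h : H // ¬ D.onC h}) : H)) = _
    rw [hr ⟨w, h1⟩ hi, hG.ri ⟨w, h1⟩ hi]
    rfl
  · intro v hv h
    obtain ⟨w, hw, rfl⟩ := List.mem_pmap.1 hv
    have h1 := congrArg Subtype.val h
    rw [hG.ri _ (R.inner hw)] at h1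
    exact D.r1 _ h1
  · intro v hv
    have hi : D.inner v := by
      by_contra hc
      exact hv (hG.ro v hc)
    obtain ⟨w, hw, h1⟩ := R.cov v
    rcases List.mem_append.1 hw with h2 | h2
    · exact absurd ⟨w, (R.hK w).2 h2, h1⟩ (fun h3 => (D.not_inner_iff.2 h3) hi)
    · exact ⟨⟨w, key w h2⟩, List.mem_pmap.2 ⟨w, h2, rfl⟩, (hvt _ _ (R.inner h2)).2 h1⟩
  · rw [List.pairwise_pmap]
    have h1 := (List.pairwise_append.1 R.nd).2.1
    refine h1.imp_of_mem fun {v w} hv hw h h2 h3 h4 => h ((hvt _ _ (R.inner hv)).1 h4)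
  · intro v w
    rw [R.lb _ _ v.2 w.2]
    constructor
    · rintro (h | h)
      · exact Or.inl (Subtype.ext h)
      · exact Or.inr (Subtype.ext (h.trans (hG.e v).symm))
    · rintro (h | h)
      · exact Or.inl (congrArg Subtype.val h)
      · exact Or.inr ((congrArg Subtype.val h).trans (hG.e v))

end

end Pool.Agent.SWT85
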