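import Mathlib
import Pool.Agent.SWT85.Mkr

/-!
# Codes in which every label occurs twice
-/

set_option autoImplicit false

namespace Pool.Agent.SWT85

open Pool.Agent.Jac70

section

variable {ls : List ℕ} {vs : List Tri}

/-- The list of the positions with a label. -/
def plP (ls : List ℕ) (vs : List Tri) : List (Pn ls vs) :=
  (csP ls vs).map (fun c => (c.1, 2)) ++
    (wsP ls vs).flatMap fun w => [(w.1, 0), (w.1, 1), (w.1, 2)]

theorem plP_map : (plP ls vs).map (lab ls vs) = lbs ls vs := by
  unfold plP lbs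
  rw [List.map_append, List.map_flatMap, List.map_map, List.flatMap_def, List.flatMap_def]
  congr 1
  · unfold csP
    rw [List.map_ofFn]
    refine List.ext_getElem (by simp) fun i h1 h2 => ?_
    rw [List.getElem_ofFn]
    exact lab_lt h2 2
  · congr 1
    unfold wsP
    rw [List.map_ofFn]
    refine List.ext_getElem (by simp) fun i h1 h2 => ?_
    rw [List.getElem_ofFn, List.getElem_map]
    have h3 : i < vs.length := by simpa using h2
    have e1 := lab_ge (ls := ls) (vs := vs) h3 0
    have e2 := lab_ge (ls := ls) (vs := vs) h3 1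
    have e3 := lab_ge (ls := ls) (vs := vs) h3 2
    show [lab ls vs _, lab ls vs _, lab ls vs _] = _
    simp only
    rw [e1, e2, e3]
    rfl

theorem mem_csP {p : Pn ls vs} : p ∈ csP ls vs ↔ p.1.val < ls.length ∧ p.2 = 0 := by
  unfold csP
  rw [List.mem_ofFn]
  constructor
  · rintro ⟨i, rfl⟩
    exact ⟨i.2, rfl⟩
  · rintro ⟨h1, h2⟩
    exact ⟨⟨p.1.val, h1⟩, Prod.ext rfl h2.symm⟩

theorem mem_wsP {p : Pn ls vs} : p ∈ wsP ls vs ↔ ls.length ≤ p.1.val ∧ p.2 = 0 := by
  unfold wsP
  rw [List.mem_ofFn]
  constructor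
  · rintro ⟨i, rfl⟩
    exact ⟨Nat.le_add_right _ _, rfl⟩
  · rintro ⟨h1, h2⟩
    have h3 := p.1.2
    refine ⟨⟨p.1.val - ls.length, by omega⟩, Prod.ext (Fin.ext ?_) h2.symm⟩
    simp only
    omega

theorem mem_plP {p : Pn ls vs} : p ∈ plP ls vs ↔ lp ls vs p := by
  unfold plP lp
  rw [List.mem_append, List.mem_map, List.mem_flatMap]
  obtain ⟨i, j⟩ := p
  constructor
  · rintro (⟨c, _, hc⟩ | ⟨w, hw, hc⟩)
    · have h1 : (2 : Fin 3) = j := congrArg Prod.snd hc
      rintro ⟨_, h2⟩
      exact h2 h1.symm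
    · have h1 := mem_wsP.1 hw
      have h2 : i = w.1 := by
        simp only [List.mem_cons, Prod.mk.injEq, List.not_mem_nil, or_false] at hc
        rcases hc with h | h | h <;> exact h.1
      rintro ⟨h3, _⟩
      simp only at h3
      rw [h2] at h3
      omega
  · intro h
    by_cases hi : i.val < ls.length
    · left
      refine ⟨(i, 0), mem_csP.2 ⟨hi, rfl⟩, ?_⟩
      simp only [not_and, not_not] at h
      rw [h hi]
    · right
      refine ⟨(i, 0), mem_wsP.2 ⟨not_lt.1 hi, rfl⟩, ?_⟩
      fin_cases j <;> simp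

theorem nodup_plP : (plP ls vs).Nodup := by
  have hc : (csP ls vs).Nodup := by
    unfold csP
    rw [List.nodup_ofFn]
    intro a b h
    simp only [Prod.mk.injEq, Fin.mk.injEq, and_true] at h
    exact Fin.ext h
  have hw : (wsP ls vs).Nodup := by
    unfold wsP
    rw [List.nodup_ofFn]
    intro a b h
    simp only [Prod.mk.injEq, Fin.mk.injEq, Nat.add_left_cancel_iff, and_true] at h
    exact Fin.ext h
  unfold plP
  rw [List.nodup_append]
  refine ⟨?_, ?_, ?_⟩
  · refine hc.map_on ?_
    intro a ha b hb h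
    have h1 := (mem_csP.1 ha).2
    have h2 := (mem_csP.1 hb).2
    exact Prod.ext (Prod.ext_iff.1 h).1 (h1.trans h2.symm)
  · rw [List.nodup_flatMap]
    refine ⟨fun w _ => ?_, ?_⟩
    · simp
    · refine List.Pairwise.imp_of_mem ?_ hw
      intro a b ha hb hab
      have h1 := (mem_wsP.1 ha).2
      have h2 := (mem_wsP.1 hb).2
      have h3 : a.1 ≠ b.1 := fun h => hab (Prod.ext h (h1.trans h2.symm))
      show List.Disjoint _ _
      intro x hx hx'
      simp only [List.mem_cons, List.not_mem_nil, or_false] at hx hx'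
      apply h3
      rcases hx with rfl | rfl | rfl <;> rcases hx' with h | h | h <;>
        exact (Prod.ext_iff.1 h).1
  · intro a ha b hb h
    obtain ⟨c, hc, rfl⟩ := List.mem_map.1 ha
    obtain ⟨w, hw, hb⟩ := List.mem_flatMap.1 hb
    have h1 := (mem_csP.1 hc).1
    have h2 := (mem_wsP.1 hw).1
    have h3 : c.1 = w.1 := by
      rw [← h] at hb
      simp only [List.mem_cons, List.not_mem_nil, or_false] at hb
      rcases hb with h | h | h <;> exact (Prod.ext_iff.1 h).1
    rw [h3] at h1
    omega

/-- Every label occurs twice. -/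
theorem wf_of_count (h : ∀ x ∈ lbs ls vs, (lbs ls vs).count x = 2) : Wf ls vs := by
  intro p hp
  have hpm := mem_plP.2 hp
  have hx : lab ls vs p ∈ lbs ls vs := by
    rw [← plP_map]
    exact List.mem_map_of_mem hpm
  have h1 := h _ hx
  rw [← plP_map, List.count_eq_countP, List.countP_map, List.countP_eq_length_filter] at h1
  obtain ⟨a, b, hab⟩ := List.length_eq_two.1 h1
  have hmem : ∀ q, q ∈ [a, b] ↔ lp ls vs q ∧ lab ls vs q = lab ls vs p := by
    intro q
    rw [← hab, List.mem_filter, mem_plP]
    simp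
  have hnd : [a, b].Nodup := by
    rw [← hab]
    exact nodup_plP.filter _
  have hne : a ≠ b := by
    intro h
    rw [h] at hnd
    simp at hnd
  have hpab := (hmem p).2 ⟨hp, rfl⟩
  have ha := (hmem a).1 (by simp)
  have hb := (hmem b).1 (by simp)
  simp only [List.mem_cons, List.not_mem_nil, or_false] at hpab
  rcases hpab with h2 | h2
  · refine ⟨b, hb.1, ?_, hb.2, ?_⟩
    · rw [h2]; exact hne.symm
    · intro q' h3 h4
      have h5 := (hmem q').2 ⟨h3, h4⟩
      simp only [List.mem_cons, List.not_mem_nil, or_false] at h5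
      rw [h2]
      exact h5
  · refine ⟨a, ha.1, ?_, ha.2, ?_⟩
    · rw [h2]; exact hne
    · intro q' h3 h4
      have h5 := (hmem q').2 ⟨h3, h4⟩
      simp only [List.mem_cons, List.not_mem_nil, or_false] at h5
      rw [h2]
      exact h5.symm

/-- A connected code in which every label occurs twice describes a diagram. -/
theorem good_of_count {H : Type} [DecidableEq H] [Fintype H]
    (h : ∀ x ∈ lbs ls vs, (lbs ls vs).count x = 2) (C : Cn ls vs) (h0 : ls ≠ [])
    (hH : Fintype.card H = 3 * (ls.length + vs.length)) : Good H ls vs := by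
  refine good_of (wf_of_count h) C h0 (Fintype.equivOfCardEq ?_)
  rw [hH, Fintype.card_prod, Fintype.card_fin, Fintype.card_fin, mul_comm]

end

end Pool.Agent.SWT85
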