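import Pool.Agent.SWT85.Rg
import Pool.Agent.SWT85.Wf
import Pool.Agent.SWT93.Stmts

/-!
# Codes of connected graphs describe diagrams
-/

set_option autoImplicit false

namespace Pool.Agent.SWT85

open Pool.Agent.Jac70 Pool.Agent.SWT80 Pool.Agent.SWT93

variable {V : Type} {n : ℕ} {G : Gr V n} {lam : V → ℕ} {ws : List V} {ls : List ℕ} {vs : List Tri}

/-- All half-edges. -/
def Rg.all (G : Gr V n) (ws : List V) : List V :=
  List.ofFn (fun i => G.leg i) ++ ws.flatMap fun w => [w, G.r w, G.r (G.r w)]

theorem Rg.lbs_eq (R : Rg G lam ws ls vs) : lbs ls vs = (Rg.all G ws).map lam := by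
  unfold lbs Rg.all
  rw [List.map_append, List.map_ofFn, ← R.hl, ← R.hv, List.map_flatMap, List.flatMap_map]
  rfl

theorem Rg.mem_all (R : Rg G lam ws ls vs) (v : V) : v ∈ Rg.all G ws := by
  unfold Rg.all
  rw [List.mem_append]
  by_cases hv : G.r v = v
  · obtain ⟨i, hi⟩ := (G.fix v).1 hv
    exact Or.inl ((List.mem_ofFn' _ _).2 ⟨i, hi⟩)
  · obtain ⟨w, hw, h⟩ := R.cov v hv
    refine Or.inr (List.mem_flatMap.2 ⟨w, hw, ?_⟩)
    rcases h with h | h | h
    · simp [h]
    · simp [h]
    · simp [h]

theorem Rg.nodup_all (R : Rg G lam ws ls vs) : (Rg.all G ws).Nodup := by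
  unfold Rg.all
  rw [List.nodup_append]
  refine ⟨List.nodup_ofFn.2 G.inj, ?_, ?_⟩
  · rw [List.nodup_flatMap]
    refine ⟨?_, ?_⟩
    · intro w hw
      have h1 : G.r w ≠ w := R.nf w hw
      have h2 : G.r (G.r w) ≠ w := fun h => h1 (G.r2 h)
      have h3 : G.r (G.r w) ≠ G.r w := fun h => h1 (G.r_inj h)
      simp [h1.symm, h2.symm, h3.symm]
    · refine R.nd.imp fun {v w} h => ?_
      show List.Disjoint _ _
      intro x hx hx'
      have h1 : G.vt v x := by
        rcases List.mem_cons.1 hx with h | h
        · exact Or.inl h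
        · rcases List.mem_cons.1 h with h | h
          · exact Or.inr (Or.inl h)
          · exact Or.inr (Or.inr (by simpa using h))
      have h2 : G.vt w x := by
        rcases List.mem_cons.1 hx' with h | h
        · exact Or.inl h
        · rcases List.mem_cons.1 h with h | h
          · exact Or.inr (Or.inl h)
          · exact Or.inr (Or.inr (by simpa using h))
      exact h (gvt_trans h1 (gvt_symm h2))
  · intro x hx y hy hxy
    subst hxy
    obtain ⟨i, rfl⟩ := (List.mem_ofFn' _ _).1 hx
    obtain ⟨w, hw, h⟩ := List.mem_flatMap.1 hy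
    have h1 : G.vt w (G.leg i) := by
      rcases List.mem_cons.1 h with h | h
      · exact Or.inl h
      · rcases List.mem_cons.1 h with h | h
        · exact Or.inr (Or.inl h)
        · exact Or.inr (Or.inr (by simpa using h))
    have h2 : G.vt (G.leg i) w := gvt_symm h1
    have h3 := G.r_leg i
    have h4 : w = G.leg i := by
      rcases h2 with h2 | h2 | h2
      · exact h2
      · rw [h2, h3]
      · rw [h2, h3, h3]
    exact R.nf w hw (by rw [h4, h3])

theorem Rg.count (R : Rg G lam ws ls vs) : ∀ x ∈ lbs ls vs, (lbs ls vs).count x = 2 := by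
  classical
  intro x hx
  rw [R.lbs_eq] at hx ⊢
  obtain ⟨v, _, rfl⟩ := List.mem_map.1 hx
  rw [List.count, List.countP_map, List.countP_eq_length_filter]
  have h1 : ((Rg.all G ws).filter ((fun y => y == lam v) ∘ lam)).Perm [v, G.e v] := by
    rw [List.perm_ext_iff_of_nodup (R.nodup_all.filter _) (by simp [(G.e1 v).symm])]
    intro w
    rw [List.mem_filter]
    simp only [Function.comp, beq_iff_eq, List.mem_cons, List.not_mem_nil, or_false]
    rw [eq_comm, R.lb v w]
    exact ⟨fun h => h.2, fun h => ⟨R.mem_all w, h⟩⟩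
  rw [h1.length_eq]
  rfl

theorem Rg.cn (R : Rg G lam ws ls vs) (hG : GConn G) (hn : n ≠ 0) : Cn ls vs := by
  intro S h1 h2 x hx
  rw [R.lbs_eq] at hx
  obtain ⟨v, _, rfl⟩ := List.mem_map.1 hx
  have h3 : {v | S (lam v)} = Set.univ := by
    refine hG _ ⟨?_, ?_⟩ ?_
    · intro v hv
      show S (lam (G.e v))
      rw [← (R.lb v (G.e v)).2 (Or.inr rfl)]
      exact hv
    · intro v hv
      show S (lam (G.r v))
      by_cases hr : G.r v = v
      · rw [hr]
        exact hv
      · obtain ⟨w, hw, h⟩ := R.cov v hr
        have h4 : trg G lam w ∈ vs := by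
          rw [← R.hv]
          exact List.mem_map_of_mem hw
        have h5 := h2 _ h4
        have h6 : S (lam w) ∧ S (lam (G.r w)) ∧ S (lam (G.r (G.r w))) := by
          apply h5
          rcases h with h | h | h
          · left
            rw [h] at hv
            exact hv
          · right; left
            rw [h] at hv
            exact hv
          · right; right
            rw [h] at hv
            exact hv
        rcases h with h | h | h
        · rw [h]
          exact h6.2.1
        · rw [h]
          exact h6.2.2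
        · rw [h, G.r3]
          exact h6.1
    · refine ⟨G.leg ⟨0, Nat.pos_of_ne_zero hn⟩, ?_⟩
      show S (lam (G.leg ⟨0, Nat.pos_of_ne_zero hn⟩))
      apply h1
      rw [← R.hl]
      exact (List.mem_ofFn' _ _).2 ⟨⟨0, Nat.pos_of_ne_zero hn⟩, rfl⟩
  have h4 : v ∈ {v | S (lam v)} := by
    rw [h3]
    trivial
  exact h4

/-- **The code of a connected graph describes a diagram.** -/
theorem Rg.good {H : Type} [DecidableEq H] [Fintype H] (R : Rg G lam ws ls vs) (hG : GConn G)
    (hn : n ≠ 0) (hH : Fintype.card H = 3 * (ls.length + vs.length)) : Good H ls vs :=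
  good_of_count R.count (R.cn hG hn) (by
    intro h
    have h1 := R.lenl
    rw [h] at h1
    exact hn h1.symm) hH

end Pool.Agent.SWT85
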