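import Mathlib

/-!
# Elements which vanish rationally are torsion
-/

set_option autoImplicit false

namespace Pool.Agent.SWT85

open TensorProduct

/-- An element which vanishes rationally is torsion. -/
theorem tors_of_tmul {M : Type} [AddCommGroup M] {x : M} (h : (1 : ℚ) ⊗ₜ[ℤ] x = 0) :
    ∃ m : ℕ, 0 < m ∧ m • x = 0 := by
  have hb : IsLocalizedModule (nonZeroDivisors ℤ) (TensorProduct.mk ℤ ℚ M 1) :=
    (isLocalizedModule_iff_isBaseChange (nonZeroDivisors ℤ) ℚ _).2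
      (TensorProduct.isBaseChange ℤ M ℚ)
  obtain ⟨c, hc⟩ := (IsLocalizedModule.eq_zero_iff (nonZeroDivisors ℤ)
    (TensorProduct.mk ℤ ℚ M 1)).1 h
  have hc0 : (c : ℤ) ≠ 0 := nonZeroDivisors.coe_ne_zero c
  refine ⟨(c : ℤ).natAbs, Int.natAbs_pos.2 hc0, ?_⟩
  have h1 : (c : ℤ) • x = 0 := hc
  rcases Int.natAbs_eq (c : ℤ) with h2 | h2
  · rw [h2] at h1
    simpa using h1
  · rw [h2, neg_smul, neg_eq_zero] at h1
    simpa using h1

end Pool.Agent.SWT85
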