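import Pool.Agent.SWT85.Cs

/-!
# State sums of connected sums
-/

set_option autoImplicit false

namespace Pool.Agent.SWT85

open Equiv Pool.Agent.SWT80 Pool.Agent.SWT45 Pool.Agent.SWT67 Pool.Agent.SWT93
open scoped Classical

variable {V W B : Type} {n m : ℕ}

/-- A closed state: the legs have the label `none`, the other half-edges have other labels. -/
structure Clo (S : LS (Option B)) (G : Gr V n) (s : V → Option B) : Prop where
  lg : ∀ v, s v = none ↔ Lg G v
  e : ∀ v, s (G.e v) = S.du (s v)

/-- A state of the graph which is cut at the edge of `u`. -/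
structure Cut (S : LS (Option B)) (G : Gr V n) (u : V) (s : V → Option B) : Prop where
  lg : ∀ v, s v = none ↔ Lg G v
  e : ∀ v, v ≠ u → v ≠ G.e u → s (G.e v) = S.du (s v)

/-- The product of the tensors at the vertices. -/
noncomputable def tq [Fintype V] (S : LS (Option B)) (G : Gr V n) (s : V → Option B) : ℤ :=
  vp G.r fun v => S.T (s v) (s (G.r v)) (s (G.r (G.r v)))

section

variable {G : Gr V n} {u : V} {K : Gr W m} {a : W} {S : LS (Option B)}

theorem tp_cs [Fintype V] [Fintype W] (hS : S.Ok) (s : V → Option B) (t : W → Option B) :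
    tq S (cs G u K a) (Sum.elim s t) = tq S G s * tq S K t :=
  vp_cs (G := G) (u := u) (K := K) (a := a)
    (f := fun x => S.T (Sum.elim s t x) (Sum.elim s t ((cs G u K a).r x))
      (Sum.elim s t ((cs G u K a).r ((cs G u K a).r x)))) fun x => cst' hS _ _ x

theorem isK_of_tp [Fintype V] (hS : S.Ok) (h0 : S.odd none = false) {s : V → Option B}
    (hs : Clo S G s) (h : tq S G s ≠ 0) :
    ∃ κ, IsK G.e G.r (fun v => S.odd (s v)) (fun v => S.pos (s v)) κ := by
  obtain ⟨Q, hQ⟩ := rep V G.r G.r3
  have hl : ∀ v, G.r v = v → S.odd (s v) = false := by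
    intro v hv
    rw [(hs.lg v).2 (Or.inl hv), h0]
  unfold tq at h
  rw [vp_eq _ _ _ _ G.r3 hQ fun v => cst' hS G s v] at h
  refine exists_isK V _ _ _ _ G.e2 G.r3 ⟨fun v => ?_, fun v hv => ?_, hl, ?_⟩
  · show S.odd (s (G.e v)) = S.odd (s v)
    rw [hs.e, hS.odd_du]
  · show S.pos (s (G.e v)) = !(S.pos (s v))
    rw [hs.e, hS.pos_du _ hv]
  · exact par_of_rep hS hQ h hl

theorem wt_eq [Fintype V] (s : V → Option B) : wt S G s =
    sg G.e G.r (fun v => S.odd (s v)) (fun v => S.pos (s v)) * tq S G s := rfl

/-- The sign of a label. -/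
def so (S : LS (Option B)) (l : Option B) : ℤ := if S.odd l = true then -1 else 1

/-- **The weight of a state of a connected sum.** -/
theorem wt_cs [Fintype V] [Fintype W] (hS : S.Ok) (h0 : S.odd none = false) {s : V → Option B}
    {t : W → Option B} (hs : Clo S G s) (ht : Clo S K t) (h : t a = S.du (s u)) :
    wt S (cs G u K a) (Sum.elim s t) = so S (s u) * (wt S G s * wt S K t) := by
  rw [wt_eq, wt_eq, wt_eq, tp_cs hS]
  by_cases h1 : tq S G s = 0
  · rw [h1]
    ring
  by_cases h2 : tq S K t = 0
  · rw [h2]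
    ring
  have hc : Cutp G u K a (fun x => S.odd (Sum.elim s t x)) (fun x => S.pos (Sum.elim s t x)) := by
    refine ⟨fun v => ?_, fun v hv => ?_, fun w => ?_, fun w hw => ?_, ?_, fun hv => ?_⟩
    · show S.odd (s (G.e v)) = S.odd (s v)
      rw [hs.e, hS.odd_du]
    · show S.pos (s (G.e v)) = !(S.pos (s v))
      rw [hs.e]
      exact hS.pos_du _ hv
    · show S.odd (t (K.e w)) = S.odd (t w)
      rw [ht.e, hS.odd_du]
    · show S.pos (t (K.e w)) = !(S.pos (t w))
      rw [ht.e]
      exact hS.pos_du _ hw
    · show S.odd (t a) = S.odd (s u)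
      rw [h, hS.odd_du]
    · show S.pos (t a) = !(S.pos (s u))
      rw [h]
      exact hS.pos_du _ hv
  rw [sg_cs hc (isK_of_tp hS h0 hs h1) (isK_of_tp hS h0 ht h2)]
  show so S (s u) * _ * _ = _
  simp only [Sum.elim_inl, Sum.elim_inr]
  ring

/-! ### Closed states -/

theorem clo_cs (hS : S.Ok) (hu : ¬ Lg G u) (ha : ¬ Lg K a) {s : V → Option B}
    {t : W → Option B} (hs : Clo S G s) (ht : Clo S K t) (h : t a = S.du (s u)) :
    Clo S (cs G u K a) (Sum.elim s t) := by
  refine ⟨?_, ?_⟩
  · intro x
    rw [lg_cs hu ha]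
    rcases x with v | w
    · exact hs.lg v
    · exact ht.lg w
  · rintro (v | w)
    · by_cases h1 : v = u
      · subst h1
        rw [cs_eu]
        exact h
      by_cases h2 : v = G.e u
      · subst h2
        rw [cs_eeu]
        show t (K.e a) = S.du (s (G.e u))
        rw [ht.e, hs.e, h]
      · rw [cs_el h1 h2]
        exact hs.e v
    · by_cases h1 : w = a
      · subst h1
        rw [cs_ea]
        show s u = S.du (t w)
        rw [h, hS.du_du]
      by_cases h2 : w = K.e a
      · subst h2
        rw [cs_eea]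
        show s (G.e u) = S.du (t (K.e a))
        rw [ht.e, hs.e, h, hS.du_du]
      · rw [cs_er h1 h2]
        exact ht.e w

/-- The parts of a closed state of a connected sum. -/
theorem cut_cs (hu : ¬ Lg G u) (ha : ¬ Lg K a) {s : V → Option B}
    {t : W → Option B} (h : Clo S (cs G u K a) (Sum.elim s t)) :
    Cut S G u s ∧ Cut S K a t ∧ t a = S.du (s u) ∧ t (K.e a) = S.du (s (G.e u)) := by
  have hl := fun x => (h.lg x).trans (lg_cs hu ha x)
  refine ⟨⟨fun v => hl (Sum.inl v), fun v h1 h2 => ?_⟩, ⟨fun w => hl (Sum.inr w),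
    fun w h1 h2 => ?_⟩, ?_, ?_⟩
  · have h3 := h.e (Sum.inl v)
    rw [cs_el h1 h2] at h3
    exact h3
  · have h3 := h.e (Sum.inr w)
    rw [cs_er h1 h2] at h3
    exact h3
  · have h3 := h.e (Sum.inl u)
    rw [cs_eu] at h3
    exact h3
  · have h3 := h.e (Sum.inl (G.e u))
    rw [cs_eeu] at h3
    exact h3

theorem Cut.clo (hS : S.Ok) {s : V → Option B} (h : Cut S G u s) (h1 : s (G.e u) = S.du (s u)) :
    Clo S G s := by
  refine ⟨h.lg, fun v => ?_⟩
  by_cases h2 : v = u
  · rw [h2, h1]
  by_cases h3 : v = G.e u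
  · rw [h3, G.e2, h1, hS.du_du]
  · exact h.e v h2 h3

theorem Clo.cut {s : V → Option B} (h : Clo S G s) (u : V) : Cut S G u s :=
  ⟨h.lg, fun v _ _ => h.e v⟩

/-- The labels at the two ends of the cut edge are dual. -/
def Dual [Fintype W] (S : LS (Option B)) (K : Gr W m) (a : W) : Prop :=
  ∀ t : W → Option B, Cut S K a t → tq S K t ≠ 0 → t (K.e a) = S.du (t a)

theorem clo_of_cs [Fintype W] (hS : S.Ok) (hd : Dual S K a) (hu : ¬ Lg G u) (ha : ¬ Lg K a)
    {s : V → Option B} {t : W → Option B} (h : Clo S (cs G u K a) (Sum.elim s t))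
    (h0 : tq S K t ≠ 0) : Clo S G s ∧ Clo S K t ∧ t a = S.du (s u) := by
  obtain ⟨h1, h2, h3, h4⟩ := cut_cs hu ha h
  have h5 := hd t h2 h0
  refine ⟨h1.clo hS ?_, h2.clo hS h5, h3⟩
  have h6 : S.du (t (K.e a)) = s (G.e u) := by rw [h4, hS.du_du]
  rw [← h6, h5, h3, hS.du_du]

end

/-- The state sum with a weight at the label of `u`. -/
noncomputable def vF [Fintype V] [Fintype B] (S : LS (Option B)) (G : Gr V n) (u : V)
    (F : Option B → ℤ) : ℤ :=
  ∑ s : V → Option B, if Clo S G s then F (s u) * wt S G s else 0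

/-- The state sum of the graph which is cut at the edge of `u`, with a weight at the labels of the
two ends. There are no signs. -/
noncomputable def gF [Fintype V] [Fintype B] (S : LS (Option B)) (G : Gr V n) (u : V)
    (F : Option B → Option B → ℤ) : ℤ :=
  ∑ s : V → Option B, if Cut S G u s then F (s u) (s (G.e u)) * tq S G s else 0

/-- The state sum without signs. -/
noncomputable def tZ [Fintype V] [Fintype B] (S : LS (Option B)) (G : Gr V n) : ℤ :=
  ∑ s : V → Option B, if Clo S G s then tq S G s else 0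

theorem sum_sum {C : Type} [Fintype V] [Fintype W] [Fintype C] (i : Fintype (V ⊕ W → C))
    (f : (V ⊕ W → C) → ℤ) :
    @Finset.sum _ _ _ (@Finset.univ _ i) f = ∑ s : V → C, ∑ t : W → C, f (Sum.elim s t) := by
  rw [← Fintype.sum_prod_type']
  exact (Fintype.sum_equiv (Equiv.sumArrowEquivProdArrow V W C).symm _ _ fun _ => rfl).symm

section

variable [Fintype V] [Fintype W] [Fintype B] {G : Gr V n} {u : V} {K : Gr W m} {a : W}
  {S : LS (Option B)}

/-- **State sums with signs.** -/
theorem vF_cs (hS : S.Ok) (h0 : S.odd none = false) (hd : Dual S K a) (hu : ¬ Lg G u)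
    (ha : ¬ Lg K a) (c : W) (F : Option B → ℤ) : vF S (cs G u K a) (Sum.inr c) F =
      vF S G u fun l => so S l * ∑ t : W → Option B,
        if Clo S K t ∧ t a = S.du l then F (t c) * wt S K t else 0 := by
  unfold vF
  rw [sum_sum _]
  refine Finset.sum_congr rfl fun s _ => ?_
  beta_reduce
  have key : ∀ t : W → Option B, Clo S (cs G u K a) (Sum.elim s t) →
      ¬ (Clo S G s ∧ Clo S K t ∧ t a = S.du (s u)) → wt S (cs G u K a) (Sum.elim s t) = 0 := by
    intro t ht hn
    have h1 : tq S K t = 0 := by
      by_contra h2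
      exact hn (clo_of_cs hS hd hu ha ht h2)
    rw [wt_eq, tp_cs hS, h1, mul_zero, mul_zero]
  by_cases hs : Clo S G s
  · rw [if_pos hs, Finset.mul_sum, Finset.sum_mul]
    refine Finset.sum_congr rfl fun t _ => ?_
    by_cases ht : Clo S K t ∧ t a = S.du (s u)
    · rw [if_pos ht, if_pos (clo_cs hS hu ha hs ht.1 ht.2), wt_cs hS h0 hs ht.1 ht.2]
      simp only [Sum.elim_inr]
      ring
    · rw [if_neg ht]
      split_ifs with h1
      · rw [key t h1 fun h2 => ht h2.2]
        ring
      · ring
  · rw [if_neg hs]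
    refine Finset.sum_eq_zero fun t _ => ?_
    split_ifs with h1
    · rw [key t h1 fun h2 => hs h2.1, mul_zero]
    · rfl

/-- **State sums without signs: the edge of the connected sum at `e a` is cut.** -/
theorem gF_cs (hS : S.Ok) (hu : ¬ Lg G u) (ha : ¬ Lg K a) (F : Option B → Option B → ℤ) :
    gF S (cs G u K a) (Sum.inr (K.e a)) F = gF S G u fun l l' => ∑ t : W → Option B,
        if Cut S K a t ∧ t a = S.du l then F (t (K.e a)) l' * tq S K t else 0 := by
  unfold gF
  rw [sum_sum _]
  refine Finset.sum_congr rfl fun s _ => ?_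
  beta_reduce
  have key : ∀ t : W → Option B, Cut S (cs G u K a) (Sum.inr (K.e a)) (Sum.elim s t) ↔
      Cut S G u s ∧ Cut S K a t ∧ t a = S.du (s u) := by
    intro t
    constructor
    · intro h
      have hl := fun x => (h.lg x).trans (lg_cs hu ha x)
      refine ⟨⟨fun v => hl (Sum.inl v), fun v h1 h2 => ?_⟩, ⟨fun w => hl (Sum.inr w),
        fun w h1 h2 => ?_⟩, ?_⟩
      · have h3 := h.e (Sum.inl v) Sum.inl_ne_inr (by
          rw [cs_eea]
          exact fun h3 => h2 (Sum.inl_injective h3))
        rw [cs_el h1 h2] at h3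
        exact h3
      · have h3 := h.e (Sum.inr w) (fun h3 => h2 (Sum.inr_injective h3)) (by
          rw [cs_eea]
          exact Sum.inr_ne_inl)
        rw [cs_er h1 h2] at h3
        exact h3
      · have h3 := h.e (Sum.inl u) Sum.inl_ne_inr (by
          rw [cs_eea]
          exact fun h3 => G.e1 u (Sum.inl_injective h3).symm)
        rw [cs_eu] at h3
        exact h3
    · rintro ⟨h1, h2, h3⟩
      refine ⟨fun x => ?_, ?_⟩
      · rw [lg_cs hu ha]
        rcases x with v | w
        · exact h1.lg v
        · exact h2.lg w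
      · rintro (v | w) h4 h5
        · rw [cs_eea] at h5
          by_cases h6 : v = u
          · subst h6
            rw [cs_eu]
            exact h3
          · have h7 : v ≠ G.e u := fun h7 => h5 (congrArg Sum.inl h7)
            rw [cs_el h6 h7]
            exact h1.e v h6 h7
        · by_cases h6 : w = a
          · subst h6
            rw [cs_ea]
            show s u = S.du (t w)
            rw [h3, hS.du_du]
          · have h7 : w ≠ K.e a := fun h7 => h4 (congrArg Sum.inr h7)
            rw [cs_er h6 h7]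
            exact h2.e w h6 h7
  simp only [key]
  by_cases hs : Cut S G u s
  · rw [if_pos hs, Finset.sum_mul]
    refine Finset.sum_congr rfl fun t _ => ?_
    by_cases ht : Cut S K a t ∧ t a = S.du (s u)
    · rw [if_pos ht, if_pos ⟨hs, ht⟩, tp_cs hS, cs_eea]
      simp only [Sum.elim_inr, Sum.elim_inl]
      ring
    · rw [if_neg ht, if_neg fun h1 => ht h1.2]
      ring
  · rw [if_neg hs]
    exact Finset.sum_eq_zero fun t _ => if_neg fun h1 => hs h1.1

/-- A state of `K` which is cut at the edges of `a` and `c`. -/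
structure Cut2 (S : LS (Option B)) (K : Gr W m) (a c : W) (t : W → Option B) : Prop where
  lg : ∀ w, t w = none ↔ Lg K w
  e : ∀ w, w ≠ a → w ≠ K.e a → w ≠ c → w ≠ K.e c → t (K.e w) = S.du (t w)

/-- **State sums without signs: an edge of `K` is cut.** -/
theorem gF_cs2 (hS : S.Ok) (hu : ¬ Lg G u) (ha : ¬ Lg K a) {c : W} (hc : c ≠ a)
    (hc' : c ≠ K.e a) (F : Option B → Option B → ℤ) :
    gF S (cs G u K a) (Sum.inr c) F = gF S G u fun l l' => ∑ t : W → Option B,
        if Cut2 S K a c t ∧ t a = S.du l ∧ t (K.e a) = S.du l' then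
          F (t c) (t (K.e c)) * tq S K t else 0 := by
  unfold gF
  rw [sum_sum _]
  refine Finset.sum_congr rfl fun s _ => ?_
  beta_reduce
  have ec : (cs G u K a).e (Sum.inr c) = Sum.inr (K.e c) := cs_er hc hc'
  have key : ∀ t : W → Option B, Cut S (cs G u K a) (Sum.inr c) (Sum.elim s t) ↔
      Cut S G u s ∧ Cut2 S K a c t ∧ t a = S.du (s u) ∧ t (K.e a) = S.du (s (G.e u)) := by
    intro t
    constructor
    · intro h
      have hl := fun x => (h.lg x).trans (lg_cs hu ha x)
      have he : ∀ v : V, s = s → Sum.elim s t ((cs G u K a).e (Sum.inl v)) = S.du (s v) :=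
        fun v _ => h.e (Sum.inl v) Sum.inl_ne_inr (by
          rw [ec]
          exact Sum.inl_ne_inr)
      refine ⟨⟨fun v => hl (Sum.inl v), fun v h1 h2 => ?_⟩, ⟨fun w => hl (Sum.inr w),
        fun w h1 h2 h3 h4 => ?_⟩, ?_, ?_⟩
      · have h3 := he v rfl
        rw [cs_el h1 h2] at h3
        exact h3
      · have h5 := h.e (Sum.inr w) (fun h6 => h3 (Sum.inr_injective h6)) (by
          rw [ec]
          exact fun h6 => h4 (Sum.inr_injective h6))
        rw [cs_er h1 h2] at h5
        exact h5
      · have h3 := he u rfl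
        rw [cs_eu] at h3
        exact h3
      · have h3 := he (G.e u) rfl
        rw [cs_eeu] at h3
        exact h3
    · rintro ⟨h1, h2, h3, h4⟩
      refine ⟨fun x => ?_, ?_⟩
      · rw [lg_cs hu ha]
        rcases x with v | w
        · exact h1.lg v
        · exact h2.lg w
      · rw [ec]
        rintro (v | w) h5 h6
        · by_cases h7 : v = u
          · subst h7
            rw [cs_eu]
            exact h3
          by_cases h8 : v = G.e u
          · subst h8
            rw [cs_eeu]
            exact h4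
          · rw [cs_el h7 h8]
            exact h1.e v h7 h8
        · by_cases h7 : w = a
          · subst h7
            rw [cs_ea]
            show s u = S.du (t w)
            rw [h3, hS.du_du]
          by_cases h8 : w = K.e a
          · subst h8
            rw [cs_eea]
            show s (G.e u) = S.du (t (K.e a))
            rw [h4, hS.du_du]
          · rw [cs_er h7 h8]
            exact h2.e w h7 h8 (fun h9 => h5 (congrArg Sum.inr h9))
              fun h9 => h6 (congrArg Sum.inr h9)
  simp only [key]
  by_cases hs : Cut S G u s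
  · rw [if_pos hs, Finset.sum_mul]
    refine Finset.sum_congr rfl fun t _ => ?_
    by_cases ht : Cut2 S K a c t ∧ t a = S.du (s u) ∧ t (K.e a) = S.du (s (G.e u))
    · rw [if_pos ht, if_pos ⟨hs, ht⟩, tp_cs hS, ec]
      simp only [Sum.elim_inr]
      ring
    · rw [if_neg ht, if_neg fun h1 => ht h1.2]
      ring
  · rw [if_neg hs]
    exact Finset.sum_eq_zero fun t _ => if_neg fun h1 => hs h1.1

/-- **State sums without signs: nothing is cut.** -/
theorem gF_cs0 (hS : S.Ok) (hu : ¬ Lg G u) (ha : ¬ Lg K a) :
    tZ S (cs G u K a) = gF S G u fun l l' => ∑ t : W → Option B,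
        if Cut S K a t ∧ t a = S.du l ∧ t (K.e a) = S.du l' then tq S K t else 0 := by
  unfold gF tZ
  rw [sum_sum _]
  refine Finset.sum_congr rfl fun s _ => ?_
  beta_reduce
  have key : ∀ t : W → Option B, Clo S (cs G u K a) (Sum.elim s t) ↔
      Cut S G u s ∧ Cut S K a t ∧ t a = S.du (s u) ∧ t (K.e a) = S.du (s (G.e u)) := by
    intro t
    constructor
    · exact cut_cs hu ha
    · rintro ⟨h1, h2, h3, h4⟩
      refine ⟨fun x => ?_, ?_⟩
      · rw [lg_cs hu ha]
        rcases x with v | w
        · exact h1.lg v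
        · exact h2.lg w
      · rintro (v | w)
        · by_cases h7 : v = u
          · subst h7
            rw [cs_eu]
            exact h3
          by_cases h8 : v = G.e u
          · subst h8
            rw [cs_eeu]
            exact h4
          · rw [cs_el h7 h8]
            exact h1.e v h7 h8
        · by_cases h7 : w = a
          · subst h7
            rw [cs_ea]
            show s u = S.du (t w)
            rw [h3, hS.du_du]
          by_cases h8 : w = K.e a
          · subst h8
            rw [cs_eea]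
            show s (G.e u) = S.du (t (K.e a))
            rw [h4, hS.du_du]
          · rw [cs_er h7 h8]
            exact h2.e w h7 h8
  simp only [key]
  by_cases hs : Cut S G u s
  · rw [if_pos hs, Finset.sum_mul]
    refine Finset.sum_congr rfl fun t _ => ?_
    by_cases ht : Cut S K a t ∧ t a = S.du (s u) ∧ t (K.e a) = S.du (s (G.e u))
    · rw [if_pos ht, if_pos ⟨hs, ht⟩, tp_cs hS]
      ring
    · rw [if_neg ht, if_neg fun h1 => ht h1.2]
      ring
  · rw [if_neg hs]
    exact Finset.sum_eq_zero fun t _ => if_neg fun h1 => hs h1.1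

end

end Pool.Agent.SWT85
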